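import Pool.Agent.Lib.HyS.Bas

/-!
# HyS, row Inv: sortedness is invariant under the dihedral group

PROOF IN WORDS. `P σ`: for all `v w` with `∑ v = ∑ w` and `Sorted v w` also
`Sorted (permute σ v) (permute σ w)`. `P` holds for products
(`permute (σ * τ) v = permute σ (permute τ v)`, and `permute` does not change the sum), and for
inverses because `σ⁻¹` is a power of `σ` (finite order: `σ⁻¹ = σ ^ (orderOf σ - 1)`), so by
`Subgroup.closure_induction` two generators remain. Let `d m = cum v m - cum w m`, so `d 0 = 0` and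
`d m = 0` for `m ≥ n` (`cum_total`); `Sorted v w` says `|d b - d a| ≤ 1` for all `a, b`.
Rotation (`n ≥ 1`): `permute (finRotate n) v i = v (i - 1)` cyclically, so for `1 ≤ m ≤ n`
`cum (permute (finRotate n) v) m = v (last) + cum v (m - 1)`, hence the new difference is
`d' m = (d n - d (n-1)) + d (m-1) = d (m - 1) - d (n - 1)` for `1 ≤ m ≤ n`, and
`d' 0 = 0 = d (n-1) - d (n-1)`, `d' m = d' n` for `m ≥ n`. So all `d' b - d' a` are differences of
two values of `d`. Reversal: `cum (permute Fin.revPerm v) m = ∑ v - cum v (n - m)` for `m ≤ n`, so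
`d' m = - d (n - m)`. The statement about `IsAlc` follows (`IsVert` is clearly invariant).
-/

namespace Pool.Agent.Lib.HyS

private theorem iv_sum {n : ℕ} (σ : Equiv.Perm (Fin n)) (v : Fin n → ℝ) : ∑ i, permute σ v i = ∑ i, v i :=
  Equiv.sum_comp σ.symm v

/-- the property of a permutation that is proved for the dihedral group -/
private def ivP {n : ℕ} (σ : Equiv.Perm (Fin n)) : Prop :=
  ∀ v w : Fin n → ℝ, ∑ i, v i = ∑ i, w i → Sorted v w → Sorted (permute σ v) (permute σ w)

private theorem iv_one {n : ℕ} : ivP (1 : Equiv.Perm (Fin n)) := fun _ _ _ h => h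

private theorem iv_mul {n : ℕ} {σ τ : Equiv.Perm (Fin n)} (hσ : ivP σ) (hτ : ivP τ) : ivP (σ * τ) := by
  intro v w hvw h
  have h1 := hσ (permute τ v) (permute τ w) (by rw [iv_sum, iv_sum, hvw]) (hτ v w hvw h)
  exact h1

private theorem iv_pow {n : ℕ} {σ : Equiv.Perm (Fin n)} (hσ : ivP σ) (k : ℕ) : ivP (σ ^ k) := by
  induction k with
  | zero => rw [pow_zero]; exact iv_one
  | succ k ih => rw [pow_succ]; exact iv_mul ih hσ

private theorem iv_inv {n : ℕ} {σ : Equiv.Perm (Fin n)} (hσ : ivP σ) : ivP σ⁻¹ := by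
  have h : σ⁻¹ = σ ^ (orderOf σ - 1) := by
    rw [inv_eq_iff_mul_eq_one, ← pow_succ', Nat.sub_add_cancel (orderOf_pos σ), pow_orderOf_eq_one]
  rw [h]
  exact iv_pow hσ _

private theorem iv_fin {n : ℕ} {v w v' w' : Fin n → ℝ} (h : Sorted v w) (s : ℝ) (hs : s = 1 ∨ s = -1) (t : ℝ)
    (he : ∀ m, ∃ e, cum v' m - cum w' m = s * (cum v e - cum w e) + t) : Sorted v' w' := by
  intro a b
  obtain ⟨x, hx⟩ := he a
  obtain ⟨y, hy⟩ := he b
  have h1 := h x y
  have h2 : (cum v' b - cum v' a) - (cum w' b - cum w' a) = s * ((cum v y - cum v x) - (cum w y - cum w x)) := by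
    linear_combination hy - hx
  rw [h2, abs_mul]
  rcases hs with rfl | rfl
  · simpa using h1
  · simpa using h1

private theorem iv_rot_cum {n : ℕ} (v : Fin (n + 1) → ℝ) (m : ℕ) (hm : m < n + 1) :
    cum (permute (finRotate (n + 1)) v) (m + 1) = v (Fin.last n) + cum v m := by
  induction m with
  | zero =>
    have h1 := cum_succ (permute (finRotate (n + 1)) v) ⟨0, hm⟩
    have h2 : permute (finRotate (n + 1)) v ⟨0, hm⟩ = v (Fin.last n) := by
      have h3 : (finRotate (n + 1)).symm ⟨0, hm⟩ = Fin.last n := by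
        rw [Equiv.symm_apply_eq, finRotate_last]
        rfl
      unfold permute
      rw [h3]
    rw [h2] at h1
    simp only [Nat.zero_add] at h1 ⊢
    rw [h1, cum_zero, cum_zero]
    ring
  | succ m ih =>
    have h1 := cum_succ (permute (finRotate (n + 1)) v) ⟨m + 1, hm⟩
    have hm' : m < n := Nat.succ_lt_succ_iff.1 hm
    have h2 : permute (finRotate (n + 1)) v ⟨m + 1, hm⟩ = v ⟨m, Nat.lt_succ_of_lt hm'⟩ := by
      unfold permute
      congr 1
      rw [Equiv.symm_apply_eq, finRotate_of_lt hm']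
    have h3 := cum_succ v ⟨m, Nat.lt_succ_of_lt hm'⟩
    rw [h2] at h1
    simp only at h1 h3
    rw [h1, ih (Nat.lt_of_succ_lt hm), h3]
    ring

private theorem iv_rot {n : ℕ} : ivP (finRotate n) := by
  intro v w hvw h
  cases n with
  | zero =>
    intro a b
    have h0 : ∀ (u : Fin 0 → ℝ) (m : ℕ), cum u m = 0 := fun u m => by
      rw [cum_total u m (Nat.zero_le _)]
      simp
    rw [h0, h0, h0, h0]
    simp
  | succ n =>
    refine iv_fin h 1 (Or.inl rfl) (-(cum v n - cum w n)) ?_
    have hl : ∀ u : Fin (n + 1) → ℝ, u (Fin.last n) = ∑ i, u i - cum u n := by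
      intro u
      have h1 := cum_succ u (Fin.last n)
      rw [cum_total u ((Fin.last n).val + 1) (by simp)] at h1
      simp only [Fin.val_last] at h1
      linarith
    intro m
    rcases Nat.eq_zero_or_pos m with rfl | hm
    · exact ⟨n, by rw [cum_zero, cum_zero]; ring⟩
    · obtain ⟨m, rfl⟩ := Nat.exists_eq_succ_of_ne_zero hm.ne'
      rcases Nat.lt_or_ge m (n + 1) with hm' | hm'
      · refine ⟨m, ?_⟩
        show cum _ (m + 1) - cum _ (m + 1) = _
        rw [iv_rot_cum v m hm', iv_rot_cum w m hm', hl v, hl w, hvw]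
        ring
      · refine ⟨n, ?_⟩
        rw [cum_total _ (Nat.succ m) (by omega), cum_total _ (Nat.succ m) (by omega), iv_sum, iv_sum, hvw]
        ring

private theorem iv_rev_cum {n : ℕ} (v : Fin n → ℝ) (m : ℕ) :
    cum (permute Fin.revPerm v) m = ∑ i, v i - cum v (n - m) := by
  induction m with
  | zero => rw [cum_zero, Nat.sub_zero, cum_total v n le_rfl, sub_self]
  | succ m ih =>
    rcases Nat.lt_or_ge m n with hm | hm
    · have h1 := cum_succ (permute Fin.revPerm v) ⟨m, hm⟩
      have h2 := cum_succ v (Fin.rev ⟨m, hm⟩)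
      have h3 : permute Fin.revPerm v ⟨m, hm⟩ = v (Fin.rev ⟨m, hm⟩) := rfl
      have h4 : (Fin.rev (⟨m, hm⟩ : Fin n)).val = n - (m + 1) := by
        simp [Fin.val_rev]
      have h5 : n - (m + 1) + 1 = n - m := by omega
      rw [h4, h5] at h2
      rw [h3] at h1
      simp only at h1
      rw [h1, ih, h2]
      ring
    · rw [cum_total _ (m + 1) (by omega), iv_sum, show n - (m + 1) = 0 by omega, cum_zero, sub_zero]

private theorem iv_rev {n : ℕ} : ivP (Fin.revPerm : Equiv.Perm (Fin n)) := by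
  intro v w hvw h
  refine iv_fin h (-1) (Or.inr rfl) 0 fun m => ⟨n - m, ?_⟩
  rw [iv_rev_cum, iv_rev_cum, hvw]
  ring

theorem sorted_dihedral {n : ℕ} {σ : Equiv.Perm (Fin n)} (hσ : σ ∈ dihedral n)
    {v w : Fin n → ℝ} (hvw : ∑ i, v i = ∑ i, w i) (h : Sorted v w) :
    Sorted (permute σ v) (permute σ w) := by
  have key : ivP σ := by
    unfold dihedral at hσ
    induction hσ using Subgroup.closure_induction with
    | mem x hx =>
      rcases hx with rfl | hx
      · exact iv_rot
      · rw [Set.mem_singleton_iff.1 hx]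
        exact iv_rev
    | one => exact iv_one
    | mul x y _ _ hx hy => exact iv_mul hx hy
    | inv x _ hx => exact iv_inv hx
  exact key v w hvw h

open Classical in
theorem alc_dihedral {k n : ℕ} {σ : Equiv.Perm (Fin n)} (hσ : σ ∈ dihedral n)
    {s : Finset (Fin n → ℝ)} (hs : IsAlc k s) : IsAlc k (s.image (permute σ)) := by
  refine ⟨hs.ne.image _, ?_, ?_⟩
  · intro v hv
    obtain ⟨u, hu, rfl⟩ := Finset.mem_image.1 hv
    exact ⟨fun i => (hs.vert u hu).1 (σ.symm i), by rw [iv_sum]; exact (hs.vert u hu).2⟩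
  · intro v hv w hw
    obtain ⟨u, hu, rfl⟩ := Finset.mem_image.1 hv
    obtain ⟨x, hx, rfl⟩ := Finset.mem_image.1 hw
    exact sorted_dihedral hσ (by rw [(hs.vert u hu).2, (hs.vert x hx).2]) (hs.sorted u hu x hx)

end Pool.Agent.Lib.HyS
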