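import Pool.Agent.Lib.HyS.Bas

/-!
# HyS, row Rep: every point of the hypersimplex is in a sorted simplex

PROOF IN WORDS. Strong induction on the number `N` of the `m ∈ range (n+1)` with
`Int.fract (cum p m) ≠ 0`. `v0 i = ⌊cum p (i+1)⌋ - ⌊cum p i⌋` is a vertex: `0 ≤ p i ≤ 1` and
`cum_succ` give `0` or `1`, and the sum telescopes to `⌊cum p n⌋ = ⌊k⌋ = k`; moreover
`cum v0 m = ⌊cum p m⌋` for all `m` (induction on `m ≤ n`; for `m ≥ n` use `cum_total`).
If `N = 0`, then `p = v0` (`cum_ext`), take `s = {v0}`.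
Otherwise let `M` be the maximum of `Int.fract (cum p m)`, `m ≤ n` (`Finset.exists_max_image`);
`0 < M < 1`. Let `f m = ⌊cum p m⌋ + Int.fract (cum p m) / M` and `p' i = f (i+1) - f i`. Then
`cum p' m = f m` (`f 0 = 0`; `m ≤ n`; for `m ≥ n` both sides are `k`), and
`p = (1 - M) • v0 + M • p'` (`cum_succ`, since `(1-M) ⌊y⌋ + M (⌊y⌋ + fract y / M) = y`). `p'` is in
the hypersimplex: with `y = cum p i`, `y' = cum p (i+1)`, `y ≤ y' ≤ y + 1`: if `⌊y'⌋ = ⌊y⌋` then
`0 ≤ f (i+1) - f i = (fract y' - fract y) / M ≤ 1`; if `⌊y'⌋ = ⌊y⌋ + 1` then `fract y' ≤ fract y`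
and `f (i+1) - f i = 1 - (fract y - fract y') / M ∈ [0, 1]` (numerator `≤ M`). The fractional part
of `cum p' m` is zero whenever that of `cum p m` is `0` or `M`, so the number `N` for `p'` is
smaller. By induction there is `s'` for `p'` with `⌊cum p' m⌋ ≤ cum v m ≤ ⌈cum p' m⌉` for `v ∈ s'`;
`cum p' m ∈ [⌊cum p m⌋, ⌊cum p m⌋ + 1]`, and it equals `⌊cum p m⌋` if `cum p m` is an integer, so
`⌊cum p m⌋ ≤ cum v m ≤ ⌈cum p m⌉ ≤ ⌊cum p m⌋ + 1`, and `cum v m` is an integer (`cum_int`), so
`cum v m - cum v0 m ∈ {0, 1}`: `v0` and `v` are sorted (`sorted_of_step`). So `s = insert v0 s'`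
works; `p` is in its convex hull, being on the segment from `v0` to `p'`
(`Convex` of `convexHull`, monotonicity).
-/

namespace Pool.Agent.Lib.HyS

private theorem cum_dif {n : ℕ} (f : ℕ → ℝ) (h0 : f 0 = 0) (hn : ∀ m, n ≤ m → f m = f n) (m : ℕ) :
    cum (fun i : Fin n => f (i.val + 1) - f i.val) m = f m := by
  have h1 : ∀ m, m ≤ n → cum (fun i : Fin n => f (i.val + 1) - f i.val) m = f m := by
    intro m
    induction m with
    | zero => intro _; rw [cum_zero, h0]
    | succ m ih =>
      intro hm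
      have h2 := cum_succ (fun i : Fin n => f (i.val + 1) - f i.val) ⟨m, hm⟩
      simp only at h2
      rw [h2, ih (by omega)]
      ring
  by_cases hm : m ≤ n
  · exact h1 m hm
  · rw [hn m (by omega), ← h1 n le_rfl, cum_total _ m (by omega), cum_total _ n le_rfl]

private theorem cum_ge {n : ℕ} (p : Fin n → ℝ) (m : ℕ) (hm : n ≤ m) : cum p m = cum p n := by
  rw [cum_total _ m hm, cum_total _ n le_rfl]

/-- the rounded point -/
private noncomputable def fl {n : ℕ} (p : Fin n → ℝ) : Fin n → ℝ :=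
  fun i => (⌊cum p (i.val + 1)⌋ : ℝ) - ⌊cum p i.val⌋

private theorem cum_fl {n : ℕ} (p : Fin n → ℝ) (m : ℕ) : cum (fl p) m = ⌊cum p m⌋ := by
  refine cum_dif (fun m => (⌊cum p m⌋ : ℝ)) ?_ ?_ m
  · simp [cum_zero]
  · intro m hm
    simp only [cum_ge p m hm]

private theorem floor_step {y q : ℝ} (h0 : 0 ≤ q) (h1 : q ≤ 1) : ⌊y + q⌋ = ⌊y⌋ ∨ ⌊y + q⌋ = ⌊y⌋ + 1 := by
  have h2 : ⌊y⌋ ≤ ⌊y + q⌋ := Int.floor_le_floor (by linarith)
  have h3 : ⌊y + q⌋ ≤ ⌊y⌋ + 1 := by
    have h4 : ⌊y + q⌋ ≤ ⌊y + 1⌋ := Int.floor_le_floor (by linarith)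
    rwa [Int.floor_add_one] at h4
  omega

private theorem fl_vert {k n : ℕ} {p : Fin n → ℝ} (hp : p ∈ hypersimplex k n) : IsVert k (fl p) := by
  refine ⟨?_, ?_⟩
  · intro i
    have h1 := cum_succ p i
    have h2 := hp.1 i
    unfold fl
    rw [h1]
    rcases floor_step (y := cum p i.val) h2.1 h2.2 with h | h
    · left
      rw [h, sub_self]
    · right
      rw [h]
      push_cast
      ring
  · rw [← cum_total (fl p) n le_rfl, cum_fl, cum_total p n le_rfl, hp.2]
    simp

private theorem sorted_self {n : ℕ} (v : Fin n → ℝ) : Sorted v v := by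
  intro a b
  simp

/-- the stretched sums -/
private noncomputable def st {n : ℕ} (p : Fin n → ℝ) (M : ℝ) (m : ℕ) : ℝ :=
  (⌊cum p m⌋ : ℝ) + Int.fract (cum p m) / M

private theorem st_ge {n : ℕ} (p : Fin n → ℝ) (M : ℝ) (m : ℕ) (hm : n ≤ m) : st p M m = st p M n := by
  unfold st
  rw [cum_ge p m hm]

private theorem st_zero {n : ℕ} (p : Fin n → ℝ) (M : ℝ) : st p M 0 = 0 := by
  unfold st
  simp [cum_zero]

private theorem cum_st {n : ℕ} (p : Fin n → ℝ) (M : ℝ) (m : ℕ) :
    cum (fun i : Fin n => st p M (i.val + 1) - st p M i.val) m = st p M m :=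
  cum_dif (st p M) (st_zero p M) (fun m hm => st_ge p M m hm) m

private theorem st_mem {k n : ℕ} {p : Fin n → ℝ} (hp : p ∈ hypersimplex k n) {M : ℝ} (hM : 0 < M)
    (hmax : ∀ m, Int.fract (cum p m) ≤ M) :
    (fun i : Fin n => st p M (i.val + 1) - st p M i.val) ∈ hypersimplex k n := by
  refine ⟨?_, ?_⟩
  · intro i
    have h1 := cum_succ p i
    have h2 := hp.1 i
    have hm1 := hmax i.val
    have hm2 := hmax (i.val + 1)
    have hf1 := Int.fract_nonneg (cum p i.val)
    have hf2 := Int.fract_nonneg (cum p (i.val + 1))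
    have e1 := Int.floor_add_fract (cum p i.val)
    have e2 := Int.floor_add_fract (cum p (i.val + 1))
    have key : ∃ u : ℝ, Int.fract (cum p (i.val + 1)) - Int.fract (cum p i.val) = u ∧ -M ≤ u ∧ u ≤ M :=
      ⟨_, rfl, by linarith, by linarith⟩
    obtain ⟨u, hu, hu1, hu2⟩ := key
    have e3 : st p M (i.val + 1) - st p M i.val =
        ((⌊cum p (i.val + 1)⌋ : ℝ) - ⌊cum p i.val⌋) + u / M := by
      unfold st
      rw [← hu]
      ring
    beta_reduce
    rw [e3]
    have hdiv1 : u / M ≤ 1 := by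
      rw [div_le_one hM]
      exact hu2
    have hdiv2 : -1 ≤ u / M := by
      rw [le_div_iff₀ hM]
      linarith
    rcases floor_step (y := cum p i.val) h2.1 h2.2 with h | h
    · rw [← h1] at h
      have e4 : 0 ≤ u := by
        rw [h] at e2
        linarith
      have e5 : 0 ≤ u / M := div_nonneg e4 hM.le
      rw [h]
      constructor <;> linarith
    · rw [← h1] at h
      have hc : ((⌊cum p (i.val + 1)⌋ : ℤ) : ℝ) = (⌊cum p i.val⌋ : ℝ) + 1 := by
        rw [h]
        push_cast
        ring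
      have e4 : u ≤ 0 := by
        rw [hc] at e2
        linarith
      have e5 : u / M ≤ 0 := div_nonpos_of_nonpos_of_nonneg e4 hM.le
      rw [hc]
      constructor <;> linarith
  · rw [← cum_total _ n le_rfl, cum_st]
    unfold st
    rw [cum_total p n le_rfl, hp.2]
    simp

private theorem comb {n : ℕ} (p : Fin n → ℝ) {M : ℝ} (hM : 0 < M) :
    (1 - M) • fl p + M • (fun i : Fin n => st p M (i.val + 1) - st p M i.val) = p := by
  funext i
  have h1 := cum_succ p i
  have e1 := Int.floor_add_fract (cum p i.val)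
  have e2 := Int.floor_add_fract (cum p (i.val + 1))
  simp only [Pi.add_apply, Pi.smul_apply, smul_eq_mul, fl, st]
  have e3 : M * (Int.fract (cum p (i.val + 1)) / M) = Int.fract (cum p (i.val + 1)) := by
    field_simp
  have e4 : M * (Int.fract (cum p i.val) / M) = Int.fract (cum p i.val) := by
    field_simp
  linear_combination e3 - e4 + e2 - e1 + h1

private theorem st_fract {n : ℕ} (p : Fin n → ℝ) {M : ℝ} (hM : 0 < M) (m : ℕ)
    (h : Int.fract (st p M m) ≠ 0) : Int.fract (cum p m) ≠ 0 ∧ Int.fract (cum p m) ≠ M := by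
  constructor
  · intro h1
    apply h
    unfold st
    rw [h1, zero_div, add_zero, Int.fract_intCast]
  · intro h1
    apply h
    unfold st
    rw [h1, div_self hM.ne', ← Int.cast_one, ← Int.cast_add, Int.fract_intCast]

private theorem st_bounds {n : ℕ} (p : Fin n → ℝ) {M : ℝ} (hM : 0 < M)
    (hmax : ∀ m, Int.fract (cum p m) ≤ M) (m : ℕ) :
    ⌊cum p m⌋ ≤ ⌊st p M m⌋ ∧ ⌈st p M m⌉ ≤ ⌈cum p m⌉ := by
  have hf := Int.fract_nonneg (cum p m)
  have h0 : 0 ≤ Int.fract (cum p m) / M := div_nonneg hf hM.le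
  have h1 : Int.fract (cum p m) / M ≤ 1 := by
    rw [div_le_one hM]
    exact hmax m
  constructor
  · rw [Int.le_floor]
    unfold st
    linarith
  · rw [Int.ceil_le]
    unfold st
    by_cases h2 : Int.fract (cum p m) = 0
    · rw [h2, zero_div, add_zero]
      exact_mod_cast Int.floor_le_ceil (cum p m)
    · have h3 : 0 < Int.fract (cum p m) := lt_of_le_of_ne hf (Ne.symm h2)
      have h4 : (⌊cum p m⌋ : ℝ) < cum p m := by
        have := Int.floor_add_fract (cum p m)
        linarith
      have h5 : ⌊cum p m⌋ < ⌈cum p m⌉ := by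
        rw [Int.lt_ceil]
        exact h4
      have h6 : ((⌊cum p m⌋ + 1 : ℤ) : ℝ) ≤ (⌈cum p m⌉ : ℝ) := by
        exact_mod_cast h5
      push_cast at h6
      linarith

/-- the number of sums which are no integers -/
private noncomputable def cnt {n : ℕ} (p : Fin n → ℝ) : ℕ :=
  ((Finset.range (n + 1)).filter fun m => Int.fract (cum p m) ≠ 0).card

theorem alc_rep_strong {k n : ℕ} (p : Fin n → ℝ) (hp : p ∈ hypersimplex k n) :
    ∃ s : Finset (Fin n → ℝ), IsAlc k s ∧ p ∈ convexHull ℝ (s : Set (Fin n → ℝ)) ∧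
      ∀ v ∈ s, ∀ m, (⌊cum p m⌋ : ℝ) ≤ cum v m ∧ cum v m ≤ (⌈cum p m⌉ : ℝ) := by
  classical
  induction hN : cnt p using Nat.strong_induction_on generalizing p with
  | _ N ih =>
    by_cases hz : ∀ m ∈ Finset.range (n + 1), Int.fract (cum p m) = 0
    · have hz1 : ∀ m, (⌊cum p m⌋ : ℝ) = cum p m := by
        intro m
        have h1 : Int.fract (cum p m) = 0 := by
          by_cases hm : m ≤ n
          · exact hz m (Finset.mem_range.mpr (by omega))
          · rw [cum_ge p m (by omega)]
            exact hz n (Finset.mem_range.mpr (by omega))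
        have h2 := Int.floor_add_fract (cum p m)
        rw [h1, add_zero] at h2
        exact h2
      have hfl : fl p = p := cum_ext fun m => by rw [cum_fl, hz1]
      refine ⟨{p}, ⟨⟨p, by simp⟩, ?_, ?_⟩, ?_, ?_⟩
      · intro v hv
        rw [Finset.mem_singleton] at hv
        rw [hv, ← hfl]
        exact fl_vert hp
      · intro v hv w hw
        rw [Finset.mem_singleton] at hv hw
        rw [hv, hw]
        exact sorted_self p
      · simp
      · intro v hv m
        rw [Finset.mem_singleton] at hv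
        rw [hv]
        exact ⟨Int.floor_le _, Int.le_ceil _⟩
    · push Not at hz
      obtain ⟨m1, hm1, hm1'⟩ := hz
      have hne : ((Finset.range (n + 1)).filter fun m => Int.fract (cum p m) ≠ 0).Nonempty :=
        ⟨m1, Finset.mem_filter.mpr ⟨hm1, hm1'⟩⟩
      obtain ⟨m0, hm0, hmx⟩ := Finset.exists_max_image _ (fun m => Int.fract (cum p m)) hne
      set M := Int.fract (cum p m0) with hMdef
      have hm0' := Finset.mem_filter.mp hm0
      have hM0 : 0 < M := lt_of_le_of_ne (Int.fract_nonneg _) (Ne.symm hm0'.2)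
      have hM1 : M < 1 := Int.fract_lt_one _
      have hmax1 : ∀ m ∈ Finset.range (n + 1), Int.fract (cum p m) ≤ M := by
        intro m hm
        by_cases h1 : Int.fract (cum p m) = 0
        · rw [h1]
          exact hM0.le
        · exact hmx m (Finset.mem_filter.mpr ⟨hm, h1⟩)
      have hmax : ∀ m, Int.fract (cum p m) ≤ M := by
        intro m
        by_cases hm : m ≤ n
        · exact hmax1 m (Finset.mem_range.mpr (by omega))
        · rw [cum_ge p m (by omega)]
          exact hmax1 n (Finset.mem_range.mpr (by omega))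
      set p' : Fin n → ℝ := fun i : Fin n => st p M (i.val + 1) - st p M i.val with hp'
      have hcum : ∀ m, cum p' m = st p M m := fun m => cum_st p M m
      have hmem : p' ∈ hypersimplex k n := st_mem hp hM0 hmax
      have hlt : cnt p' < N := by
        rw [← hN]
        unfold cnt
        apply Finset.card_lt_card
        rw [Finset.ssubset_iff_of_subset]
        · refine ⟨m0, hm0, ?_⟩
          intro h1
          have h2 := (Finset.mem_filter.mp h1).2
          rw [hcum] at h2
          exact (st_fract p hM0 m0 h2).2 hMdef.symm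
        · intro m hm
          have h1 := Finset.mem_filter.mp hm
          have h2 := h1.2
          rw [hcum] at h2
          exact Finset.mem_filter.mpr ⟨h1.1, (st_fract p hM0 m h2).1⟩
      obtain ⟨s', hs', hconv, hbd⟩ := ih (cnt p') hlt p' hmem rfl
      have hbd' : ∀ v ∈ s', ∀ m, (⌊cum p m⌋ : ℝ) ≤ cum v m ∧ cum v m ≤ (⌈cum p m⌉ : ℝ) := by
        intro v hv m
        obtain ⟨h1, h2⟩ := hbd v hv m
        rw [hcum] at h1 h2
        obtain ⟨h3, h4⟩ := st_bounds p hM0 hmax m
        have h3' : (⌊cum p m⌋ : ℝ) ≤ (⌊st p M m⌋ : ℝ) := by exact_mod_cast h3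
        have h4' : (⌈st p M m⌉ : ℝ) ≤ (⌈cum p m⌉ : ℝ) := by exact_mod_cast h4
        exact ⟨h3'.trans h1, h2.trans h4'⟩
      have hsort : ∀ v ∈ s', Sorted (fl p) v := by
        intro v hv
        apply sorted_of_step
        intro m
        obtain ⟨h1, h2⟩ := hbd' v hv m
        obtain ⟨z, hz⟩ := cum_int (hs'.vert v hv) m
        rw [cum_fl]
        rw [hz] at h1 h2 ⊢
        have h3 : ⌊cum p m⌋ ≤ z := by exact_mod_cast h1
        have h4 : z ≤ ⌈cum p m⌉ := by exact_mod_cast h2
        have h5 : ⌈cum p m⌉ ≤ ⌊cum p m⌋ + 1 := Int.ceil_le_floor_add_one _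
        have h6 : z = ⌊cum p m⌋ ∨ z = ⌊cum p m⌋ + 1 := by omega
        rcases h6 with h6 | h6
        · left
          rw [h6]
        · right
          rw [h6]
          push_cast
          ring
      refine ⟨insert (fl p) s', ⟨⟨fl p, Finset.mem_insert_self _ _⟩, ?_, ?_⟩, ?_, ?_⟩
      · intro v hv
        rcases Finset.mem_insert.mp hv with h1 | h1
        · rw [h1]
          exact fl_vert hp
        · exact hs'.vert v h1
      · intro v hv w hw
        rcases Finset.mem_insert.mp hv with h1 | h1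
        · rcases Finset.mem_insert.mp hw with h2 | h2
          · rw [h1, h2]
            exact sorted_self _
          · rw [h1]
            exact hsort w h2
        · rcases Finset.mem_insert.mp hw with h2 | h2
          · rw [h2]
            exact (hsort v h1).symm
          · exact hs'.sorted v h1 w h2
      · have h1 : fl p ∈ convexHull ℝ ((insert (fl p) s' : Finset (Fin n → ℝ)) : Set (Fin n → ℝ)) :=
          subset_convexHull ℝ _ (by simp)
        have h2 : p' ∈ convexHull ℝ ((insert (fl p) s' : Finset (Fin n → ℝ)) : Set (Fin n → ℝ)) :=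
          convexHull_mono (by simp) hconv
        have h3 := (convex_convexHull ℝ _) h1 h2 (show 0 ≤ 1 - M by linarith) hM0.le (by ring)
        rwa [hp', comb p hM0] at h3
      · intro v hv m
        rcases Finset.mem_insert.mp hv with h1 | h1
        · rw [h1, cum_fl]
          exact ⟨le_rfl, by exact_mod_cast Int.floor_le_ceil (cum p m)⟩
        · exact hbd' v h1 m

end Pool.Agent.Lib.HyS
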