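import Pool.Agent.Lib.HyS.Unq
import Pool.Agent.Lib.HyS.Rep
import Pool.Agent.Lib.HyS.Inv

/-!
# HyS, row Alc: the alcoved triangulation is a lattice triangulation invariant under the dihedral
group

PROOF IN WORDS. `K.faces = {s | IsAlc k s}`: nonempty and down closed (a nonempty subset of an
`IsAlc` set is `IsAlc`; field `isRelLowerSet_faces`), `indep = alc_indep`. `inter`: let
`p ∈ convexHull s ∩ convexHull t`. By `Finset.mem_convexHull'` there are nonnegative weights; the
supports `s' ⊆ s` and `t' ⊆ t` (where the weights are positive) are nonempty, so `IsAlc`, and by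
`alc_unique` `s' = t' ⊆ s ∩ t`, so `p ∈ convexHull (s ∩ t)`. Space: `⊆`: the vertices lie in the
hypersimplex, which is convex (`convexHull_min`); `⊇`: `alc_rep_strong`. Vertices: `IsVert` gives
integral coordinates. Invariance: `alc_dihedral` with `t = s.image (permute σ)`
(`Finset.coe_image`).
-/

namespace Pool.Agent.Lib.HyS

private lemma isAlc_mono {k n : ℕ} {s t : Finset (Fin n → ℝ)} (hs : IsAlc k s) (hts : t ⊆ s) (ht : t.Nonempty) :
    IsAlc k t :=
  ⟨ht, fun v hv => hs.vert v (hts hv), fun v hv w hw => hs.sorted v (hts hv) w (hts hw)⟩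

/-- A point of the convex hull of a finite set is a positive combination of the elements of a
nonempty subset. -/
private lemma supp {n : ℕ} {s : Finset (Fin n → ℝ)} {p : Fin n → ℝ}
    (hp : p ∈ convexHull ℝ (s : Set (Fin n → ℝ))) :
    ∃ s' : Finset (Fin n → ℝ), s' ⊆ s ∧ s'.Nonempty ∧ ∃ w : (Fin n → ℝ) → ℝ,
      (∀ v ∈ s', 0 < w v) ∧ ∑ v ∈ s', w v = 1 ∧ ∑ v ∈ s', w v • v = p := by
  classical
  obtain ⟨w, h0, h1, h2⟩ := Finset.mem_convexHull'.1 hp
  have h3 : ∑ v ∈ s.filter (fun v => w v ≠ 0), w v = 1 := by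
    rw [Finset.sum_filter_ne_zero]; exact h1
  have h4 : ∑ v ∈ s.filter (fun v => w v ≠ 0), w v • v = p := by
    rw [Finset.sum_filter_of_ne]
    · exact h2
    · intro v _ hv hw
      exact hv (by rw [hw, zero_smul])
  refine ⟨s.filter (fun v => w v ≠ 0), Finset.filter_subset _ _, ?_, w, ?_, h3, h4⟩
  · by_contra hne
    rw [Finset.not_nonempty_iff_eq_empty] at hne
    rw [hne, Finset.sum_empty] at h3
    exact zero_ne_one h3
  · intro v hv
    rw [Finset.mem_filter] at hv
    exact lt_of_le_of_ne (h0 v hv.1) (Ne.symm hv.2)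

private lemma convex_hypersimplex (k n : ℕ) : Convex ℝ (hypersimplex k n) := by
  intro x hx y hy a b ha hb hab
  refine ⟨fun i => ?_, ?_⟩
  · have h1 := hx.1 i
    have h2 := hy.1 i
    simp only [Pi.add_apply, Pi.smul_apply, smul_eq_mul]
    constructor
    · exact add_nonneg (mul_nonneg ha h1.1) (mul_nonneg hb h2.1)
    · nlinarith [mul_le_mul_of_nonneg_left h1.2 ha, mul_le_mul_of_nonneg_left h2.2 hb]
  · simp only [Pi.add_apply, Pi.smul_apply, smul_eq_mul, Finset.sum_add_distrib, ← Finset.mul_sum]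
    rw [hx.2, hy.2, ← add_mul, hab, one_mul]

private lemma vert_mem {k n : ℕ} {v : Fin n → ℝ} (hv : IsVert k v) : v ∈ hypersimplex k n := by
  refine ⟨fun i => ?_, hv.2⟩
  rcases hv.1 i with h | h <;> rw [h] <;> norm_num

theorem alcoved_exists (k n : ℕ) :
    ∃ T : LatticeTriangulation k n, Invariant (dihedral n) T := by
  let K : Geometry.SimplicialComplex ℝ (Fin n → ℝ) :=
    { faces := {s | IsAlc k s}
      isRelLowerSet_faces := fun s hs => ⟨hs.ne, fun t hts ht => isAlc_mono hs hts ht⟩
      indep := fun hs => alc_indep hs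
      inter_subset_convexHull := by
        intro s t hs ht p hp
        obtain ⟨s', hs', hne, w, hw, hw1, hwp⟩ := supp hp.1
        obtain ⟨t', ht', hne', w', hw', hw1', hwp'⟩ := supp hp.2
        have heq : s' = t' := alc_unique (isAlc_mono hs hs' hne) (isAlc_mono ht ht' hne') w hw hw1 w' hw' hw1' hwp hwp'
        have hp' : p ∈ convexHull ℝ (s' : Set (Fin n → ℝ)) :=
          Finset.mem_convexHull'.2 ⟨w, fun v hv => (hw v hv).le, hw1, hwp⟩
        refine convexHull_mono ?_ hp'
        intro v hv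
        have hv' : v ∈ s' := Finset.mem_coe.1 hv
        exact ⟨Finset.mem_coe.2 (hs' hv'), Finset.mem_coe.2 (ht' (heq ▸ hv'))⟩ }
  have hf : ∀ s, s ∈ K.faces ↔ IsAlc k s := fun s => Iff.rfl
  refine ⟨⟨K, ?_, ?_⟩, ?_⟩
  · ext p
    rw [Geometry.SimplicialComplex.mem_space_iff]
    constructor
    · rintro ⟨s, hs, hp⟩
      refine convexHull_min ?_ (convex_hypersimplex k n) hp
      intro v hv
      exact vert_mem (((hf s).1 hs).vert v (Finset.mem_coe.1 hv))
    · intro hp
      obtain ⟨s, hs, hps, -⟩ := alc_rep_strong p hp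
      exact ⟨s, hs, hps⟩
  · intro v hv i
    rcases (((hf _).1 (Geometry.SimplicialComplex.mem_vertices.1 hv)).vert v (Finset.mem_singleton_self v)).1 i with h | h
    · exact ⟨0, by rw [h]; norm_num⟩
    · exact ⟨1, by rw [h]; norm_num⟩
  · intro σ hσ s hs
    exact ⟨_, alc_dihedral hσ ((hf s).1 hs), Finset.coe_image⟩

end Pool.Agent.Lib.HyS
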