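import Pool.Agent.Lib.HyS.Defs

/-!
# HyS, row Conj: conjugate groups

PROOF IN WORDS. Let `c = permute ρ⁻¹` (a linear equivalence of `Fin n → ℝ`, inverse `permute ρ`:
`LinearEquiv.funCongrLeft ℝ ℝ ρ` or `ρ.symm`, unfold). The new complex has the faces
`{t | ∃ s ∈ T.K.faces, (t : Set _) = c '' s}`, or equivalently `{t | t.image (permute ρ) ∈ T.K.faces}`
(take whichever is more convenient, classical decidability). It is a simplicial complex: nonempty
and down closed because the image preserves inclusion and nonemptiness; `indep`: injective linear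
maps preserve affine independence (`AffineIndependent.map'` or `AffineEquiv.affineIndependent_iff`);
`inter`: `convexHull (c '' s) = c '' convexHull s` (`LinearMap.image_convexHull` or
`LinearMap.convexHull_image`), `Set.image_inter` (injective). Its space is
`c '' hypersimplex k n = hypersimplex k n`, its vertices are integral. For `σ ∈ G`:
`permute σ (permute ρ⁻¹ x) = permute ρ⁻¹ (permute (ρ * σ * ρ⁻¹) x)`
(`permute a (permute b x) = permute (a * b) x` by unfolding), and `ρ * σ * ρ⁻¹ ∈ H` maps faces of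
`T` to faces of `T`.
-/

namespace Pool.Agent.Lib.HyS

/-- the permutation of coordinates as a linear equivalence -/
private noncomputable def pe {n : ℕ} (ρ : Equiv.Perm (Fin n)) : (Fin n → ℝ) ≃ₗ[ℝ] (Fin n → ℝ) :=
  LinearEquiv.funCongrLeft ℝ ℝ ρ.symm

private theorem pe_apply {n : ℕ} (ρ : Equiv.Perm (Fin n)) (x : Fin n → ℝ) : pe ρ x = permute ρ x := rfl

private theorem permute_mul {n : ℕ} (a b : Equiv.Perm (Fin n)) (x : Fin n → ℝ) :
    permute a (permute b x) = permute (a * b) x := rfl

private theorem hull_iff {n : ℕ} (ρ : Equiv.Perm (Fin n)) (s : Set (Fin n → ℝ)) (x : Fin n → ℝ) :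
    pe ρ x ∈ convexHull ℝ (pe ρ '' s) ↔ x ∈ convexHull ℝ s := by
  have h : convexHull ℝ (pe ρ '' s) = pe ρ '' convexHull ℝ s :=
    ((pe ρ).toLinearMap.image_convexHull s).symm
  rw [h]
  exact (pe ρ).injective.mem_set_image

private theorem hyper_iff {n : ℕ} (k : ℕ) (ρ : Equiv.Perm (Fin n)) (x : Fin n → ℝ) :
    permute ρ x ∈ hypersimplex k n ↔ x ∈ hypersimplex k n := by
  have h1 : ∑ i, permute ρ x i = ∑ i, x i := Equiv.sum_comp ρ.symm x
  constructor
  · rintro ⟨h2, h3⟩
    refine ⟨fun i => ?_, by rw [← h1, h3]⟩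
    have := h2 (ρ i)
    simpa [permute] using this
  · rintro ⟨h2, h3⟩
    exact ⟨fun i => h2 (ρ.symm i), by rw [h1, h3]⟩

open Classical in
/-- the transported complex -/
private noncomputable def cx {n : ℕ} (K : Geometry.SimplicialComplex ℝ (Fin n → ℝ)) (ρ : Equiv.Perm (Fin n)) :
    Geometry.SimplicialComplex ℝ (Fin n → ℝ) where
  faces := {t | t.image (pe ρ) ∈ K.faces}
  isRelLowerSet_faces := by
    intro a ha
    refine ⟨?_, fun b hb hb' => ?_⟩
    · have := (K.isRelLowerSet_faces ha).1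
      exact Finset.image_nonempty.1 this
    · exact (K.isRelLowerSet_faces ha).2 (Finset.image_subset_image hb) (hb'.image _)
  indep := by
    intro s hs
    have h1 := K.indep hs
    let f : s ↪ (s.image (pe ρ) : Finset (Fin n → ℝ)) :=
      ⟨fun x => ⟨pe ρ x, Finset.mem_image_of_mem _ x.2⟩, fun x y hxy => Subtype.ext ((pe ρ).injective (congrArg Subtype.val hxy))⟩
    have h2 := h1.comp_embedding f
    exact ((pe ρ).toAffineEquiv.affineIndependent_iff (p := ((↑) : s → Fin n → ℝ))).1 h2
  inter_subset_convexHull := by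
    intro s t hs ht x hx
    have h1 := K.inter_subset_convexHull hs ht
    have h2 : pe ρ x ∈ convexHull ℝ (((s.image (pe ρ) : Finset (Fin n → ℝ)) : Set (Fin n → ℝ))) ∩
        convexHull ℝ (((t.image (pe ρ) : Finset (Fin n → ℝ)) : Set (Fin n → ℝ))) := by
      rw [Finset.coe_image, Finset.coe_image]
      exact ⟨(hull_iff ρ _ x).2 hx.1, (hull_iff ρ _ x).2 hx.2⟩
    have h3 := h1 h2
    rw [Finset.coe_image, Finset.coe_image, ← Set.image_inter (pe ρ).injective] at h3
    exact (hull_iff ρ _ x).1 h3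

theorem exists_conj {k n : ℕ} (T : LatticeTriangulation k n)
    {G H : Subgroup (Equiv.Perm (Fin n))} (hT : Invariant H T) (ρ : Equiv.Perm (Fin n))
    (hG : ∀ σ ∈ G, ρ * σ * ρ⁻¹ ∈ H) :
    ∃ T' : LatticeTriangulation k n, Invariant G T' := by
  classical
  have hfc : ∀ t : Finset (Fin n → ℝ), t ∈ (cx T.K ρ).faces ↔ t.image (pe ρ) ∈ T.K.faces := by
    intro t
    show t.image (pe ρ) ∈ T.K.faces ↔ _
    rw [iff_iff_eq]
  have hsp : (cx T.K ρ).space = hypersimplex k n := by
    ext x
    rw [← hyper_iff k ρ x, ← T.space_eq, Geometry.SimplicialComplex.mem_space_iff, Geometry.SimplicialComplex.mem_space_iff]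
    constructor
    · rintro ⟨s, hs, hx⟩
      refine ⟨s.image (pe ρ), (hfc s).1 hs, ?_⟩
      rw [Finset.coe_image]
      exact (hull_iff ρ _ x).2 hx
    · rintro ⟨s, hs, hx⟩
      have h1 : (s.image (pe ρ).symm).image (pe ρ) = s := by
        rw [Finset.image_image]
        ext y
        simp
      refine ⟨s.image (pe ρ).symm, (hfc _).2 (by rw [h1]; exact hs), ?_⟩
      rw [← hull_iff ρ, ← Finset.coe_image, h1]
      exact hx
  refine ⟨⟨cx T.K ρ, hsp, ?_⟩, ?_⟩
  · intro v hv i
    have h1 : ({v} : Finset (Fin n → ℝ)) ∈ (cx T.K ρ).faces := hv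
    rw [hfc, Finset.image_singleton] at h1
    obtain ⟨m, hm⟩ := T.lattice (pe ρ v) h1 (ρ i)
    refine ⟨m, ?_⟩
    rw [← hm]
    simp [pe_apply, permute]
  · intro σ hσ s hs
    obtain ⟨t, ht, hts⟩ := hT (ρ * σ * ρ⁻¹) (hG σ hσ) _ ((hfc s).1 hs)
    have h1 : (t.image (pe ρ).symm).image (pe ρ) = t := by
      rw [Finset.image_image]
      ext y
      simp
    refine ⟨t.image (pe ρ).symm, (hfc _).2 (by rw [h1]; exact ht), ?_⟩
    rw [Finset.coe_image, hts, Finset.coe_image, Set.image_image, Set.image_image]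
    refine Set.image_congr fun x _ => ?_
    rw [LinearEquiv.symm_apply_eq, pe_apply, pe_apply, permute_mul, permute_mul]
    congr 1
    group

end Pool.Agent.Lib.HyS
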