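import Pool.Agent.Lib.HyS.Defs

/-!
# HyS, row CarA: carriers exist

PROOF IN WORDS. `p` lies in `T.K.space` (`T.space_eq`), so there is a face `s` with `p` in
`convexHull s`; by `Finset.mem_convexHull'` (or `Finset.mem_convexHull`) there are weights
`w v ≥ 0` (`v ∈ s`) with sum `1` and `∑ w v • v = p`. Let `t = {v ∈ s | 0 < w v}`; it is not empty
(the weights have sum one), so `t ∈ T.K.faces` (`T.K.down_closed`), and
`p = ∑ v ∈ t, w v • v`. Every `v ∈ t` is a vertex of `T.K` (`Geometry.SimplicialComplex.vertices_eq`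
or `down_closed` with `{v}`), so its coordinates are integers (`T.lattice`), and `v` lies in the
space, which is the hypersimplex (`vertices_subset_space`, `T.space_eq`), so all coordinates are in
`[0,1]`, hence `0` or `1`, with sum `k`. So `v = ind (I v)` with `I v = {i | v i = 1}` and
`(I v).card = k` (cast the sum). `F = t.image I`, the weight of `J ∈ F` is `w (ind J)`; `I` is
injective on `t` because `ind (I v) = v`.
-/

namespace Pool.Agent.Lib.HyS

private theorem vert_ind {k n : ℕ} (T : LatticeTriangulation k n) {t : Finset (Fin n → ℝ)}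
    (ht : t ∈ T.K.faces) (v : Fin n → ℝ) (hv : v ∈ t) :
    ∃ I : Finset (Fin n), I.card = k ∧ ind I = v := by
  classical
  have hvK : v ∈ T.K.vertices := by
    show {v} ∈ T.K.faces
    exact T.K.down_closed ht (Finset.singleton_subset_iff.2 hv) (Finset.singleton_nonempty v)
  have hvH : v ∈ hypersimplex k n := by
    rw [← T.space_eq]
    exact T.K.subset_space ht hv
  obtain ⟨h01, hsum⟩ := hvH
  have hv01 : ∀ i, v i = 0 ∨ v i = 1 := by
    intro i
    obtain ⟨m, hm⟩ := T.lattice v hvK i
    obtain ⟨h0, h1⟩ := h01 i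
    rw [hm] at h0 h1 ⊢
    have h0' : 0 ≤ m := by exact_mod_cast h0
    have h1' : m ≤ 1 := by exact_mod_cast h1
    rcases (by omega : m = 0 ∨ m = 1) with h | h
    · left; rw [h]; simp
    · right; rw [h]; simp
  have hind : ind (Finset.univ.filter (fun i => v i = 1)) = v := by
    funext i
    unfold ind
    rcases hv01 i with h | h
    · rw [if_neg]
      · exact h.symm
      · intro hm
        have := (Finset.mem_filter.1 hm).2
        rw [h] at this
        norm_num at this
    · rw [if_pos]
      · exact h.symm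
      · exact Finset.mem_filter.2 ⟨Finset.mem_univ i, h⟩
  refine ⟨Finset.univ.filter (fun i => v i = 1), ?_, hind⟩
  have h2 : ((Finset.univ.filter (fun i => v i = 1)).card : ℝ) = k := by
    rw [← hsum]
    conv_rhs => rw [← hind]
    unfold ind
    rw [Finset.sum_ite_mem, Finset.univ_inter]
    simp
  exact_mod_cast h2

theorem car_exists {k n : ℕ} (T : LatticeTriangulation k n) {p : Fin n → ℝ}
    (hp : p ∈ hypersimplex k n) : ∃ F : Finset (Finset (Fin n)), IsCarrier T F p := by
  classical
  rw [← T.space_eq, Geometry.SimplicialComplex.mem_space_iff] at hp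
  obtain ⟨s, hs, hps⟩ := hp
  rw [Finset.mem_convexHull'] at hps
  obtain ⟨w, hw0, hw1, hwp⟩ := hps
  obtain ⟨t, ht⟩ : ∃ t : Finset (Fin n → ℝ), t = s.filter (fun v => 0 < w v) := ⟨_, rfl⟩
  have hts : t ⊆ s := by rw [ht]; exact Finset.filter_subset _ _
  have hz : ∀ v ∈ s, v ∉ t → w v = 0 := by
    intro v hv hvt
    have : ¬ 0 < w v := fun h => hvt (by rw [ht]; exact Finset.mem_filter.2 ⟨hv, h⟩)
    exact le_antisymm (not_lt.1 this) (hw0 v hv)
  have hwt1 : ∑ v ∈ t, w v = 1 := by
    rw [← hw1]
    exact Finset.sum_subset hts (fun v hv hvt => hz v hv hvt)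
  have hwtp : ∑ v ∈ t, w v • v = p := by
    rw [← hwp]
    exact Finset.sum_subset hts (fun v hv hvt => by rw [hz v hv hvt, zero_smul])
  have htne : t.Nonempty := by
    rw [Finset.nonempty_iff_ne_empty]
    intro h
    rw [h] at hwt1
    simp at hwt1
  have htf : t ∈ T.K.faces := T.K.down_closed hs hts htne
  have hpos : ∀ v ∈ t, 0 < w v := by
    intro v hv
    rw [ht] at hv
    exact (Finset.mem_filter.1 hv).2
  choose! I hIk hIv using vert_ind T htf
  have hinj : Set.InjOn I (t : Set (Fin n → ℝ)) := by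
    intro v hv v' hv' h
    rw [← hIv v hv, ← hIv v' hv', h]
  refine ⟨t.image I, ?_, ⟨t, htf, ?_⟩, fun J => w (ind J), ?_, ?_, ?_⟩
  · intro J hJ
    obtain ⟨v, hv, rfl⟩ := Finset.mem_image.1 hJ
    exact hIk v hv
  · ext v
    rw [Finset.coe_image, Set.image_image]
    constructor
    · intro hv
      exact ⟨v, hv, hIv v hv⟩
    · rintro ⟨u, hu, rfl⟩
      show ind (I u) ∈ (t : Set (Fin n → ℝ))
      rw [hIv u hu]
      exact hu
  · intro J hJ
    obtain ⟨v, hv, rfl⟩ := Finset.mem_image.1 hJ
    show 0 < w (ind (I v))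
    rw [hIv v hv]
    exact hpos v hv
  · rw [Finset.sum_image hinj, ← hwt1]
    exact Finset.sum_congr rfl (fun v hv => by rw [hIv v hv])
  · rw [Finset.sum_image hinj, ← hwtp]
    refine Finset.sum_congr rfl (fun v hv => ?_)
    show w (ind (I v)) • ind (I v) = w v • v
    rw [hIv v hv]

end Pool.Agent.Lib.HyS
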