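import Pool.Agent.Lib.HyS.CarB

/-!
# HyS, row CarC: the carrier of a fixed point is invariant

PROOF IN WORDS. Let `F' = F.image (fun I => I.map σ.toEmbedding)`. `permute σ (ind I) =
ind (I.map σ.toEmbedding)` (`i ∈ I.map σ ↔ σ.symm i ∈ I`: `Finset.mem_map_equiv`). So
`ind '' F' = permute σ '' (ind '' F)`, which is a face by `Invariant`. With the weights
`w' J = w (J.map σ.symm.toEmbedding)` one has `∑ J ∈ F', w' J • ind J = permute σ (∑ w I • ind I)
= permute σ p = p` (`Finset.sum_image`, injectivity of `map`). So `F'` is a carrier of `p`, and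
`car_unique` gives `F' = F`.
-/

namespace Pool.Agent.Lib.HyS

theorem permute_ind {n : ℕ} (σ : Equiv.Perm (Fin n)) (I : Finset (Fin n)) :
    permute σ (ind I) = ind (I.map σ.toEmbedding) := by
  funext i
  show (if σ.symm i ∈ I then (1 : ℝ) else 0) = if i ∈ I.map σ.toEmbedding then 1 else 0
  simp only [Finset.mem_map_equiv]

private theorem carc_back {n : ℕ} (σ : Equiv.Perm (Fin n)) (I : Finset (Fin n)) :
    (I.map σ.toEmbedding).map σ.symm.toEmbedding = I := by
  ext i
  simp only [Finset.mem_map_equiv, Equiv.symm_symm, Equiv.symm_apply_apply]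

theorem car_inv {k n : ℕ} (hk : 0 < k) (T : LatticeTriangulation k n)
    {G : Subgroup (Equiv.Perm (Fin n))} (hT : Invariant G T) {F : Finset (Finset (Fin n))}
    {p : Fin n → ℝ} (hF : IsCarrier T F p) {σ : Equiv.Perm (Fin n)} (hσ : σ ∈ G)
    (hp : permute σ p = p) : ∀ I ∈ F, I.map σ.toEmbedding ∈ F := by
  classical
  have hinj : Function.Injective (fun I : Finset (Fin n) => I.map σ.toEmbedding) := by
    intro I J h
    have h1 := congrArg (fun K : Finset (Fin n) => K.map σ.symm.toEmbedding) h
    simp only [carc_back] at h1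
    exact h1
  have hF' : IsCarrier T (F.image (fun I => I.map σ.toEmbedding)) p := by
    refine ⟨?_, ?_, ?_⟩
    · intro J hJ
      obtain ⟨I, hI, rfl⟩ := Finset.mem_image.1 hJ
      rw [Finset.card_map]
      exact hF.card I hI
    · obtain ⟨s, hs, hs2⟩ := hF.face
      obtain ⟨t, ht, ht2⟩ := hT σ hσ s hs
      refine ⟨t, ht, ?_⟩
      rw [ht2, hs2, Finset.coe_image, Set.image_image, Set.image_image]
      exact Set.image_congr fun I _ => permute_ind σ I
    · obtain ⟨w, hw1, hw2, hw3⟩ := hF.wt
      refine ⟨fun J => w (J.map σ.symm.toEmbedding), ?_, ?_, ?_⟩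
      · intro J hJ
        obtain ⟨I, hI, rfl⟩ := Finset.mem_image.1 hJ
        show 0 < w ((I.map σ.toEmbedding).map σ.symm.toEmbedding)
        rw [carc_back]
        exact hw1 I hI
      · rw [Finset.sum_image fun I _ J _ h => hinj h]
        simp only [carc_back]
        exact hw2
      · rw [Finset.sum_image fun I _ J _ h => hinj h]
        simp only [carc_back]
        rw [← hp, ← hw3]
        funext i
        rw [Finset.sum_apply]
        show _ = (∑ I ∈ F, w I • ind I) (σ.symm i)
        rw [Finset.sum_apply]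
        refine Finset.sum_congr rfl fun I _ => ?_
        rw [← permute_ind]
        rfl
  have h := car_unique hk T hF hF'
  intro I hI
  rw [← h]
  exact Finset.mem_image_of_mem _ hI

end Pool.Agent.Lib.HyS
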