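import Pool.Agent.Lib.HyS.Defs

/-!
# HyS, row CarB: the vectors of a simplex are linearly independent; a simplex whose convex hull
contains a relative interior point of another simplex contains that simplex

PROOF IN WORDS. (1) `face_lin`: the points `ind I` (`I ∈ F`) are the elements of a face `s`, which
is affinely independent (`T.K.indep`); `ind` is injective. If `∑ c I • ind I = 0`, take the sum of
all coordinates: `k * ∑ c I = 0` because `∑ i, ind I i = I.card = k`; `k > 0`, so `∑ c I = 0`, and
affine independence gives `c = 0` (`affineIndependent_iff` or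
`affineIndependent_iff_linearIndependent_vsub`; `linearIndependent_iff'` for the target).
(2) `face_card_le`: linearly independent vectors in `Fin n → ℝ`
(`LinearIndependent.fintype_card_le_finrank`, `Module.finrank_fin_fun`).
(3) `car_sub`: `q` lies in both convex hulls, so in `convexHull (s_D ∩ s_F)`
(`T.K.inter_subset_convexHull`); so `q` is a convex combination of the `ind I` with
`I ∈ D ∩ F` (`Finset.mem_convexHull'`; `s_D ∩ s_F = ind '' (D ∩ F)` by injectivity); extended by
zero these are weights on `D`, and by (1) they are equal to the positive weights of `D`, so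
`D ∩ F = D`.
(4) `car_unique`: (3) twice; `p` is in the convex hull of `ind '' F` by its weights.
-/

namespace Pool.Agent.Lib.HyS

theorem ind_injective (n : ℕ) : Function.Injective (ind : Finset (Fin n) → Fin n → ℝ) := by
  intro I J h
  ext i
  have h1 := congrFun h i
  unfold ind at h1
  by_cases hI : i ∈ I
  · by_cases hJ : i ∈ J
    · exact ⟨fun _ => hJ, fun _ => hI⟩
    · rw [if_pos hI, if_neg hJ] at h1
      exact absurd h1 one_ne_zero
  · by_cases hJ : i ∈ J
    · rw [if_neg hI, if_pos hJ] at h1
      exact absurd h1.symm one_ne_zero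
    · exact ⟨fun h => absurd h hI, fun h => absurd h hJ⟩

private theorem sum_ind {n : ℕ} (I : Finset (Fin n)) : ∑ i, ind I i = (I.card : ℝ) := by
  unfold ind
  rw [Finset.sum_ite_mem, Finset.univ_inter, Finset.sum_const, nsmul_eq_mul, mul_one]

theorem face_lin {k n : ℕ} (hk : 0 < k) (T : LatticeTriangulation k n)
    {F : Finset (Finset (Fin n))} (hcard : ∀ I ∈ F, I.card = k)
    (hface : ∃ s ∈ T.K.faces, (s : Set (Fin n → ℝ)) = ind '' (F : Set (Finset (Fin n)))) :
    LinearIndependent ℝ (fun I : F => ind (I : Finset (Fin n))) := by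
  classical
  obtain ⟨s, hs, hset⟩ := hface
  have hmem : ∀ I : F, ind (I : Finset (Fin n)) ∈ s := by
    intro I
    have h1 : ind (I : Finset (Fin n)) ∈ (s : Set (Fin n → ℝ)) := by
      rw [hset]
      exact ⟨I, I.2, rfl⟩
    exact h1
  let e : F ↪ s := ⟨fun I => ⟨ind (I : Finset (Fin n)), hmem I⟩, fun I J h => by
    have h1 : ind (I : Finset (Fin n)) = ind (J : Finset (Fin n)) := congrArg Subtype.val h
    exact Subtype.ext (ind_injective n h1)⟩
  have haff : AffineIndependent ℝ (fun I : F => ind (I : Finset (Fin n))) := (T.K.indep hs).comp_embedding e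
  rw [affineIndependent_iff] at haff
  rw [Fintype.linearIndependent_iff]
  intro g hg i
  refine haff Finset.univ g ?_ hg i (Finset.mem_univ i)
  have h1 : ∑ j, (∑ I : F, g I • ind (I : Finset (Fin n))) j = 0 := by
    rw [hg]
    simp
  have h2 : ∑ j, (∑ I : F, g I • ind (I : Finset (Fin n))) j = (∑ I : F, g I) * k := by
    simp only [Finset.sum_apply, Pi.smul_apply, smul_eq_mul]
    rw [Finset.sum_comm, Finset.sum_mul]
    refine Finset.sum_congr rfl fun I _ => ?_
    rw [← Finset.mul_sum, sum_ind, hcard I I.2]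
  rw [h2] at h1
  rcases mul_eq_zero.1 h1 with h3 | h3
  · exact h3
  · exact absurd h3 (Nat.cast_ne_zero.2 hk.ne')

private theorem lin_zero {k n : ℕ} (hk : 0 < k) (T : LatticeTriangulation k n)
    {F : Finset (Finset (Fin n))} (hcard : ∀ I ∈ F, I.card = k)
    (hface : ∃ s ∈ T.K.faces, (s : Set (Fin n → ℝ)) = ind '' (F : Set (Finset (Fin n)))) (c : Finset (Fin n) → ℝ)
    (h : ∑ I ∈ F, c I • ind I = 0) : ∀ I ∈ F, c I = 0 := by
  have h1 := Fintype.linearIndependent_iff.1 (face_lin hk T hcard hface) (fun I => c I)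
    (by rw [← h]; exact Finset.sum_coe_sort F (fun I => c I • ind I))
  intro I hI
  exact h1 ⟨I, hI⟩

private theorem car_mem {k n : ℕ} {T : LatticeTriangulation k n} {F : Finset (Finset (Fin n))} {p : Fin n → ℝ}
    (hF : IsCarrier T F p) : p ∈ convexHull ℝ (ind '' (F : Set (Finset (Fin n)))) := by
  obtain ⟨w, h0, h1, h2⟩ := hF.wt
  rw [← h2]
  exact (convex_convexHull ℝ _).sum_mem (fun I hI => (h0 I hI).le) h1
    (fun I hI => subset_convexHull ℝ _ ⟨I, hI, rfl⟩)

theorem face_card_le {k n : ℕ} (hk : 0 < k) (T : LatticeTriangulation k n)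
    {F : Finset (Finset (Fin n))} (hcard : ∀ I ∈ F, I.card = k)
    (hface : ∃ s ∈ T.K.faces, (s : Set (Fin n → ℝ)) = ind '' (F : Set (Finset (Fin n)))) :
    F.card ≤ n := by
  have h := (face_lin hk T hcard hface).fintype_card_le_finrank
  rw [Fintype.card_coe, Module.finrank_fin_fun] at h
  exact h

theorem car_sub {k n : ℕ} (hk : 0 < k) (T : LatticeTriangulation k n)
    {F D : Finset (Finset (Fin n))} {p q : Fin n → ℝ} (hF : IsCarrier T F p)
    (hD : IsCarrier T D q) (hq : q ∈ convexHull ℝ (ind '' (F : Set (Finset (Fin n))))) :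
    D ⊆ F := by
  classical
  obtain ⟨sF, hsF, hF1⟩ := hF.face
  obtain ⟨sD, hsD, hD1⟩ := hD.face
  have h1 : q ∈ convexHull ℝ ((sF : Set (Fin n → ℝ)) ∩ (sD : Set (Fin n → ℝ))) := by
    refine T.K.inter_subset_convexHull hsF hsD ⟨?_, ?_⟩
    · rw [hF1]
      exact hq
    · rw [hD1]
      exact car_mem hD
  rw [hF1, hD1, ← Set.image_inter (ind_injective n), ← Finset.coe_inter, ← Finset.coe_image] at h1
  obtain ⟨w, -, -, hw⟩ := (Finset.mem_convexHull' (R := ℝ)).1 h1
  rw [Finset.sum_image fun I _ J _ h => ind_injective n h] at hw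
  obtain ⟨v, hv0, -, hv⟩ := hD.wt
  have h2 : ∑ I ∈ D, (v I - if I ∈ F then w (ind I) else 0) • ind I = 0 := by
    simp only [sub_smul, Finset.sum_sub_distrib]
    rw [hv, ← hw, sub_eq_zero, Finset.inter_comm, ← Finset.filter_mem_eq_inter, Finset.sum_filter]
    refine Finset.sum_congr rfl fun I _ => ?_
    split_ifs
    · rfl
    · rw [zero_smul]
  have h3 := lin_zero hk T hD.card hD.face _ h2
  intro I hI
  by_contra hIF
  have h4 := h3 I hI
  simp only [if_neg hIF, sub_zero] at h4
  exact absurd h4 (hv0 I hI).ne'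

theorem car_unique {k n : ℕ} (hk : 0 < k) (T : LatticeTriangulation k n)
    {F D : Finset (Finset (Fin n))} {p : Fin n → ℝ} (hF : IsCarrier T F p)
    (hD : IsCarrier T D p) : D = F :=
  Finset.Subset.antisymm (car_sub hk T hF hD (car_mem hF)) (car_sub hk T hD hF (car_mem hD))

end Pool.Agent.Lib.HyS
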