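import Pool.Agent.Lib.HyS.Defs

/-!
# HyS, row CrsA: points beyond a facet

PROOF IN WORDS. `q` is a strictly positive convex combination of the `ind I`, `I ∈ D`, `I ≠ B`
(equal weights `1 / (|D| - 1)`). By `hin` and `hout` every coordinate of `q` is `> 0` and `< 1`
(`> 0`: some `I ∋ i` has positive weight; `< 1`: some `I ∌ i` has positive weight), and the sum of
its coordinates is `k`. So for all sufficiently small `ε ≥ 0` the point `q + ε (q - ind B)` has
coordinates in `[0,1]` (finitely many coordinates: take `δ` the minimum of `q i` and `1 - q i` over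
`i`; `|q i - ind B i| ≤ 1`, so `ε ≤ δ` works), and the sum of its coordinates is `k`.
For the last statement: `q` is fixed by every `σ` that fixes `B` and maps `D` to `D`
(`Finset.sum_bij` / `Finset.sum_equiv`; `I ↦ I.map σ` is an injection of the finite set `D.erase B`
to itself, so a bijection).
-/

namespace Pool.Agent.Lib.HyS

/-- The barycentre of the simplex without the vertex `B`. -/
noncomputable def bary {n : ℕ} (D : Finset (Finset (Fin n))) (B : Finset (Fin n)) : Fin n → ℝ :=
  (((D.erase B).card : ℝ)⁻¹) • ∑ I ∈ D.erase B, ind I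

private theorem crsa_sum_ind {n : ℕ} (I : Finset (Fin n)) : ∑ i, ind I i = (I.card : ℝ) := by
  unfold ind
  rw [Finset.sum_ite_mem, Finset.univ_inter, Finset.sum_const, nsmul_eq_mul, mul_one]

private theorem crsa_ind_nonneg {n : ℕ} (I : Finset (Fin n)) (i : Fin n) : 0 ≤ ind I i := by
  unfold ind
  split_ifs <;> norm_num

private theorem crsa_ind_le {n : ℕ} (I : Finset (Fin n)) (i : Fin n) : ind I i ≤ 1 := by
  unfold ind
  split_ifs <;> norm_num

private theorem crsa_apply {n : ℕ} (D : Finset (Finset (Fin n))) (B : Finset (Fin n)) (i : Fin n) :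
    bary D B i = (((D.erase B).card : ℝ)⁻¹) * ∑ I ∈ D.erase B, ind I i := by
  unfold bary
  rw [Pi.smul_apply, Finset.sum_apply, smul_eq_mul]

theorem bary_beyond {k n : ℕ} (D : Finset (Finset (Fin n))) (hcard : ∀ I ∈ D, I.card = k)
    (B : Finset (Fin n)) (hB : B ∈ D) (hn : 0 < n) (hin : ∀ i, ∃ I ∈ D, I ≠ B ∧ i ∈ I)
    (hout : ∀ i, ∃ I ∈ D, I ≠ B ∧ i ∉ I) :
    ∃ δ : ℝ, 0 < δ ∧ ∀ ε : ℝ, 0 ≤ ε → ε ≤ δ →
      bary D B + ε • (bary D B - ind B) ∈ hypersimplex k n := by
  have hW : (D.erase B).Nonempty := by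
    obtain ⟨I, hI, hIB, -⟩ := hin ⟨0, hn⟩
    exact ⟨I, Finset.mem_erase.2 ⟨hIB, hI⟩⟩
  have hc : (0 : ℝ) < ((D.erase B).card : ℝ) := by exact_mod_cast hW.card_pos
  have hpos : ∀ i, 0 < bary D B i := by
    intro i
    rw [crsa_apply]
    refine mul_pos (inv_pos.2 hc) ?_
    obtain ⟨I, hI, hIB, hi⟩ := hin i
    refine Finset.sum_pos' (fun J _ => crsa_ind_nonneg J i) ⟨I, Finset.mem_erase.2 ⟨hIB, hI⟩, ?_⟩
    unfold ind
    rw [if_pos hi]
    exact one_pos
  have hlt : ∀ i, bary D B i < 1 := by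
    intro i
    rw [crsa_apply, inv_mul_lt_iff₀ hc, mul_one]
    obtain ⟨I, hI, hIB, hi⟩ := hout i
    have h1 : ∑ J ∈ D.erase B, ind J i < ∑ J ∈ D.erase B, (1 : ℝ) := by
      refine Finset.sum_lt_sum (fun J _ => crsa_ind_le J i) ⟨I, Finset.mem_erase.2 ⟨hIB, hI⟩, ?_⟩
      unfold ind
      rw [if_neg hi]
      exact one_pos
    rwa [Finset.sum_const, nsmul_eq_mul, mul_one] at h1
  have hsum : ∑ i, bary D B i = k := by
    simp only [crsa_apply]
    rw [← Finset.mul_sum, Finset.sum_comm]
    have h1 : ∀ J ∈ D.erase B, ∑ i, ind J i = (k : ℝ) := by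
      intro J hJ
      rw [crsa_sum_ind, hcard J (Finset.mem_of_mem_erase hJ)]
    rw [Finset.sum_congr rfl h1, Finset.sum_const, nsmul_eq_mul, ← mul_assoc, inv_mul_cancel₀ hc.ne', one_mul]
  haveI : Nonempty (Fin n) := ⟨⟨0, hn⟩⟩
  obtain ⟨i0, -, hi0⟩ := Finset.exists_min_image (Finset.univ : Finset (Fin n))
    (fun i => min (bary D B i) (1 - bary D B i)) Finset.univ_nonempty
  refine ⟨min (bary D B i0) (1 - bary D B i0), lt_min (hpos i0) (by linarith [hlt i0]), ?_⟩
  intro ε h0 h1
  refine ⟨fun i => ?_, ?_⟩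
  · have h2 := hi0 i (Finset.mem_univ i)
    have h3 : ε ≤ bary D B i := h1.trans (h2.trans (min_le_left _ _))
    have h4 : ε ≤ 1 - bary D B i := h1.trans (h2.trans (min_le_right _ _))
    have h5 := hpos i
    have h6 := hlt i
    have h7 : (bary D B + ε • (bary D B - ind B)) i = bary D B i + ε * (bary D B i - ind B i) := rfl
    rw [h7]
    have h8 : ind B i = 0 ∨ ind B i = 1 := by
      unfold ind
      split_ifs
      · right; rfl
      · left; rfl
    rcases h8 with h8 | h8
    · rw [h8]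
      constructor
      · nlinarith
      · nlinarith
    · rw [h8]
      constructor
      · nlinarith
      · nlinarith
  · have h7 : ∀ i, (bary D B + ε • (bary D B - ind B)) i = bary D B i + ε * (bary D B i - ind B i) := fun i => rfl
    simp only [h7]
    rw [Finset.sum_add_distrib, ← Finset.mul_sum, Finset.sum_sub_distrib, hsum, crsa_sum_ind, hcard B hB]
    ring

private theorem crsa_ind_map {n : ℕ} (I : Finset (Fin n)) (σ : Equiv.Perm (Fin n)) (i : Fin n) :
    ind (I.map σ.toEmbedding) i = ind I (σ.symm i) := by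
  unfold ind
  simp only [Finset.mem_map_equiv]

theorem bary_fixed {n : ℕ} (D : Finset (Finset (Fin n))) (B : Finset (Fin n))
    (σ : Equiv.Perm (Fin n)) (hσ : ∀ I ∈ D, I.map σ.toEmbedding ∈ D)
    (hB : B.map σ.toEmbedding = B) (ε : ℝ) :
    permute σ (bary D B + ε • (bary D B - ind B)) = bary D B + ε • (bary D B - ind B) := by
  have hinj : Function.Injective (fun I : Finset (Fin n) => I.map σ.toEmbedding) :=
    Finset.map_injective _
  have h1 : (D.erase B).image (fun I : Finset (Fin n) => I.map σ.toEmbedding) = D.erase B := by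
    refine Finset.eq_of_subset_of_card_le ?_ (by rw [Finset.card_image_of_injective _ hinj])
    intro J hJ
    obtain ⟨I, hI, rfl⟩ := Finset.mem_image.1 hJ
    rw [Finset.mem_erase] at hI ⊢
    refine ⟨fun h => hI.1 (hinj ?_), hσ I hI.2⟩
    show I.map σ.toEmbedding = B.map σ.toEmbedding
    rw [hB]
    exact h
  have h2 : ∀ i, bary D B (σ.symm i) = bary D B i := by
    intro i
    rw [crsa_apply, crsa_apply]
    congr 1
    conv_rhs => rw [← h1]
    rw [Finset.sum_image fun I _ J _ h => hinj h]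
    exact Finset.sum_congr rfl fun I _ => (crsa_ind_map I σ i).symm
  have h3 : ∀ i, ind B (σ.symm i) = ind B i := by
    intro i
    rw [← crsa_ind_map, hB]
  funext i
  show bary D B (σ.symm i) + ε * (bary D B (σ.symm i) - ind B (σ.symm i)) = bary D B i + ε * (bary D B i - ind B i)
  rw [h2, h3]

end Pool.Agent.Lib.HyS
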