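import Pool.Agent.Lib.HyS.CarA
import Pool.Agent.Lib.HyS.CarC

/-!
# HyS, row Loc: orbits of stabilisers have length at most two (sets `Z` with `|Z| = k - 2`)

PROOF IN WORDS. Suppose not: `y, σ y, τ y` are three different points. Let `H` be the set of all
`ρ ∈ G` with `ρ x = x` and `Z.map ρ = Z` and `O = {ρ y | ρ ∈ H}` as a finset (filter); `O` contains
`y, σ y, τ y`, so `b = |O| ≥ 3`, and `O` is disjoint from `Z` and `x`; `ρ ∈ H` maps `O` to `O`.
Let `p = 1` on `Z`, `1/2` at `x`, `3/(2b)` on `O`, `0` elsewhere: `p` is in the hypersimplex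
(`|Z| + 1/2 + 3/2 = k`; `3/(2b) ≤ 1/2`), and `permute ρ p = p` for `ρ ∈ H`. Let `F` be its carrier
(`car_exists`) with weights `w`; by `car_inv` it is invariant under `H`. For `I ∈ F`: `Z ⊆ I`
(a coordinate of `p` equal to `1` forces all `I ∈ F` to contain it, as the weights are positive
with sum one) and `I ⊆ Z ∪ {x} ∪ O` (a coordinate `0` forces all `I` to avoid it). So
`I = Z ∪ {x, o}` or `I = Z ∪ {o, o'}` with `o ≠ o'` in `O`. As `p x = 1/2` both kinds occur. By
invariance and transitivity of `H` on `O`: all `Z ∪ {x, o}` (`o ∈ O`) are in `F`; and there are two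
different sets `Z ∪ {o1, o2}`, `Z ∪ {o3, o4}` of the second kind: given `Z ∪ {o1,o2} ∈ F`,
take `o3 ∈ O` different from `o1, o2` (`b ≥ 3`) and `ρ ∈ H` with `ρ o1 = o3`
(`H` is closed under composition and inverse), then `Z ∪ {o3, ρ o2} ∈ F` is different from
`Z ∪ {o1, o2}`. Now
`ind (Z+o1+o2) - ind (Z+x+o1) - ind (Z+x+o2) = ind (Z+o3+o4) - ind (Z+x+o3) - ind (Z+x+o4)`
(both sides are `- ind Z - 2 e_x`) is a linear relation among members of `F` in which the
coefficient of `Z+o1+o2` is not zero (write it as `∑ I ∈ F, (f I) • ind I = 0` with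
`f I = [I = a12] - [I = ax1] - [I = ax2] - [I = a34] + [I = ax3] + [I = ax4]`;
`f a12 = 1` as `a12` is different from the five others). Contradiction to `face_lin`.
-/

namespace Pool.Agent.Lib.HyS

private theorem loc_ins {n : ℕ} {a : Fin n} {s : Finset (Fin n)} (h : a ∉ s) : (ind (insert a s) : Fin n → ℝ) = ind s + ind {a} := by
  funext i
  simp only [ind, Pi.add_apply, Finset.mem_insert, Finset.mem_singleton]
  by_cases hi : i = a
  · subst hi
    simp [h]
  · simp [hi]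

/-- the elements of `G` which fix `x` and the set `Z` -/
private structure LocP {n : ℕ} (G : Subgroup (Equiv.Perm (Fin n))) (x : Fin n) (Z : Finset (Fin n)) (ρ : Equiv.Perm (Fin n)) : Prop where
  g : ρ ∈ G
  hx : ρ x = x
  hZ : ∀ i, ρ i ∈ Z ↔ i ∈ Z

section

variable {n : ℕ} {G : Subgroup (Equiv.Perm (Fin n))} {x : Fin n} {Z : Finset (Fin n)}

private theorem locP_mk {ρ : Equiv.Perm (Fin n)} (h1 : ρ ∈ G) (h2 : ρ x = x) (h3 : Z.map ρ.toEmbedding = Z) : LocP G x Z ρ := by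
  refine ⟨h1, h2, fun i => ?_⟩
  conv_lhs => rw [← h3, Finset.mem_map_equiv, Equiv.symm_apply_apply]

private theorem locP_one : LocP G x Z 1 := ⟨G.one_mem, rfl, fun _ => Iff.rfl⟩

private theorem locP_mul {ρ ρ' : Equiv.Perm (Fin n)} (h : LocP G x Z ρ) (h' : LocP G x Z ρ') : LocP G x Z (ρ * ρ') :=
  ⟨G.mul_mem h.g h'.g, by rw [Equiv.Perm.mul_apply, h'.hx, h.hx], fun i => by rw [Equiv.Perm.mul_apply, h.hZ, h'.hZ]⟩

private theorem locP_inv {ρ : Equiv.Perm (Fin n)} (h : LocP G x Z ρ) : LocP G x Z ρ⁻¹ :=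
  ⟨G.inv_mem h.g, by rw [Equiv.Perm.inv_eq_iff_eq, h.hx], fun i => by
    rw [← h.hZ (ρ⁻¹ i)]
    exact iff_of_eq (congrArg (· ∈ Z) (ρ.apply_symm_apply i))⟩

private theorem locP_map {ρ : Equiv.Perm (Fin n)} (h : LocP G x Z ρ) : Z.map ρ.toEmbedding = Z := by
  ext i
  rw [Finset.mem_map_equiv]
  exact (locP_inv h).hZ i

open Classical in
/-- the orbit of `y` -/
private noncomputable def locO (G : Subgroup (Equiv.Perm (Fin n))) (x : Fin n) (Z : Finset (Fin n)) (y : Fin n) : Finset (Fin n) :=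
  Finset.univ.filter fun o => ∃ ρ, LocP G x Z ρ ∧ ρ y = o

private theorem mem_locO {y o : Fin n} : o ∈ locO G x Z y ↔ ∃ ρ, LocP G x Z ρ ∧ ρ y = o := by
  classical
  simp [locO]

private theorem locO_map {y o : Fin n} {ρ : Equiv.Perm (Fin n)} (h : LocP G x Z ρ) (ho : o ∈ locO G x Z y) : ρ o ∈ locO G x Z y := by
  obtain ⟨ρ', h', rfl⟩ := mem_locO.1 ho
  exact mem_locO.2 ⟨ρ * ρ', locP_mul h h', rfl⟩

private theorem locO_iff {y o : Fin n} {ρ : Equiv.Perm (Fin n)} (h : LocP G x Z ρ) : ρ o ∈ locO G x Z y ↔ o ∈ locO G x Z y := by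
  refine ⟨fun ho => ?_, locO_map h⟩
  have h1 := locO_map (locP_inv h) ho
  have h2 : ρ⁻¹ (ρ o) = o := ρ.symm_apply_apply o
  rwa [h2] at h1

private theorem locO_tr {y o o' : Fin n} (ho : o ∈ locO G x Z y) (ho' : o' ∈ locO G x Z y) : ∃ ρ, LocP G x Z ρ ∧ ρ o = o' := by
  obtain ⟨ρ, h, rfl⟩ := mem_locO.1 ho
  obtain ⟨ρ', h', rfl⟩ := mem_locO.1 ho'
  exact ⟨ρ' * ρ⁻¹, locP_mul h' (locP_inv h), by
    rw [Equiv.Perm.mul_apply]
    exact congrArg ρ' (ρ.symm_apply_apply y)⟩

private theorem locO_Z {y o : Fin n} (hy : y ∉ Z) (ho : o ∈ locO G x Z y) : o ∉ Z := by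
  obtain ⟨ρ, h, rfl⟩ := mem_locO.1 ho
  rwa [h.hZ]

private theorem locO_x {y o : Fin n} (hy : y ≠ x) (ho : o ∈ locO G x Z y) : o ≠ x := by
  obtain ⟨ρ, h, rfl⟩ := mem_locO.1 ho
  intro h1
  exact hy (ρ.injective (h1.trans h.hx.symm))

end

/-- the point `ind Z + (1/2) e_x + c (sum over O)` -/
private noncomputable def locp {n : ℕ} (Z O : Finset (Fin n)) (x : Fin n) (c : ℝ) : Fin n → ℝ :=
  fun i => (if i ∈ Z then 1 else 0) + (if i = x then 1 / 2 else 0) + (if i ∈ O then c else 0)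

private theorem locp_sum {n : ℕ} (Z O : Finset (Fin n)) (x : Fin n) (c : ℝ) : ∑ i, locp Z O x c i = Z.card + 1 / 2 + O.card * c := by
  unfold locp
  rw [Finset.sum_add_distrib, Finset.sum_add_distrib]
  simp [Finset.sum_ite_mem]

/-- a sum of positive weights -/
private theorem loc_all {n : ℕ} {F : Finset (Finset (Fin n))} {w : Finset (Fin n) → ℝ} (hw : ∀ I ∈ F, 0 < w I) (h1 : ∑ I ∈ F, w I = 1)
    {p : Fin n → ℝ} (h2 : ∑ I ∈ F, w I • ind I = p) (i : Fin n) :
    (p i = 1 → ∀ I ∈ F, i ∈ I) ∧ (p i = 0 → ∀ I ∈ F, i ∉ I) ∧ ((∀ I ∈ F, i ∈ I) → p i = 1) ∧ ((∀ I ∈ F, i ∉ I) → p i = 0) := by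
  have h3 : ∑ I ∈ F, w I * (if i ∈ I then 1 else 0) = p i := by
    rw [← h2, Finset.sum_apply]
    rfl
  refine ⟨fun hp I hI => ?_, fun hp I hI hiI => ?_, fun h => ?_, fun h => ?_⟩
  · have h4 : ∑ I ∈ F, w I * (if i ∈ I then 0 else 1) = 0 := by
      have h5 : ∑ I ∈ F, (w I * (if i ∈ I then 1 else 0) + w I * (if i ∈ I then 0 else 1)) = ∑ I ∈ F, w I :=
        Finset.sum_congr rfl fun I _ => by split_ifs <;> ring
      rw [Finset.sum_add_distrib, h3, h1, hp] at h5
      linarith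
    have h6 := (Finset.sum_eq_zero_iff_of_nonneg fun I hI => by
      have := (hw I hI).le
      split_ifs <;> simp [this]).1 h4 I hI
    by_contra hc
    rw [if_neg hc, mul_one] at h6
    exact (hw I hI).ne' h6
  · rw [hp] at h3
    have h6 := (Finset.sum_eq_zero_iff_of_nonneg fun I hI => by
      have := (hw I hI).le
      split_ifs <;> simp [this]).1 h3 I hI
    rw [if_pos hiI, mul_one] at h6
    exact (hw I hI).ne' h6
  · rw [← h3]
    exact Eq.trans (Finset.sum_congr rfl fun I hI => by rw [if_pos (h I hI), mul_one]) h1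
  · rw [← h3]
    exact Finset.sum_eq_zero fun I hI => by rw [if_neg (h I hI), mul_zero]

theorem local_low {k n : ℕ} (T : LatticeTriangulation k n) {G : Subgroup (Equiv.Perm (Fin n))}
    (hT : Invariant G T) (Z : Finset (Fin n)) (hZ : Z.card + 2 = k) (x y : Fin n) (hx : x ∉ Z)
    (hy : y ∉ Z) (hxy : y ≠ x) (σ τ : Equiv.Perm (Fin n)) (hσ : σ ∈ G) (hτ : τ ∈ G)
    (hσx : σ x = x) (hτx : τ x = x) (hσZ : Z.map σ.toEmbedding = Z)
    (hτZ : Z.map τ.toEmbedding = Z) : σ y = y ∨ τ y = y ∨ σ y = τ y := by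
  classical
  by_contra hcon
  push Not at hcon
  obtain ⟨hc1, hc2, hc3⟩ := hcon
  have hk : 0 < k := by omega
  have hPσ : LocP G x Z σ := locP_mk hσ hσx hσZ
  have hPτ : LocP G x Z τ := locP_mk hτ hτx hτZ
  let O := locO G x Z y
  have hyO : y ∈ O := mem_locO.2 ⟨1, locP_one, rfl⟩
  have hσO : σ y ∈ O := locO_map hPσ hyO
  have hτO : τ y ∈ O := locO_map hPτ hyO
  have hOZ : ∀ o ∈ O, o ∉ Z := fun o ho => locO_Z hy ho
  have hOx : ∀ o ∈ O, o ≠ x := fun o ho => locO_x hxy ho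
  have hb : 3 ≤ O.card := by
    have h1 : ({y, σ y, τ y} : Finset (Fin n)) ⊆ O := by
      intro o ho
      rw [Finset.mem_insert, Finset.mem_insert, Finset.mem_singleton] at ho
      rcases ho with rfl | rfl | rfl
      · exact hyO
      · exact hσO
      · exact hτO
    have h2 : ({y, σ y, τ y} : Finset (Fin n)).card = 3 := Finset.card_eq_three.2 ⟨y, σ y, τ y, hc1.symm, hc2.symm, hc3, rfl⟩
    exact h2 ▸ Finset.card_le_card h1
  have hbR : (3 : ℝ) ≤ O.card := by exact_mod_cast hb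
  let c : ℝ := 3 / (2 * O.card)
  have hc0 : 0 < c := by positivity
  have hc12 : c ≤ 1 / 2 := by
    rw [div_le_div_iff₀ (by positivity) (by norm_num)]
    linarith
  have hbc : O.card * c = 3 / 2 := by
    have : (O.card : ℝ) ≠ 0 := by linarith
    show (O.card : ℝ) * (3 / (2 * O.card)) = 3 / 2
    field_simp
  let p := locp Z O x c
  have pZ : ∀ i ∈ Z, p i = 1 := fun i hi => by
    have h1 : i ≠ x := fun h => hx (h ▸ hi)
    have h2 : i ∉ O := fun h => hOZ i h hi
    show _ + _ + _ = _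
    rw [if_pos hi, if_neg h1, if_neg h2]
    norm_num
  have px : p x = 1 / 2 := by
    have h2 : x ∉ O := fun h => hOx x h rfl
    show _ + _ + _ = _
    rw [if_neg hx, if_pos rfl, if_neg h2]
    norm_num
  have pO : ∀ i ∈ O, p i = c := fun i hi => by
    show _ + _ + _ = _
    rw [if_neg (hOZ i hi), if_neg (hOx i hi), if_pos hi]
    ring
  have p0 : ∀ i, i ∉ Z → i ≠ x → i ∉ O → p i = 0 := fun i h1 h2 h3 => by
    show _ + _ + _ = _
    rw [if_neg h1, if_neg h2, if_neg h3]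
    norm_num
  have hp : p ∈ hypersimplex k n := by
    refine ⟨fun i => ?_, ?_⟩
    · by_cases h1 : i ∈ Z
      · rw [pZ i h1]
        norm_num
      · by_cases h2 : i = x
        · rw [h2, px]
          norm_num
        · by_cases h3 : i ∈ O
          · rw [pO i h3]
            exact ⟨hc0.le, by linarith⟩
          · rw [p0 i h1 h2 h3]
            norm_num
    · show ∑ i, locp Z O x c i = k
      rw [locp_sum, hbc, ← hZ]
      push_cast
      ring
  have hper : ∀ ρ, LocP G x Z ρ → permute ρ p = p := by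
    intro ρ h
    have h' := locP_inv h
    funext i
    show locp Z O x c (ρ⁻¹ i) = locp Z O x c i
    unfold locp
    have e1 : (ρ⁻¹ i ∈ Z) = (i ∈ Z) := propext (h'.hZ i)
    have e2 : (ρ⁻¹ i = x) = (i = x) := propext (by rw [Equiv.Perm.inv_eq_iff_eq, h.hx])
    have e3 : (ρ⁻¹ i ∈ O) = (i ∈ O) := propext (locO_iff h')
    simp only [e1, e2, e3]
  obtain ⟨F, hF⟩ := car_exists T hp
  have hinv : ∀ ρ, LocP G x Z ρ → ∀ I ∈ F, I.map ρ.toEmbedding ∈ F := fun ρ h => car_inv hk T hT hF h.g (hper ρ h)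
  obtain ⟨w, hw, hw1, hwp⟩ := hF.wt
  have hall := fun i => loc_all hw hw1 hwp i
  have hZI : ∀ I ∈ F, Z ⊆ I := fun I hI i hi => (hall i).1 (pZ i hi) I hI
  have hIO : ∀ I ∈ F, ∀ i ∈ I, i ∉ Z → i ≠ x → i ∈ O := fun I hI i hi h1 h2 => by
    by_contra h3
    exact (hall i).2.1 (p0 i h1 h2 h3) I hI hi
  have hmapx : ∀ ρ, LocP G x Z ρ → ∀ o, (insert o (insert x Z)).map ρ.toEmbedding = insert (ρ o) (insert x Z) := fun ρ h o => by
    rw [Finset.map_insert, Finset.map_insert, locP_map h]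
    show insert (ρ o) (insert (ρ x) Z) = _
    rw [h.hx]
  have hmapo : ∀ ρ, LocP G x Z ρ → ∀ o o', (insert o (insert o' Z)).map ρ.toEmbedding = insert (ρ o) (insert (ρ o') Z) := fun ρ h o o' => by
    rw [Finset.map_insert, Finset.map_insert, locP_map h]
    rfl
  -- the sets with `x`
  have hX : ∀ o ∈ O, insert o (insert x Z) ∈ F := by
    have h1 : ∃ I ∈ F, x ∈ I := by
      by_contra hno
      push Not at hno
      have := (hall x).2.2.2 hno
      rw [px] at this
      norm_num at this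
    obtain ⟨I, hI, hxI⟩ := h1
    have h2 : insert x Z ⊆ I := Finset.insert_subset hxI (hZI I hI)
    have h3 : (I \ insert x Z).card = 1 := by
      rw [Finset.card_sdiff_of_subset h2, hF.card I hI, Finset.card_insert_of_notMem hx]
      omega
    obtain ⟨o, ho⟩ := Finset.card_eq_one.1 h3
    have h4 : I = insert o (insert x Z) := by
      rw [← Finset.sdiff_union_of_subset h2, ho]
      rfl
    have h5 : o ∈ I \ insert x Z := by rw [ho]; exact Finset.mem_singleton_self o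
    rw [Finset.mem_sdiff, Finset.mem_insert, not_or] at h5
    have h6 : o ∈ O := hIO I hI o h5.1 h5.2.2 h5.2.1
    intro o' ho'
    obtain ⟨ρ, hρ, rfl⟩ := locO_tr h6 ho'
    rw [← hmapx ρ hρ o, ← h4]
    exact hinv ρ hρ I hI
  -- a set without `x`
  have hJ : ∃ o1 ∈ O, ∃ o2 ∈ O, o1 ≠ o2 ∧ insert o1 (insert o2 Z) ∈ F := by
    have h1 : ∃ I ∈ F, x ∉ I := by
      by_contra hno
      push Not at hno
      have := (hall x).2.2.1 hno
      rw [px] at this
      norm_num at this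
    obtain ⟨I, hI, hxI⟩ := h1
    have h2 : Z ⊆ I := hZI I hI
    have h3 : (I \ Z).card = 2 := by
      rw [Finset.card_sdiff_of_subset h2, hF.card I hI]
      omega
    obtain ⟨o1, o2, hne, ho⟩ := Finset.card_eq_two.1 h3
    have h4 : I = insert o1 (insert o2 Z) := by
      rw [← Finset.sdiff_union_of_subset h2, ho]
      ext i
      simp only [Finset.mem_union, Finset.mem_insert, Finset.mem_singleton]
      tauto
    have h5 : o1 ∈ I \ Z := by rw [ho]; exact Finset.mem_insert_self _ _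
    have h6 : o2 ∈ I \ Z := by rw [ho]; exact Finset.mem_insert_of_mem (Finset.mem_singleton_self _)
    rw [Finset.mem_sdiff] at h5 h6
    exact ⟨o1, hIO I hI o1 h5.1 h5.2 (fun h => hxI (h ▸ h5.1)), o2, hIO I hI o2 h6.1 h6.2 (fun h => hxI (h ▸ h6.1)), hne, h4 ▸ hI⟩
  obtain ⟨o1, ho1, o2, ho2, hne12, h12⟩ := hJ
  have h3 : ∃ o3 ∈ O, o3 ≠ o1 ∧ o3 ≠ o2 := by
    have h1 : 0 < (O \ {o1, o2}).card := by
      have := Finset.le_card_sdiff ({o1, o2} : Finset (Fin n)) O
      have h2 : ({o1, o2} : Finset (Fin n)).card ≤ 2 := Finset.card_le_two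
      omega
    obtain ⟨o3, ho3⟩ := Finset.card_pos.1 h1
    rw [Finset.mem_sdiff, Finset.mem_insert, Finset.mem_singleton, not_or] at ho3
    exact ⟨o3, ho3.1, ho3.2.1, ho3.2.2⟩
  obtain ⟨o3, ho3, h31, h32⟩ := h3
  obtain ⟨ρ, hρ, hρ3⟩ := locO_tr ho1 ho3
  have ho4 : ρ o2 ∈ O := locO_map hρ ho2
  generalize ho4' : ρ o2 = o4 at ho4
  have hne34 : o3 ≠ o4 := by
    rw [← hρ3, ← ho4']
    exact fun h => hne12 (ρ.injective h)
  have h34 : insert o3 (insert o4 Z) ∈ F := by
    have := hinv ρ hρ _ h12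
    rwa [hmapo ρ hρ, hρ3, ho4'] at this
  have hx1 := hX o1 ho1
  have hx2 := hX o2 ho2
  have hx3 := hX o3 ho3
  have hx4 := hX o4 ho4
  -- the relation
  let f : Finset (Fin n) → ℝ := fun I => (if I = insert o1 (insert o2 Z) then 1 else 0) - (if I = insert o1 (insert x Z) then 1 else 0) -
    (if I = insert o2 (insert x Z) then 1 else 0) - (if I = insert o3 (insert o4 Z) then 1 else 0) +
    (if I = insert o3 (insert x Z) then 1 else 0) + (if I = insert o4 (insert x Z) then 1 else 0)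
  have hone : ∀ a ∈ F, ∑ I ∈ F, (if I = a then (1 : ℝ) else 0) • (ind I : Fin n → ℝ) = ind a := by
    intro a ha
    rw [Finset.sum_eq_single_of_mem a ha (fun I _ hI => by rw [if_neg hI, zero_smul]), if_pos rfl, one_smul]
  have hrel : ∑ I ∈ F, f I • (ind I : Fin n → ℝ) = 0 := by
    simp only [f, add_smul, sub_smul, Finset.sum_add_distrib, Finset.sum_sub_distrib]
    rw [hone _ h12, hone _ hx1, hone _ hx2, hone _ h34, hone _ hx3, hone _ hx4]
    have n2 : o2 ∉ Z := hOZ o2 ho2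
    have n4 : o4 ∉ Z := hOZ o4 ho4
    have n1 : o1 ∉ insert o2 Z := by
      rw [Finset.mem_insert, not_or]
      exact ⟨hne12, hOZ o1 ho1⟩
    have n3 : o3 ∉ insert o4 Z := by
      rw [Finset.mem_insert, not_or]
      exact ⟨hne34, hOZ o3 ho3⟩
    have nx : ∀ o ∈ O, o ∉ insert x Z := fun o ho => by
      rw [Finset.mem_insert, not_or]
      exact ⟨hOx o ho, hOZ o ho⟩
    rw [loc_ins n1, loc_ins n2, loc_ins n3, loc_ins n4, loc_ins (nx o1 ho1), loc_ins (nx o2 ho2), loc_ins (nx o3 ho3), loc_ins (nx o4 ho4), loc_ins hx]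
    abel
  have hli := face_lin hk T hF.card hF.face
  rw [Fintype.linearIndependent_iff] at hli
  have hli2 := hli (fun I => f I) (by
    rw [Finset.sum_coe_sort F (fun I => f I • (ind I : Fin n → ℝ))]
    exact hrel) ⟨_, h12⟩
  have hxn : x ∉ insert o1 (insert o2 Z) := by
    rw [Finset.mem_insert, Finset.mem_insert, not_or, not_or]
    exact ⟨(hOx o1 ho1).symm, (hOx o2 ho2).symm, hx⟩
  have hxy' : ∀ o, insert o1 (insert o2 Z) ≠ insert o (insert x Z) := fun o h =>
    hxn (h ▸ Finset.mem_insert_of_mem (Finset.mem_insert_self _ _))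
  have h34n : insert o1 (insert o2 Z) ≠ insert o3 (insert o4 Z) := fun h => by
    have h1 : o3 ∈ insert o1 (insert o2 Z) := h ▸ Finset.mem_insert_self _ _
    rw [Finset.mem_insert, Finset.mem_insert] at h1
    rcases h1 with h1 | h1 | h1
    · exact h31 h1
    · exact h32 h1
    · exact hOZ o3 ho3 h1
  have hf1 : f (insert o1 (insert o2 Z)) = 1 := by
    show _ - _ - _ - _ + _ + _ = _
    rw [if_pos rfl, if_neg (hxy' o1), if_neg (hxy' o2), if_neg h34n, if_neg (hxy' o3), if_neg (hxy' o4)]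
    norm_num
  have h0 : f (insert o1 (insert o2 Z)) = 0 := hli2
  rw [hf1] at h0
  exact one_ne_zero h0

end Pool.Agent.Lib.HyS
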