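import Pool.Agent.Lib.HyS.Defs

/-!
# HyS, row Dual: the complement

PROOF IN WORDS. Let `c x = 1 - x` (`fun i => 1 - x i`), an affine involution of `Fin n → ℝ` (as an
affine equivalence: `AffineEquiv.constVSub ℝ (fun _ => 1)` or your own). The new complex has the
faces `s.image c`, equivalently all finsets `t` with `t.image c ∈ T.K.faces`; define
`faces = {t | t.image c ∈ T.K.faces}` (classical decidability; or `t.map` with the embedding). It is
a simplicial complex: nonempty and down closed because `image c` preserves inclusion and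
nonemptiness; `indep`: affine maps preserve affine independence (`AffineIndependent.map'`,
`AffineEquiv.affineIndependent_iff`); `inter`: `convexHull (c '' s) = c '' convexHull s`
(`AffineMap.image_convexHull` or `AffineMap.convexHull_image`), `Set.image_inter` (injective). Its
space is `c '' hypersimplex k n = hypersimplex (n - k) n` (the sum of the coordinates of `1 - x` is
`n - k`), its vertices are integral, and `permute σ` commutes with `c`.
-/

namespace Pool.Agent.Lib.HyS

private noncomputable def dualE (n : ℕ) : (Fin n → ℝ) ≃ᵃ[ℝ] (Fin n → ℝ) :=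
  AffineEquiv.constVSub ℝ (fun _ => (1 : ℝ))

private theorem dualE_apply {n : ℕ} (x : Fin n → ℝ) (i : Fin n) : dualE n x i = 1 - x i := rfl

private theorem dualE_dualE {n : ℕ} (x : Fin n → ℝ) : dualE n (dualE n x) = x := by
  funext i
  rw [dualE_apply, dualE_apply]
  ring

private theorem dualE_inj {n : ℕ} : Function.Injective (dualE n) := (dualE n).toEquiv.injective

private noncomputable def dualM {n : ℕ} (t : Finset (Fin n → ℝ)) : Finset (Fin n → ℝ) :=
  t.map (dualE n).toEquiv.toEmbedding

private theorem dualM_coe {n : ℕ} (t : Finset (Fin n → ℝ)) :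
    ((dualM t : Finset (Fin n → ℝ)) : Set (Fin n → ℝ)) = dualE n '' (t : Set (Fin n → ℝ)) :=
  Finset.coe_map _ _

private theorem dual_image_image {n : ℕ} (t : Set (Fin n → ℝ)) : dualE n '' (dualE n '' t) = t := by
  rw [Set.image_image]
  simp only [dualE_dualE, Set.image_id']

private theorem dualM_dualM {n : ℕ} (t : Finset (Fin n → ℝ)) : dualM (dualM t) = t := by
  apply Finset.coe_injective
  rw [dualM_coe, dualM_coe, dual_image_image]

private theorem dual_hull {n : ℕ} (t : Finset (Fin n → ℝ)) (x : Fin n → ℝ) :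
    x ∈ convexHull ℝ (t : Set (Fin n → ℝ)) ↔
      dualE n x ∈ convexHull ℝ ((dualM t : Finset (Fin n → ℝ)) : Set (Fin n → ℝ)) := by
  rw [dualM_coe]
  have h := (dualE n).toAffineMap.image_convexHull (t : Set (Fin n → ℝ))
  have h' : dualE n '' (convexHull ℝ (t : Set (Fin n → ℝ))) = convexHull ℝ (dualE n '' (t : Set (Fin n → ℝ))) := h
  rw [← h', dualE_inj.mem_set_image]

private noncomputable def dualK {n : ℕ} (K : Geometry.SimplicialComplex ℝ (Fin n → ℝ)) :
    Geometry.SimplicialComplex ℝ (Fin n → ℝ) where
  faces := {t | dualM t ∈ K.faces}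
  isRelLowerSet_faces := by
    intro t ht
    refine ⟨?_, ?_⟩
    · have h1 := K.nonempty_of_mem_faces ht
      exact Finset.map_nonempty.mp h1
    · intro b hb hbn
      exact K.down_closed ht (Finset.map_subset_map.mpr hb) (Finset.map_nonempty.mpr hbn)
  indep := by
    intro t ht
    have h1 : AffineIndependent ℝ
        ((↑) : ((dualM t : Finset (Fin n → ℝ)) : Set (Fin n → ℝ)) → (Fin n → ℝ)) := K.indep ht
    rw [dualM_coe] at h1
    exact (dualE n).affineIndependent_set_of_eq_iff.mp h1
  inter_subset_convexHull := by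
    intro s t hs ht x hx
    have h1 : dualE n x ∈ convexHull ℝ ((dualM s : Finset (Fin n → ℝ)) : Set (Fin n → ℝ)) :=
      (dual_hull s x).mp hx.1
    have h2 : dualE n x ∈ convexHull ℝ ((dualM t : Finset (Fin n → ℝ)) : Set (Fin n → ℝ)) :=
      (dual_hull t x).mp hx.2
    have h3 := K.inter_subset_convexHull hs ht ⟨h1, h2⟩
    rw [dualM_coe, dualM_coe, ← Set.image_inter dualE_inj] at h3
    have h := (dualE n).toAffineMap.image_convexHull ((s : Set (Fin n → ℝ)) ∩ (t : Set (Fin n → ℝ)))
    have h' : dualE n '' (convexHull ℝ ((s : Set (Fin n → ℝ)) ∩ (t : Set (Fin n → ℝ)))) =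
        convexHull ℝ (dualE n '' ((s : Set (Fin n → ℝ)) ∩ (t : Set (Fin n → ℝ)))) := h
    rw [← h', dualE_inj.mem_set_image] at h3
    exact h3

private theorem dual_hyp {k n : ℕ} (hk : k ≤ n) (x : Fin n → ℝ) :
    dualE n x ∈ hypersimplex k n ↔ x ∈ hypersimplex (n - k) n := by
  unfold hypersimplex
  rw [Set.mem_setOf_eq, Set.mem_setOf_eq]
  have h1 : ∑ i, dualE n x i = (n : ℝ) - ∑ i, x i := by
    simp only [dualE_apply, Finset.sum_sub_distrib, Finset.sum_const, Finset.card_univ,
      Fintype.card_fin, nsmul_eq_mul, mul_one]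
  rw [h1, Nat.cast_sub hk]
  constructor
  · rintro ⟨h2, h3⟩
    refine ⟨fun i => ?_, by linarith⟩
    have h4 := h2 i
    rw [dualE_apply] at h4
    constructor <;> linarith [h4.1, h4.2]
  · rintro ⟨h2, h3⟩
    refine ⟨fun i => ?_, by linarith⟩
    have h4 := h2 i
    rw [dualE_apply]
    constructor <;> linarith [h4.1, h4.2]

private noncomputable def dualT {k n : ℕ} (hk : k ≤ n) (T : LatticeTriangulation k n) :
    LatticeTriangulation (n - k) n where
  K := dualK T.K
  space_eq := by
    ext x
    rw [Geometry.SimplicialComplex.mem_space_iff, ← dual_hyp hk x, ← T.space_eq,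
      Geometry.SimplicialComplex.mem_space_iff]
    constructor
    · rintro ⟨t, ht, hx⟩
      exact ⟨dualM t, ht, (dual_hull t x).mp hx⟩
    · rintro ⟨t, ht, hx⟩
      refine ⟨dualM t, ?_, ?_⟩
      · show dualM (dualM t) ∈ T.K.faces
        rw [dualM_dualM]
        exact ht
      · rw [dual_hull, dualM_dualM]
        exact hx
  lattice := by
    intro v hv i
    have h1 : dualM {v} ∈ T.K.faces := hv
    have h2 : dualM ({v} : Finset (Fin n → ℝ)) = {dualE n v} := Finset.map_singleton _ _
    rw [h2] at h1
    obtain ⟨m, hm⟩ := T.lattice (dualE n v) h1 i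
    rw [dualE_apply] at hm
    refine ⟨1 - m, ?_⟩
    push_cast
    linarith

theorem exists_dual {k n : ℕ} (hk : k ≤ n) (T : LatticeTriangulation k n)
    {G : Subgroup (Equiv.Perm (Fin n))} (hT : Invariant G T) :
    ∃ T' : LatticeTriangulation (n - k) n, Invariant G T' := by
  refine ⟨dualT hk T, ?_⟩
  intro σ hσ s hs
  have hs' : dualM s ∈ T.K.faces := hs
  obtain ⟨t, ht, he⟩ := hT σ hσ (dualM s) hs'
  refine ⟨dualM t, ?_, ?_⟩
  · show dualM (dualM t) ∈ T.K.faces
    rw [dualM_dualM]
    exact ht
  · rw [dualM_coe, he, dualM_coe, Set.image_image, Set.image_image]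
    apply Set.image_congr
    intro x _
    funext i
    show 1 - permute σ (dualE n x) i = permute σ x i
    unfold permute
    rw [dualE_apply]
    ring

end Pool.Agent.Lib.HyS
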