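import Pool.Agent.Lib.HyS.Defs

/-!
# HyS, row Aff: the order of an affine group with a short orbit on `k`-sets

PROOF IN WORDS. Let `S = {σ ∈ G | B.map σ = B}` (a subgroup, the stabiliser of `B` in `G`).
(1) `τ^i` (`0 < i < n`) does not fix `B`: otherwise `B` is invariant under `τ^i`, which generates
`⟨τ⟩` (`n` prime), so `B` would be invariant under all translations, so empty or everything, but
`0 < k < n`. Hence the `n` sets `B.map (τ^i)` are different members of `D`; the orbit of `B` under
`G` is contained in `D`, which has at most `n` elements, so the orbit has exactly `n` elements and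
`|G| = n * |S|`.
(2) If `|S| = 1`, then `|G| = n` divides `n * k`. Otherwise: an element `σ ∈ G` with `a = 1` is a
translation, i.e. a power of `τ`, so if it is in `S` it is `1` by (1). For `σ, σ' ∈ S` the
commutator has `a = 1`, so it is `1`: `S` is abelian. Let `1 ≠ σ ∈ S`, `ρ (σ i) = a ρ i + b` with
`a ≠ 1`: it has exactly one fixed point `x` (`ρ x = b / (1 - a)`). Every `σ' ∈ S` commutes with
`σ`, so it fixes `x`. And every element `≠ 1` of `S` has exactly one fixed point, so it is `x`.
(3) `S` acts on `B.erase x` without fixed points (all stabilisers trivial), so `|S|` divides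
`(B.erase x).card`, which is `k` or `k - 1`
(`MulAction` orbits all have `|S|` elements; or count pairs). So `|G| = n |S|` divides `n * k` or
`n * (k - 1)`.
-/

namespace Pool.Agent.Lib.HyS

/-- a translation preserving a proper nonempty set is trivial -/
private theorem aff_trans {n : ℕ} [Fact n.Prime] (ρ : Fin n ≃ ZMod n) (σ : Fin n → Fin n) (b : ZMod n)
    (h : ∀ i, ρ (σ i) = ρ i + b) (B : Finset (Fin n)) (hB : ∀ i ∈ B, σ i ∈ B) (hne : B.Nonempty) (hk : B.card < n) :
    b = 0 := by
  by_contra hb
  obtain ⟨x, hx⟩ := hne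
  have h1 : ∀ m : ℕ, ρ.symm (ρ x + m * b) ∈ B := by
    intro m
    induction m with
    | zero => simpa using hx
    | succ m ih =>
      have h2 := hB _ ih
      have h3 : σ (ρ.symm (ρ x + m * b)) = ρ.symm (ρ x + (m + 1 : ℕ) * b) := by
        apply ρ.injective
        rw [h, Equiv.apply_symm_apply, Equiv.apply_symm_apply]
        push_cast
        ring
      rw [← h3]
      exact h2
  have h2 : B = Finset.univ := by
    rw [Finset.eq_univ_iff_forall]
    intro y
    have h3 := h1 ((ρ y - ρ x) / b).val
    rw [ZMod.natCast_zmod_val, div_mul_cancel₀ _ hb, add_sub_cancel, Equiv.symm_apply_apply] at h3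
    exact h3
  rw [h2, Finset.card_univ, Fintype.card_fin] at hk
  exact lt_irrefl _ hk

/-- a free action: the order of the group divides the number of points -/
private theorem aff_free {S β : Type} [Group S] [MulAction S β] [Finite S] [Finite β]
    (h : ∀ (s : S) (y : β), s • y = y → s = 1) : Nat.card S ∣ Nat.card β := by
  classical
  have hS := Fintype.ofFinite S
  have hβ := Fintype.ofFinite β
  have hq : Fintype (Quotient (MulAction.orbitRel S β)) := Fintype.ofFinite _
  have h1 := MulAction.card_eq_sum_card_group_div_card_stabilizer S β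
  rw [Nat.card_eq_fintype_card, Nat.card_eq_fintype_card, h1]
  apply Finset.dvd_sum
  intro ω _
  have h2 : Fintype.card (MulAction.stabilizer S ω.out) = 1 := by
    rw [Fintype.card_eq_one_iff]
    refine ⟨1, fun s => ?_⟩
    apply Subtype.ext
    exact h s.1 ω.out s.2
  rw [h2, Nat.div_one]

theorem affine_card {k n : ℕ} (hn : n.Prime) (hk : 0 < k) (hkn : k < n)
    (G : Subgroup (Equiv.Perm (Fin n))) (ρ : Fin n ≃ ZMod n)
    (hτ : ∃ τ ∈ G, ∀ i, ρ (τ i) = ρ i + 1)
    (haff : ∀ σ ∈ G, ∃ a b : ZMod n, ∀ i, ρ (σ i) = a * ρ i + b)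
    (D : Finset (Finset (Fin n))) (hDn : D.card ≤ n)
    (hinv : ∀ σ ∈ G, ∀ I ∈ D, I.map σ.toEmbedding ∈ D) (B : Finset (Fin n)) (hB : B ∈ D)
    (hBk : B.card = k) : Nat.card G ∣ n * k ∨ Nat.card G ∣ n * (k - 1) := by
  classical
  have : Fact n.Prime := ⟨hn⟩
  obtain ⟨τ, hτG, hτ⟩ := hτ
  have hBne : B.Nonempty := Finset.card_pos.1 (by omega)
  let act : MulAction G (Finset (Fin n)) :=
    { smul := fun g I => I.map (g : Equiv.Perm (Fin n)).toEmbedding
      one_smul := by
        intro I
        exact Finset.map_refl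
      mul_smul := by
        intro g h I
        show I.map _ = (I.map _).map _
        rw [Finset.map_map]
        rfl }
  have hsm : ∀ (g : G) (I : Finset (Fin n)), g • I = I.map (g : Equiv.Perm (Fin n)).toEmbedding := fun _ _ => rfl
  -- powers of `τ`
  have hpow : ∀ m : ℕ, ∀ i, ρ ((τ ^ m) i) = ρ i + m := by
    intro m
    induction m with
    | zero => intro i; simp
    | succ m ih =>
      intro i
      rw [pow_succ', Equiv.Perm.mul_apply, hτ, ih]
      push_cast
      ring
  have horb : Nat.card (MulAction.orbit G B) = n := by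
    apply le_antisymm
    · have h1 : MulAction.orbit G B ⊆ (D : Set (Finset (Fin n))) := by
        rintro _ ⟨g, rfl⟩
        exact hinv g g.2 B hB
      have h2 := Nat.card_mono (Finset.finite_toSet D) h1
      have h3 : Nat.card (D : Set (Finset (Fin n))) = D.card := by
        rw [Nat.card_coe_set_eq, Set.ncard_coe_finset]
      rw [h3] at h2
      exact h2.trans hDn
    · have h1 : Function.Injective (fun i : Fin n => (⟨(⟨τ, hτG⟩ : G) ^ (i : ℕ) • B, MulAction.mem_orbit B _⟩ : MulAction.orbit G B)) := by
        have key : ∀ i j : ℕ, i < n → j < n → i ≤ j → (⟨τ, hτG⟩ : G) ^ i • B = (⟨τ, hτG⟩ : G) ^ j • B → i = j := by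
          intro i j hi hj hij he
          have h3 : (⟨τ, hτG⟩ : G) ^ (j - i) • B = B := by
            have h4 : (⟨τ, hτG⟩ : G) ^ j = (⟨τ, hτG⟩ : G) ^ i * (⟨τ, hτG⟩ : G) ^ (j - i) := by
              rw [← pow_add]
              congr 1
              omega
            rw [h4, mul_smul] at he
            exact (MulAction.injective _ he).symm
          have h5 : ∀ x ∈ B, (τ ^ (j - i)) x ∈ B := by
            intro x hx
            rw [hsm] at h3
            have h6 : (τ ^ (j - i)) x ∈ B.map (((⟨τ, hτG⟩ : G) ^ (j - i) : G) : Equiv.Perm (Fin n)).toEmbedding :=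
              Finset.mem_map.2 ⟨x, hx, rfl⟩
            rw [h3] at h6
            exact h6
          have h7 := aff_trans ρ (fun x => (τ ^ (j - i)) x) ((j - i : ℕ) : ZMod n) (hpow (j - i)) B h5 hBne (by omega)
          rw [ZMod.natCast_eq_zero_iff] at h7
          have h8 := Nat.eq_zero_of_dvd_of_lt h7 (by omega)
          omega
        intro i j he
        have he' : (⟨τ, hτG⟩ : G) ^ (i : ℕ) • B = (⟨τ, hτG⟩ : G) ^ (j : ℕ) • B := congrArg Subtype.val he
        apply Fin.ext
        rcases le_total (i : ℕ) (j : ℕ) with h | h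
        · exact key i j i.2 j.2 h he'
        · exact (key j i j.2 i.2 h he'.symm).symm
      have h2 := Nat.card_le_card_of_injective _ h1
      rw [Nat.card_eq_fintype_card, Fintype.card_fin] at h2
      exact h2
  have hG : Nat.card G = n * Nat.card (MulAction.stabilizer G B) := by
    have hG1 : Fintype G := Fintype.ofFinite G
    have h1 : Fintype (MulAction.orbit G B) := Fintype.ofFinite _
    have h2 : Fintype (MulAction.stabilizer G B) := Fintype.ofFinite _
    have h3 := MulAction.card_orbit_mul_card_stabilizer_eq_card_group G B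
    rw [← Nat.card_eq_fintype_card, ← Nat.card_eq_fintype_card, ← Nat.card_eq_fintype_card, horb] at h3
    exact h3.symm
  -- the centroid
  have hk0 : (k : ZMod n) ≠ 0 := by
    rw [Ne, ZMod.natCast_eq_zero_iff]
    intro h
    have := Nat.eq_zero_of_dvd_of_lt h hkn
    omega
  set cS : ZMod n := ∑ y ∈ B, ρ y with hcS
  set x : Fin n := ρ.symm (cS / k) with hx
  have hρx : ρ x = cS / k := by rw [hx, Equiv.apply_symm_apply]
  have hstab : ∀ g : MulAction.stabilizer G B, B.map (g.1.1 : Equiv.Perm (Fin n)).toEmbedding = B := fun g => g.2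
  have hfix : ∀ g : MulAction.stabilizer G B, (g.1.1 : Equiv.Perm (Fin n)) x = x := by
    intro g
    obtain ⟨a, b, hab⟩ := haff g.1.1 g.1.2
    have h1 : ∑ y ∈ B, ρ ((g.1.1 : Equiv.Perm (Fin n)) y) = cS := by
      have h2 : ∑ y ∈ B.map (g.1.1 : Equiv.Perm (Fin n)).toEmbedding, ρ y = cS := by rw [hstab g]
      rw [Finset.sum_map] at h2
      exact h2
    have h3 : ∑ y ∈ B, ρ ((g.1.1 : Equiv.Perm (Fin n)) y) = a * cS + k * b := by
      rw [Finset.sum_congr rfl (fun y _ => hab y), Finset.sum_add_distrib, ← Finset.mul_sum, Finset.sum_const, hBk,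
        nsmul_eq_mul]
    apply ρ.injective
    rw [hab, hρx]
    have h4 : a * cS + k * b = cS := h3.symm.trans h1
    field_simp
    linear_combination h4
  have hone : ∀ (g : MulAction.stabilizer G B) (y : Fin n), y ≠ x → (g.1.1 : Equiv.Perm (Fin n)) y = y → g = 1 := by
    intro g y hyx hgy
    obtain ⟨a, b, hab⟩ := haff g.1.1 g.1.2
    have h1 := hab x
    have h2 := hab y
    rw [hfix g] at h1
    rw [hgy] at h2
    have h3 : ρ y - ρ x ≠ 0 := by
      rw [Ne, sub_eq_zero]
      intro h
      exact hyx (ρ.injective h)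
    have h4 : a = 1 := by
      have h5 : (a - 1) * (ρ y - ρ x) = 0 := by linear_combination h1 - h2
      rcases mul_eq_zero.1 h5 with h6 | h6
      · exact sub_eq_zero.1 h6
      · exact absurd h6 h3
    have h5 : b = 0 := by
      rw [h4] at h1
      linear_combination -h1
    apply Subtype.ext
    apply Subtype.ext
    apply Equiv.ext
    intro i
    apply ρ.injective
    rw [hab i, h4, h5]
    show 1 * ρ i + 0 = ρ i
    ring
  let act2 : MulAction (MulAction.stabilizer G B) {y : Fin n // y ∈ B.erase x} :=
    { smul := fun g y => ⟨(g.1.1 : Equiv.Perm (Fin n)) y.1, by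
        obtain ⟨h1, h2⟩ := Finset.mem_erase.1 y.2
        refine Finset.mem_erase.2 ⟨?_, ?_⟩
        · intro h
          apply h1
          apply (g.1.1 : Equiv.Perm (Fin n)).injective
          rw [h, hfix g]
        · have h3 : (g.1.1 : Equiv.Perm (Fin n)) y.1 ∈ B.map (g.1.1 : Equiv.Perm (Fin n)).toEmbedding :=
            Finset.mem_map.2 ⟨y.1, h2, rfl⟩
          rw [hstab g] at h3
          exact h3⟩
      one_smul := fun y => Subtype.ext rfl
      mul_smul := fun g h y => Subtype.ext rfl }
  have hdvd : Nat.card (MulAction.stabilizer G B) ∣ (B.erase x).card := by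
    have h1 := aff_free (S := MulAction.stabilizer G B) (β := {y : Fin n // y ∈ B.erase x}) (by
      intro g y hgy
      have h2 : (g.1.1 : Equiv.Perm (Fin n)) y.1 = y.1 := congrArg Subtype.val hgy
      exact hone g y.1 (Finset.mem_erase.1 y.2).1 h2)
    have h3 : Nat.card {y : Fin n // y ∈ B.erase x} = (B.erase x).card := by
      rw [Nat.card_eq_fintype_card, Fintype.card_coe]
    rw [h3] at h1
    exact h1
  rw [hG]
  by_cases hxB : x ∈ B
  · right
    rw [Finset.card_erase_of_mem hxB, hBk] at hdvd
    exact Nat.mul_dvd_mul_left n hdvd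
  · left
    rw [Finset.erase_eq_of_notMem hxB, hBk] at hdvd
    exact Nat.mul_dvd_mul_left n hdvd

end Pool.Agent.Lib.HyS
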