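import Pool.Agent.Lib.HyS.Defs

/-!
# HyS, row Bas: cumulative sums

PROOF IN WORDS. Directly from the definition `cum v m = ∑ i, if i.val < m then v i else 0`
(`Finset.sum_ite`, `Finset.sum_comm`, `Finset.mul_sum`). `cmp`: put `d m = cum w m - cum v m`; it is
an integer (`cum_int`), `d 0 = 0`, `|d a - d b| ≤ 1`; so `d m ∈ {-1, 0, 1}`, and `1` and `-1` do not
both occur. `sorted_of_step`: then `d` has values in `{0,1}` only.
-/

namespace Pool.Agent.Lib.HyS

theorem cum_zero {n : ℕ} (v : Fin n → ℝ) : cum v 0 = 0 := by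
  unfold cum
  refine Finset.sum_eq_zero fun i _ => ?_
  rw [if_neg (Nat.not_lt_zero _)]

theorem cum_succ {n : ℕ} (v : Fin n → ℝ) (i : Fin n) :
    cum v (i.val + 1) = cum v i.val + v i := by
  classical
  have h1 : v i = ∑ j : Fin n, if j = i then v j else 0 := by
    rw [Finset.sum_ite_eq' Finset.univ i, if_pos (Finset.mem_univ _)]
  unfold cum
  rw [h1, ← Finset.sum_add_distrib]
  refine Finset.sum_congr rfl fun j _ => ?_
  by_cases h : j = i
  · rw [h, if_pos (Nat.lt_succ_self _), if_neg (lt_irrefl _), if_pos rfl, zero_add]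
  · have h2 : j.val ≠ i.val := fun h3 => h (Fin.ext h3)
    rw [if_neg h, add_zero]
    by_cases h3 : j.val < i.val
    · rw [if_pos h3, if_pos (by omega)]
    · rw [if_neg h3, if_neg (by omega)]

theorem cum_total {n : ℕ} (v : Fin n → ℝ) (m : ℕ) (hm : n ≤ m) : cum v m = ∑ i, v i := by
  unfold cum
  refine Finset.sum_congr rfl fun i _ => ?_
  rw [if_pos (lt_of_lt_of_le i.isLt hm)]

theorem cum_int {k n : ℕ} {v : Fin n → ℝ} (hv : IsVert k v) (m : ℕ) : ∃ z : ℤ, cum v m = z := by
  have h1 : ∀ i, ∃ z : ℤ, v i = z := by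
    intro i
    rcases hv.1 i with h | h
    · exact ⟨0, by rw [h, Int.cast_zero]⟩
    · exact ⟨1, by rw [h, Int.cast_one]⟩
  choose f hf using h1
  refine ⟨∑ i : Fin n, if i.val < m then f i else 0, ?_⟩
  unfold cum
  rw [Int.cast_sum]
  refine Finset.sum_congr rfl fun i _ => ?_
  split_ifs
  · exact hf i
  · rw [Int.cast_zero]

theorem cum_ext {n : ℕ} {v w : Fin n → ℝ} (h : ∀ m, cum v m = cum w m) : v = w := by
  funext i
  have h1 := cum_succ v i
  have h2 := cum_succ w i
  rw [h (i.val + 1), h i.val] at h1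
  linarith

theorem cum_lin {n : ℕ} (s : Finset (Fin n → ℝ)) (c : (Fin n → ℝ) → ℝ) (m : ℕ) :
    cum (∑ v ∈ s, c v • v) m = ∑ v ∈ s, c v * cum v m := by
  unfold cum
  have h1 : ∀ i : Fin n, (if i.val < m then (∑ v ∈ s, c v • v) i else 0) = ∑ v ∈ s, c v * (if i.val < m then v i else 0) := by
    intro i
    split_ifs
    · rw [Finset.sum_apply]
      rfl
    · rw [Finset.sum_eq_zero]
      intro v _
      rw [mul_zero]
  rw [Finset.sum_congr rfl fun i _ => h1 i, Finset.sum_comm]
  exact Finset.sum_congr rfl fun v _ => (Finset.mul_sum _ _ _).symm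

theorem cmp {k n : ℕ} {v w : Fin n → ℝ} (hv : IsVert k v) (hw : IsVert k w) (h : Sorted v w) :
    (∀ m, cum w m = cum v m ∨ cum w m = cum v m + 1) ∨
      (∀ m, cum v m = cum w m ∨ cum v m = cum w m + 1) := by
  choose zv hzv using cum_int hv
  choose zw hzw using cum_int hw
  have h0v : zv 0 = 0 := by
    have h1 := hzv 0
    rw [cum_zero] at h1
    exact_mod_cast h1.symm
  have h0w : zw 0 = 0 := by
    have h1 := hzw 0
    rw [cum_zero] at h1
    exact_mod_cast h1.symm
  have hZ : ∀ a b : ℕ, |(zv b - zv a) - (zw b - zw a)| ≤ 1 := by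
    intro a b
    have h1 := h a b
    rw [hzv, hzv, hzw, hzw] at h1
    exact_mod_cast h1
  by_cases hc : ∃ m, zw m < zv m
  · right
    obtain ⟨m0, hm0⟩ := hc
    intro m
    have h1 := abs_le.1 (hZ 0 m)
    have h2 := abs_le.1 (hZ m m0)
    have h3 : zv m = zw m ∨ zv m = zw m + 1 := by omega
    rw [hzv, hzw]
    rcases h3 with h3 | h3
    · left
      exact_mod_cast h3
    · right
      exact_mod_cast h3
  · left
    intro m
    have h1 := abs_le.1 (hZ 0 m)
    have h2 : ¬ zw m < zv m := fun h3 => hc ⟨m, h3⟩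
    have h3 : zw m = zv m ∨ zw m = zv m + 1 := by omega
    rw [hzv, hzw]
    rcases h3 with h3 | h3
    · left
      exact_mod_cast h3
    · right
      exact_mod_cast h3

theorem sorted_of_step {n : ℕ} {v w : Fin n → ℝ}
    (h : ∀ m, cum w m = cum v m ∨ cum w m = cum v m + 1) : Sorted v w := by
  intro a b
  rw [abs_le]
  rcases h a with h1 | h1 <;> rcases h b with h2 | h2 <;> constructor <;> linarith

theorem Sorted.symm {n : ℕ} {v w : Fin n → ℝ} (h : Sorted v w) : Sorted w v := by
  intro a b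
  rw [abs_sub_comm]
  exact h a b

end Pool.Agent.Lib.HyS
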