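import Mathlib

/-!
# HyS, row BurA: some power sum of a set of nonzero residues does not vanish

PROOF IN WORDS. Take `u0 ∈ D` and the polynomial `f = X * ∏ v ∈ D.erase u0, (X - C v)` over the
field `ZMod p`. It has degree `D.card` and constant coefficient `0` (factor `X`). Evaluate at the
elements of `D`: `f u = 0` for `u ∈ D`, `u ≠ u0`, and `f u0 ≠ 0` (`u0 ≠ 0` as `0 ∉ D`). So
`∑ u ∈ D, f.eval u = f.eval u0 ≠ 0`. On the other hand
`∑ u ∈ D, f.eval u = ∑ j ∈ range (natDegree + 1), f.coeff j * ∑ u ∈ D, u ^ j`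
(`Polynomial.eval_eq_sum_range`, `Finset.sum_comm`), and the term `j = 0` vanishes, so some
`j` with `1 ≤ j ≤ D.card` has `∑ u ∈ D, u ^ j ≠ 0`.
-/

namespace Pool.Agent.Lib.HyS

theorem exists_power_sum {p : ℕ} [Fact p.Prime] (D : Finset (ZMod p)) (hne : D.Nonempty)
    (h0 : (0 : ZMod p) ∉ D) : ∃ j, 1 ≤ j ∧ j ≤ D.card ∧ ∑ u ∈ D, u ^ j ≠ 0 := by
  classical
  obtain ⟨u0, hu0⟩ := hne
  by_contra hcon
  push Not at hcon
  set f : Polynomial (ZMod p) := Polynomial.X * ∏ v ∈ D.erase u0, (Polynomial.X - Polynomial.C v) with hf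
  have hdeg : f.natDegree ≤ D.card := by
    have h1 : (∏ v ∈ D.erase u0, (Polynomial.X - Polynomial.C v)).natDegree ≤ (D.erase u0).card := by
      refine (Polynomial.natDegree_prod_le _ _).trans ?_
      rw [Finset.sum_congr rfl fun v _ => Polynomial.natDegree_X_sub_C v, Finset.sum_const, smul_eq_mul, mul_one]
    have h2 : f.natDegree ≤ (Polynomial.X : Polynomial (ZMod p)).natDegree +
        (∏ v ∈ D.erase u0, (Polynomial.X - Polynomial.C v)).natDegree := Polynomial.natDegree_mul_le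
    rw [Polynomial.natDegree_X] at h2
    have h3 := Finset.card_erase_of_mem hu0
    have h4 := Finset.card_pos.2 ⟨u0, hu0⟩
    omega
  have hc0 : f.coeff 0 = 0 := by
    rw [hf, Polynomial.mul_coeff_zero, Polynomial.coeff_X_zero, zero_mul]
  have hS : ∑ u ∈ D, f.eval u = 0 := by
    have h1 : ∀ u ∈ D, f.eval u = ∑ j ∈ Finset.range (f.natDegree + 1), f.coeff j * u ^ j := fun u _ =>
      Polynomial.eval_eq_sum_range u
    rw [Finset.sum_congr rfl h1, Finset.sum_comm]
    refine Finset.sum_eq_zero fun j hj => ?_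
    rw [← Finset.mul_sum]
    rw [Finset.mem_range] at hj
    rcases Nat.eq_zero_or_pos j with h | h
    · rw [h, hc0, zero_mul]
    · rw [hcon j h (by omega), mul_zero]
  have hE : ∑ u ∈ D, f.eval u = f.eval u0 := by
    refine Finset.sum_eq_single u0 (fun u hu hne => ?_) (fun h => absurd hu0 h)
    rw [hf, Polynomial.eval_mul, Polynomial.eval_prod]
    rw [Finset.prod_eq_zero (Finset.mem_erase.2 ⟨hne, hu⟩), mul_zero]
    rw [Polynomial.eval_sub, Polynomial.eval_X, Polynomial.eval_C, sub_self]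
  have hN : f.eval u0 ≠ 0 := by
    rw [hf, Polynomial.eval_mul, Polynomial.eval_X, Polynomial.eval_prod]
    refine mul_ne_zero (fun h => h0 (h ▸ hu0)) (Finset.prod_ne_zero_iff.2 fun v hv => ?_)
    rw [Polynomial.eval_sub, Polynomial.eval_X, Polynomial.eval_C]
    exact sub_ne_zero.2 (Finset.ne_of_mem_erase hv).symm
  exact hN (hE ▸ hS)

end Pool.Agent.Lib.HyS
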