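import Mathlib

/-!
# HyS, row BurB: the difference operator of a set lowers the degree by exactly `m`

PROOF IN WORDS. Let `s j = ∑ u ∈ D, u ^ j`. For a monomial,
`(X + C u)^d - X^d = ∑ j ∈ {1..d}, choose d j * u^j * X^(d-j)`, so for `f` of degree `d`
`opE D f = ∑ j ≥ 1, s j • hasseDeriv j f` (`Polynomial.taylor`, `Polynomial.taylor_coeff`:
the coefficient of `X^i` in `f.comp (X + C u)` is `∑ (e ≥ i), f.coeff e * choose e i * u^(e-i)`, so
the coefficient of `X^i` in `opE D f` is `∑ (e > i), f.coeff e * choose e i * s (e - i)`). As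
`s j = 0` for `1 ≤ j < m`: if `natDegree f < m` all terms vanish. If `m ≤ d = natDegree f < p`: the
coefficient of `X^i` vanishes for `i > d - m` (then `e - i < m`), and the coefficient of `X^(d-m)` is
`f.coeff d * choose d m * s m ≠ 0`, because `p` does not divide `choose d m` for `d < p`
(`Nat.Prime.dvd_choose...` / `d! ` is prime to `p`).
-/

namespace Pool.Agent.Lib.HyS

open Polynomial

/-- The difference operator of the set `D`. -/
noncomputable def opE {p : ℕ} (D : Finset (ZMod p)) (f : (ZMod p)[X]) : (ZMod p)[X] :=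
  ∑ u ∈ D, (f.comp (X + C u) - f)

private theorem burb_hasse {p : ℕ} (f : (ZMod p)[X]) (i : ℕ) (r : ZMod p) :
    (hasseDeriv i f).eval r = ∑ e ∈ Finset.range (f.natDegree + 1), (e.choose i : ZMod p) * f.coeff e * r ^ (e - i) := by
  rw [hasseDeriv_apply, sum_over_range _ (fun n => by rw [mul_zero, monomial_zero_right]), eval_finsetSum]
  refine Finset.sum_congr rfl fun e _ => ?_
  rw [eval_monomial]

private theorem burb_one {p : ℕ} (f : (ZMod p)[X]) (i : ℕ) (u : ZMod p) :
    (f.comp (X + C u) - f).coeff i =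
      ∑ e ∈ Finset.range (f.natDegree + 1), if i < e then (e.choose i : ZMod p) * f.coeff e * u ^ (e - i) else 0 := by
  rw [coeff_sub, ← taylor_apply, taylor_coeff, burb_hasse, sub_eq_iff_eq_add]
  have h1 : f.coeff i = ∑ e ∈ Finset.range (f.natDegree + 1), if e = i then f.coeff e else 0 := by
    rw [Finset.sum_ite_eq' (Finset.range (f.natDegree + 1)) i f.coeff]
    split_ifs with h
    · rfl
    · rw [Finset.mem_range, not_lt] at h
      exact coeff_eq_zero_of_natDegree_lt (by omega)
  rw [h1, ← Finset.sum_add_distrib]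
  refine Finset.sum_congr rfl fun e _ => ?_
  rcases lt_trichotomy e i with h | h | h
  · rw [if_neg (by omega), if_neg (by omega), Nat.choose_eq_zero_of_lt h]
    simp
  · rw [if_neg (by omega), if_pos h, h, Nat.choose_self, Nat.sub_self]
    simp
  · rw [if_pos h, if_neg (by omega), add_zero]

private theorem burb_coeff {p : ℕ} (D : Finset (ZMod p)) (f : (ZMod p)[X]) (i : ℕ) :
    (opE D f).coeff i =
      ∑ e ∈ Finset.range (f.natDegree + 1), if i < e then (e.choose i : ZMod p) * f.coeff e * ∑ u ∈ D, u ^ (e - i) else 0 := by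
  unfold opE
  rw [finsetSum_coeff]
  simp only [burb_one]
  rw [Finset.sum_comm]
  refine Finset.sum_congr rfl fun e _ => ?_
  split_ifs
  · rw [Finset.mul_sum]
  · exact Finset.sum_const_zero

theorem opE_eq_zero {p : ℕ} [Fact p.Prime] (D : Finset (ZMod p)) (m : ℕ) (hm : 1 ≤ m)
    (hs : ∀ j, 1 ≤ j → j < m → ∑ u ∈ D, u ^ j = 0) (f : (ZMod p)[X]) (hf : f.natDegree < m) :
    opE D f = 0 := by
  ext i
  rw [burb_coeff, coeff_zero]
  refine Finset.sum_eq_zero fun e he => ?_
  rw [Finset.mem_range] at he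
  split_ifs with h
  · rw [hs (e - i) (by omega) (by omega), mul_zero]
  · rfl

theorem opE_degree {p : ℕ} [Fact p.Prime] (D : Finset (ZMod p)) (m : ℕ) (hm : 1 ≤ m)
    (hs : ∀ j, 1 ≤ j → j < m → ∑ u ∈ D, u ^ j = 0) (hsm : ∑ u ∈ D, u ^ m ≠ 0)
    (f : (ZMod p)[X]) (hf : m ≤ f.natDegree) (hfp : f.natDegree < p) :
    opE D f ≠ 0 ∧ (opE D f).natDegree = f.natDegree - m := by
  have hf0 : f ≠ 0 := by
    rintro rfl
    rw [natDegree_zero] at hf
    omega
  have h1 : (opE D f).coeff (f.natDegree - m) =
      (f.natDegree.choose (f.natDegree - m) : ZMod p) * f.leadingCoeff * ∑ u ∈ D, u ^ m := by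
    rw [burb_coeff, Finset.sum_eq_single f.natDegree]
    · rw [if_pos (by omega), show f.natDegree - (f.natDegree - m) = m by omega, leadingCoeff]
    · intro e he hne
      rw [Finset.mem_range] at he
      split_ifs with h
      · rw [hs _ (by omega) (by omega), mul_zero]
      · rfl
    · intro h
      exact absurd (Finset.mem_range.2 (Nat.lt_succ_self _)) h
  have h2 : (f.natDegree.choose (f.natDegree - m) : ZMod p) ≠ 0 := by
    intro h
    rw [ZMod.natCast_eq_zero_iff] at h
    have h3 : p ∣ f.natDegree.factorial := by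
      rw [← Nat.choose_mul_factorial_mul_factorial (Nat.sub_le f.natDegree m), mul_assoc]
      exact Dvd.dvd.mul_right h _
    rw [(Fact.out : p.Prime).dvd_factorial] at h3
    omega
  have h3 : (opE D f).coeff (f.natDegree - m) ≠ 0 := by
    rw [h1]
    exact mul_ne_zero (mul_ne_zero h2 (leadingCoeff_ne_zero.2 hf0)) hsm
  refine ⟨fun h => h3 (by rw [h, coeff_zero]), natDegree_eq_of_le_of_coeff_ne_zero ?_ h3⟩
  rw [natDegree_le_iff_coeff_eq_zero]
  intro i hi
  rw [burb_coeff]
  refine Finset.sum_eq_zero fun e he => ?_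
  rw [Finset.mem_range] at he
  split_ifs with h
  · rw [hs (e - i) (by omega) (by omega), mul_zero]
  · rfl

end Pool.Agent.Lib.HyS
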