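import Pool.Agent.Lib.HyS.BurA
import Pool.Agent.Lib.HyS.BurB

/-!
# HyS, row BurC: a permutation of `ZMod p` preserving the differences in a proper set is affine
(Schur, Burnside; the proof of P. Mueller)

PROOF IN WORDS. STEP 0. `g` maps the pairs with difference in `D` injectively to themselves, so
bijectively (finite); so differences not in `D` go to differences not in `D`, and as `g` is
injective, the set `D' = {v ≠ 0 | v ∉ D}` (nonempty, proper) has the same property. One of `D`, `D'`
has at most `(p-1)/2` elements, so we may assume `2 * D.card ≤ p - 1`.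
STEP 1. Let `m` be the least `j ≥ 1` with `∑ u ∈ D, u ^ j ≠ 0`; by `exists_power_sum`
`m ≤ D.card`, so `2 * m ≤ p - 1`.
STEP 2. For every function `φ : ZMod p → ZMod p` and every `x`:
`∑ u ∈ D, φ (g (x + u)) = ∑ d ∈ D, φ (g x + d)`, since `u ↦ g (x + u) - g x` is an injective map
from `D` to `D`, so a bijection.
STEP 3. Let `h` be the polynomial with `h.natDegree < p` and `h.eval x = g x` for all `x`
(`Lagrange.interpolate` over `Finset.univ`, or any version). For `f` a polynomial and
`F = f.comp h`: by step 2 `(opE D F).eval x = (opE D f).eval (g x)` for all `x`; here, if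
`f.natDegree * h.natDegree < p`, all polynomials have degree `< p` and vanish iff they vanish at all
points (`Polynomial.eq_zero_of_natDegree_lt_card_of_eval_eq_zero'` or `card_roots`).
STEP 4. `h` has degree `≤ 1`. Suppose `e = h.natDegree ≥ 2`. If `m = 1`: `opE D X` has degree `0`
(`opE_degree`), it is a constant `c`; so `(opE D h).eval x = c` for all `x`, so `opE D h = C c` has
degree `0`, but by `opE_degree` its degree is `e - 1 ≥ 1`. If `m ≥ 2`: `opE D X = 0`
(`opE_eq_zero`), so `opE D h = 0` and therefore `e < m` (`opE_degree`); let `i` be the least number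
with `m ≤ i * e`: `i * e < m + e < 2 m < p` and `i < m` (`e ≥ 2`, `m ≥ 3`); `opE D (X^i) = 0`
(`opE_eq_zero`), so `opE D (h^i) = 0` by step 3, but `h^i` has degree `i * e` with `m ≤ i * e < p`,
contradiction to `opE_degree`.
STEP 5. `h = C a * X + C b`.
-/

namespace Pool.Agent.Lib.HyS

open Polynomial

private theorem burc_image {p : ℕ} [Fact p.Prime] (D : Finset (ZMod p)) (g : Equiv.Perm (ZMod p))
    (hg : ∀ x y, x - y ∈ D → g x - g y ∈ D) (x : ZMod p) :
    D.image (fun u => g (x + u) - g x) = D := by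
  refine Finset.eq_of_subset_of_card_le ?_ ?_
  · intro v hv
    obtain ⟨u, hu, rfl⟩ := Finset.mem_image.1 hv
    refine hg _ _ ?_
    rw [add_sub_cancel_left]
    exact hu
  · rw [Finset.card_image_of_injective]
    intro u v huv
    have h1 : g (x + u) = g (x + v) := by
      have h2 : g (x + u) - g x = g (x + v) - g x := huv
      exact sub_left_injective h2
    exact add_left_cancel (g.injective h1)

private theorem burc_sum {p : ℕ} [Fact p.Prime] (D : Finset (ZMod p)) (g : Equiv.Perm (ZMod p))
    (hg : ∀ x y, x - y ∈ D → g x - g y ∈ D) (φ : ZMod p → ZMod p) (x : ZMod p) :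
    ∑ u ∈ D, φ (g (x + u)) = ∑ d ∈ D, φ (g x + d) := by
  conv_rhs => rw [← burc_image D g hg x]
  rw [Finset.sum_image]
  · refine Finset.sum_congr rfl fun u _ => ?_
    rw [add_sub_cancel]
  · intro u _ v _ huv
    have h1 : g (x + u) = g (x + v) := by
      have h2 : g (x + u) - g x = g (x + v) - g x := huv
      exact sub_left_injective h2
    exact add_left_cancel (g.injective h1)

private theorem burc_eval {p : ℕ} (D : Finset (ZMod p)) (f : (ZMod p)[X]) (x : ZMod p) :
    (opE D f).eval x = ∑ u ∈ D, f.eval (x + u) - ∑ u ∈ D, f.eval x := by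
  unfold opE
  rw [eval_finsetSum, ← Finset.sum_sub_distrib]
  refine Finset.sum_congr rfl fun u _ => ?_
  rw [eval_sub, eval_comp, eval_add, eval_X, eval_C]

private theorem burc_key {p : ℕ} [Fact p.Prime] (D : Finset (ZMod p)) (g : Equiv.Perm (ZMod p))
    (hg : ∀ x y, x - y ∈ D → g x - g y ∈ D) (f F : (ZMod p)[X]) (hF : ∀ x, F.eval x = f.eval (g x)) (x : ZMod p) :
    (opE D F).eval x = (opE D f).eval (g x) := by
  rw [burc_eval, burc_eval, ← burc_sum D g hg (fun y => f.eval y) x]
  simp only [hF]

private theorem burc_zero {p : ℕ} [Fact p.Prime] (q : (ZMod p)[X]) (hq : q.natDegree < p)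
    (h : ∀ x, q.eval x = 0) : q = 0 := by
  refine eq_zero_of_natDegree_lt_card_of_eval_eq_zero' q Finset.univ (fun x _ => h x) ?_
  rw [Finset.card_univ, ZMod.card]
  exact hq

private theorem burc_small {p : ℕ} [Fact p.Prime] (D : Finset (ZMod p)) (hne : D.Nonempty)
    (h0 : (0 : ZMod p) ∉ D) (hsm : 2 * D.card < p) (g : Equiv.Perm (ZMod p))
    (hg : ∀ x y, x - y ∈ D → g x - g y ∈ D) : ∃ a b : ZMod p, ∀ x, g x = a * x + b := by
  classical
  -- the least exponent with a nonzero power sum
  have hex : ∃ j, 1 ≤ j ∧ ∑ u ∈ D, u ^ j ≠ 0 := by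
    obtain ⟨j, h1, -, h3⟩ := exists_power_sum D hne h0
    exact ⟨j, h1, h3⟩
  obtain ⟨m, hm1, hms, hmin, hmD⟩ : ∃ m, 1 ≤ m ∧ ∑ u ∈ D, u ^ m ≠ 0 ∧
      (∀ j, 1 ≤ j → j < m → ∑ u ∈ D, u ^ j = 0) ∧ m ≤ D.card := by
    refine ⟨Nat.find hex, (Nat.find_spec hex).1, (Nat.find_spec hex).2, fun j h1 h2 => ?_, ?_⟩
    · by_contra h3
      exact Nat.find_min hex h2 ⟨h1, h3⟩
    · obtain ⟨j, h1, h2, h3⟩ := exists_power_sum D hne h0
      exact (Nat.find_min' hex ⟨h1, h3⟩).trans h2
  have h2m : 2 * m < p := by omega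
  -- the polynomial
  obtain ⟨h, hh, hdeg⟩ : ∃ h : (ZMod p)[X], (∀ x, h.eval x = g x) ∧ h.natDegree < p := by
    refine ⟨Lagrange.interpolate Finset.univ id (fun x => g x), fun x => ?_, ?_⟩
    · exact Lagrange.eval_interpolate_at_node (fun x => g x) (Function.injective_id.injOn) (Finset.mem_univ x)
    · have h1 := Lagrange.degree_interpolate_lt (s := (Finset.univ : Finset (ZMod p))) (v := id) (fun x => g x)
        (Function.injective_id.injOn)
      rw [Finset.card_univ, ZMod.card] at h1
      by_cases h2 : Lagrange.interpolate Finset.univ id (fun x => g x) = 0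
      · rw [h2, natDegree_zero]
        exact (Fact.out : p.Prime).pos
      · exact (natDegree_lt_iff_degree_lt h2).2 h1
  have hX : ∀ x, h.eval x = (X : (ZMod p)[X]).eval (g x) := fun x => by rw [hh, eval_X]
  -- the degree of `opE`
  have hdop : ∀ F : (ZMod p)[X], F.natDegree < p → (opE D F).natDegree < p := by
    intro F hF
    rcases lt_or_ge F.natDegree m with h1 | h1
    · rw [opE_eq_zero D m hm1 hmin F h1, natDegree_zero]
      exact (Fact.out : p.Prime).pos
    · rw [(opE_degree D m hm1 hmin hms F h1 hF).2]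
      omega
  have hle : h.natDegree ≤ 1 := by
    by_contra hcon
    push Not at hcon
    rcases Nat.eq_or_lt_of_le hm1 with h1 | h1
    · -- `m = 1`
      subst h1
      obtain ⟨-, h3⟩ := opE_degree D 1 le_rfl hmin hms (X : (ZMod p)[X]) (by rw [natDegree_X])
        (by rw [natDegree_X]; omega)
      rw [natDegree_X] at h3
      obtain ⟨c, hc⟩ : ∃ c, opE D X = C c := ⟨_, eq_C_of_natDegree_eq_zero h3⟩
      have h4 : opE D h - C c = 0 := by
        refine burc_zero _ ?_ fun x => ?_
        · rw [natDegree_sub_C]; exact hdop h hdeg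
        · rw [eval_sub, burc_key D g hg X h hX x, hc, eval_C, eval_C, sub_self]
      obtain ⟨-, h5⟩ := opE_degree D 1 le_rfl hmin hms h (by omega) hdeg
      rw [sub_eq_zero.1 h4, natDegree_C] at h5
      omega
    · -- `m ≥ 2`
      have h3 : opE D (X : (ZMod p)[X]) = 0 := opE_eq_zero D m hm1 hmin X (by rw [natDegree_X]; omega)
      have h4 : opE D h = 0 := by
        refine burc_zero _ (hdop h hdeg) fun x => ?_
        rw [burc_key D g hg X h hX x, h3, eval_zero]
      have h5 : h.natDegree < m := by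
        by_contra h6
        exact (opE_degree D m hm1 hmin hms h (by omega) hdeg).1 h4
      set e := h.natDegree with he
      obtain ⟨i, hi1, hi2⟩ : ∃ i, m ≤ i * e ∧ i * e < m + e := by
        refine ⟨(m + e - 1) / e, ?_, ?_⟩
        · have h6 := Nat.div_add_mod (m + e - 1) e
          have h7 := Nat.mod_lt (m + e - 1) (show e > 0 by omega)
          rw [mul_comm] at h6
          omega
        · have h6 := Nat.div_mul_le_self (m + e - 1) e
          omega
      have him : i < m := by
        by_contra h6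
        push Not at h6
        have h7 : m * e ≤ i * e := Nat.mul_le_mul_right _ h6
        obtain ⟨m', rfl⟩ : ∃ m', m = m' + 2 := ⟨m - 2, by omega⟩
        obtain ⟨e', he'⟩ : ∃ e', e = e' + 2 := ⟨e - 2, by omega⟩
        rw [he'] at h7 hi2
        nlinarith
      have hd : (h ^ i).natDegree = i * e := natDegree_pow h i
      have h6 : opE D (h ^ i) = 0 := by
        refine burc_zero _ (hdop _ (by rw [hd]; omega)) fun x => ?_
        rw [burc_key D g hg (X ^ i) (h ^ i) (fun x => by rw [eval_pow, eval_pow, hh, eval_X]) x,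
          opE_eq_zero D m hm1 hmin (X ^ i) (by rw [natDegree_X_pow]; exact him), eval_zero]
      exact (opE_degree D m hm1 hmin hms (h ^ i) (by rw [hd]; exact hi1) (by rw [hd]; omega)).1 h6
  obtain ⟨a, b, hab⟩ := exists_eq_X_add_C_of_natDegree_le_one hle
  refine ⟨a, b, fun x => ?_⟩
  rw [← hh x, hab, eval_add, eval_mul, eval_C, eval_X, eval_C]

theorem affine_of_preserves {p : ℕ} [Fact p.Prime] (D : Finset (ZMod p)) (hne : D.Nonempty)
    (h0 : (0 : ZMod p) ∉ D) (hproper : ∃ v : ZMod p, v ≠ 0 ∧ v ∉ D) (g : Equiv.Perm (ZMod p))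
    (hg : ∀ x y, x - y ∈ D → g x - g y ∈ D) : ∃ a b : ZMod p, ∀ x, g x = a * x + b := by
  classical
  rcases lt_or_ge (2 * D.card) p with hs | hs
  · exact burc_small D hne h0 hs g hg
  · -- the complement
    obtain ⟨v, hv0, hvD⟩ := hproper
    set D' : Finset (ZMod p) := (Finset.univ.erase 0) \ D with hD'
    have hmem : ∀ u, u ∈ D' ↔ u ≠ 0 ∧ u ∉ D := fun u => by
      rw [hD', Finset.mem_sdiff, Finset.mem_erase]
      simp
    have hsub : D ⊆ Finset.univ.erase 0 := fun u hu =>
      Finset.mem_erase.2 ⟨fun h => h0 (h ▸ hu), Finset.mem_univ _⟩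
    have hcard : D'.card = p - 1 - D.card := by
      rw [hD', Finset.card_sdiff_of_subset hsub, Finset.card_erase_of_mem (Finset.mem_univ _), Finset.card_univ,
        ZMod.card]
    have hp := (Fact.out : p.Prime).pos
    refine burc_small D' ⟨v, (hmem v).2 ⟨hv0, hvD⟩⟩ (fun h => ((hmem 0).1 h).1 rfl) (by omega) g ?_
    intro x y hxy
    rw [hmem] at hxy ⊢
    refine ⟨fun h => hxy.1 ?_, fun h => hxy.2 ?_⟩
    · rw [g.injective (sub_eq_zero.1 h), sub_self]
    · rw [← burc_image D g hg y] at h
      obtain ⟨u, hu, hu2⟩ := Finset.mem_image.1 h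
      have h3 : y + u = x := g.injective (sub_left_injective hu2)
      rw [← h3, add_sub_cancel_left]
      exact hu

end Pool.Agent.Lib.HyS
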