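import Pool.Agent.Lib.HyS.Defs
import Pool.Agent.Lib.HyS.BurC

/-!
# HyS, row BurD: Burnside's theorem on transitive groups of prime degree

PROOF IN WORDS. `n` divides `|G|` (orbit-stabiliser, `G` transitive on `n` points), so by Cauchy
(`exists_prime_orderOf_dvd_card`) `G` has an element `τ` of order `n`. As `n` is prime, the orbits
of `⟨τ⟩` have length `1` or `n`, and one of them is longer than `1`, so `⟨τ⟩` is transitive (or:
`τ` is an `n`-cycle, `Equiv.Perm.isCycle_of_prime_order'` or similar, with full support). Choose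
`x0` and define `ρ : Fin n ≃ ZMod n` with `ρ ((τ ^ i) x0) = i`; so `ρ (τ x) = ρ x + 1` and
`ρ ((τ ^ i) x) = ρ x + i`. Not two-transitive: there are `a ≠ b`, `c ≠ d` such that no `σ ∈ G` has
`σ a = c`, `σ b = d`. Let `D = {ρ (σ a) - ρ (σ b) | σ ∈ G}` (filter of `univ`). `0 ∉ D`,
`D` nonempty; `ρ c - ρ d` is nonzero and not in `D`: if `ρ c - ρ d = ρ (σ a) - ρ (σ b)`, then with
`i = ρ d - ρ (σ b)` the element `τ ^ i * σ` maps `a` to `c` and `b` to `d`. Every `σ' ∈ G`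
preserves `D`: if `ρ x - ρ y = ρ (σ a) - ρ (σ b)` then `x = (τ^i σ) a`, `y = (τ^i σ) b` for some
`i`, so `ρ (σ' x) - ρ (σ' y) ∈ D`. Apply `affine_of_preserves` to `ρ ∘ σ' ∘ ρ⁻¹`
(`Fact n.Prime` from `hn`).
-/

namespace Pool.Agent.Lib.HyS

private theorem exists_cyc {n : ℕ} (hn : n.Prime) (G : Subgroup (Equiv.Perm (Fin n)))
    (htr : MulAction.IsPretransitive G (Fin n)) :
    ∃ ρ : Fin n ≃ ZMod n, ∃ τ ∈ G, ∀ i, ρ (τ i) = ρ i + 1 := by
  classical
  have : Fact n.Prime := ⟨hn⟩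
  have : NeZero n := ⟨hn.ne_zero⟩
  obtain ⟨x0, -⟩ : ∃ x0 : Fin n, True := ⟨⟨0, hn.pos⟩, trivial⟩
  have hdvd : n ∣ Nat.card G := by
    have h1 := MulAction.card_orbit_mul_card_stabilizer_eq_card_group G x0
    have h2 : Fintype.card (MulAction.orbit G x0) = n := by
      have h3 : MulAction.orbit G x0 = Set.univ := MulAction.orbit_eq_univ G x0
      have h4 : Nat.card (MulAction.orbit G x0) = n := by
        rw [h3, Nat.card_univ, Nat.card_eq_fintype_card, Fintype.card_fin]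
      rw [← Nat.card_eq_fintype_card]
      exact h4
    rw [h2] at h1
    rw [Nat.card_eq_fintype_card]
    exact ⟨_, h1.symm⟩
  obtain ⟨τG, hτG⟩ := exists_prime_orderOf_dvd_card' n hdvd
  obtain ⟨τ, hτ⟩ : ∃ τ : Equiv.Perm (Fin n), τ = τG := ⟨_, rfl⟩
  have hτG' : τ ∈ G := by
    rw [hτ]
    exact τG.2
  have hord : orderOf τ = n := by
    rw [hτ, Subgroup.orderOf_coe]
    exact hτG
  have hcyc : τ.IsCycle := by
    apply Equiv.Perm.isCycle_of_prime_order'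
    · rw [hord]
      exact hn
    · rw [hord, Fintype.card_fin]
      have := hn.pos
      omega
  have hsupp : τ.support = Finset.univ := by
    apply Finset.eq_of_subset_of_card_le (Finset.subset_univ _)
    rw [← hcyc.orderOf, hord, Finset.card_univ, Fintype.card_fin]
  have hmove : ∀ x, τ x ≠ x := by
    intro x
    rw [← Equiv.Perm.mem_support, hsupp]
    exact Finset.mem_univ x
  obtain ⟨ψ, hψ⟩ : ∃ ψ : ZMod n → Fin n, ψ = fun i => (τ ^ i.val) x0 := ⟨_, rfl⟩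
  have hψk : ∀ k : ℕ, ψ (k : ZMod n) = (τ ^ k) x0 := by
    intro k
    rw [hψ]
    simp only
    rw [ZMod.val_natCast]
    have h1 := pow_mod_orderOf τ k
    rw [hord] at h1
    rw [h1]
  have hψ1 : ∀ i, ψ (i + 1) = τ (ψ i) := by
    intro i
    have h1 : i + 1 = ((i.val + 1 : ℕ) : ZMod n) := by
      rw [Nat.cast_add, Nat.cast_one, ZMod.natCast_zmod_val]
    have h2 : ψ i = (τ ^ i.val) x0 := by rw [hψ]
    rw [h1, hψk, h2, pow_succ', Equiv.Perm.mul_apply]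
  have hsurj : Function.Surjective ψ := by
    intro y
    obtain ⟨i, hi⟩ := hcyc.exists_pow_eq (hmove x0) (hmove y)
    exact ⟨(i : ZMod n), by rw [hψk, hi]⟩
  have hbij : Function.Bijective ψ :=
    (Fintype.bijective_iff_surjective_and_card ψ).2 ⟨hsurj, by rw [ZMod.card, Fintype.card_fin]⟩
  refine ⟨(Equiv.ofBijective ψ hbij).symm, τ, hτG', fun i => ?_⟩
  rw [Equiv.symm_apply_eq]
  change τ i = ψ (_ + 1)
  rw [hψ1]
  congr 1
  exact (Equiv.apply_symm_apply (Equiv.ofBijective ψ hbij) i).symm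

theorem prime_degree {n : ℕ} (hn : n.Prime) (G : Subgroup (Equiv.Perm (Fin n)))
    (htr : MulAction.IsPretransitive G (Fin n)) (h2 : ¬ TwoTransitive G) :
    ∃ ρ : Fin n ≃ ZMod n, (∃ τ ∈ G, ∀ i, ρ (τ i) = ρ i + 1) ∧
      ∀ σ ∈ G, ∃ a b : ZMod n, ∀ i, ρ (σ i) = a * ρ i + b := by
  classical
  have : Fact n.Prime := ⟨hn⟩
  have : NeZero n := ⟨hn.ne_zero⟩
  obtain ⟨ρ, τ, hτ, hρ1⟩ := exists_cyc hn G htr
  refine ⟨ρ, ⟨τ, hτ, hρ1⟩, ?_⟩
  have hρk : ∀ (k : ℕ) (x : Fin n), ρ ((τ ^ k) x) = ρ x + k := by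
    intro k
    induction k with
    | zero =>
      intro x
      rw [pow_zero, Equiv.Perm.one_apply, Nat.cast_zero, add_zero]
    | succ k ih =>
      intro x
      rw [pow_succ', Equiv.Perm.mul_apply, hρ1, ih, Nat.cast_add, Nat.cast_one]
      ring
  have hshift : ∀ i : ZMod n, ∃ τ' ∈ G, ∀ x, ρ (τ' x) = ρ x + i := by
    intro i
    refine ⟨τ ^ i.val, G.pow_mem hτ _, fun x => ?_⟩
    rw [hρk, ZMod.natCast_zmod_val]
  unfold TwoTransitive at h2
  push Not at h2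
  obtain ⟨a, b, c, d, hab, hcd, hno⟩ := h2
  obtain ⟨D, hD⟩ : ∃ D : Finset (ZMod n), ∀ u, u ∈ D ↔ ∃ σ ∈ G, ρ (σ a) - ρ (σ b) = u :=
    ⟨Finset.univ.filter (fun u => ∃ σ ∈ G, ρ (σ a) - ρ (σ b) = u), fun u => by simp⟩
  have hne : D.Nonempty := ⟨ρ a - ρ b, (hD _).2 ⟨1, G.one_mem, rfl⟩⟩
  have h0 : (0 : ZMod n) ∉ D := by
    intro h
    obtain ⟨σ, -, h1⟩ := (hD _).1 h
    exact hab (σ.injective (ρ.injective (sub_eq_zero.1 h1)))
  have hproper : ∃ v : ZMod n, v ≠ 0 ∧ v ∉ D := by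
    refine ⟨ρ c - ρ d, fun h => hcd (ρ.injective (sub_eq_zero.1 h)), fun h => ?_⟩
    obtain ⟨σ, hσ, h1⟩ := (hD _).1 h
    obtain ⟨τ', hτ', h3⟩ := hshift (ρ c - ρ (σ a))
    refine hno (τ' * σ) (G.mul_mem hτ' hσ) ?_ ?_
    · apply ρ.injective
      rw [Equiv.Perm.mul_apply, h3]
      ring
    · apply ρ.injective
      rw [Equiv.Perm.mul_apply, h3]
      linear_combination -h1
  intro σ' hσ'
  have hg : ∀ x y, x - y ∈ D →
      (ρ.symm.trans (Equiv.trans σ' ρ)) x - (ρ.symm.trans (Equiv.trans σ' ρ)) y ∈ D := by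
    intro x y hxy
    obtain ⟨σ, hσ, h1⟩ := (hD _).1 hxy
    obtain ⟨τ', hτ', h3⟩ := hshift (x - ρ (σ a))
    have e1 : ρ.symm x = τ' (σ a) := by
      rw [Equiv.symm_apply_eq, h3]
      ring
    have e2 : ρ.symm y = τ' (σ b) := by
      rw [Equiv.symm_apply_eq, h3]
      linear_combination h1
    refine (hD _).2 ⟨σ' * (τ' * σ), G.mul_mem hσ' (G.mul_mem hτ' hσ), ?_⟩
    change ρ (σ' (τ' (σ a))) - ρ (σ' (τ' (σ b))) = ρ (σ' (ρ.symm x)) - ρ (σ' (ρ.symm y))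
    rw [e1, e2]
  obtain ⟨α, β, h⟩ := affine_of_preserves D hne h0 hproper (ρ.symm.trans (Equiv.trans σ' ρ)) hg
  refine ⟨α, β, fun i => ?_⟩
  have h1 := h (ρ i)
  rw [← h1]
  change _ = ρ (σ' (ρ.symm (ρ i)))
  rw [Equiv.symm_apply_apply]

end Pool.Agent.Lib.HyS
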