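import Pool.Agent.Lib.HyS.Defs

/-!
# HyS, row Com: equivariant linear maps of a 2-transitive group

PROOF IN WORDS. The `n` linearly independent vectors `ind I`, `I ∈ D`, are a basis of `Fin n → ℝ`
(`basisOfLinearIndependentOfCardEqFinrank`). For `I ∈ D` choose `s I ∈ G` with `B.map (s I) = I`
(`htr`), and let `A` be the linear map with `A (ind I) = ind (C.map (s I))` (`Basis.constr`).
(1) For `g ∈ G`: `A (permute g x) = permute g (A x)` for all `x`: both sides are linear in `x`, so
it is enough to take `x = ind I` (`Basis.ext`): `permute g (ind I) = ind (I.map g)`, and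
`(s (I.map g))⁻¹ * g * s I` is in `G` and fixes `B`, so it fixes `C`, that is
`C.map (s (I.map g)) = (C.map (s I)).map g`.
(2) Let `a i j = A (e_j) i` (`e_j = Pi.single j 1`, `permute g (e_j) = e_(g j)`). By (1)
`a (g i) (g j) = a i j`. By two-transitivity `a i j = β` for all `i ≠ j` and `a i i = α'` for all
`i` (if `n = 1` trivial; else use a second point). So `A x = (α' - β) x + β (∑ j, x j) 1`
(`x = ∑ x j • e_j`, e.g. `pi_eq_sum_univ`).
(3) `s B` fixes `B`, so it fixes `C`: `A (ind B) = ind C`, and (2) gives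
`ind C i = (α' - β) ind B i + β |B|`.
-/

namespace Pool.Agent.Lib.HyS

private theorem com_map_mul {n : ℕ} (σ τ : Equiv.Perm (Fin n)) (S : Finset (Fin n)) :
    S.map (σ * τ).toEmbedding = (S.map τ.toEmbedding).map σ.toEmbedding := by
  ext x
  rw [Finset.mem_map_equiv, Finset.mem_map_equiv, Finset.mem_map_equiv]
  rfl

private theorem com_ind_map {n : ℕ} (σ : Equiv.Perm (Fin n)) (S : Finset (Fin n)) :
    LinearMap.funLeft ℝ ℝ σ.symm (ind S) = ind (S.map σ.toEmbedding) := by
  funext i
  show ind S (σ.symm i) = _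
  unfold ind
  simp only [Finset.mem_map_equiv]

theorem commute {n : ℕ} {G : Subgroup (Equiv.Perm (Fin n))} (hG : TwoTransitive G)
    (D : Finset (Finset (Fin n))) (hn : D.card = n)
    (hlin : LinearIndependent ℝ (fun I : D => ind (I : Finset (Fin n))))
    (hinv : ∀ σ ∈ G, ∀ I ∈ D, I.map σ.toEmbedding ∈ D) (B : Finset (Fin n)) (hB : B ∈ D)
    (htr : ∀ I ∈ D, ∃ σ ∈ G, B.map σ.toEmbedding = I) (C : Finset (Fin n))
    (hC : ∀ σ ∈ G, B.map σ.toEmbedding = B → C.map σ.toEmbedding = C) :
    ∃ α β : ℝ, ∀ i, ind C i = α * ind B i + β := by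
  classical
  have : Nonempty D := ⟨⟨B, hB⟩⟩
  let b : Module.Basis D ℝ (Fin n → ℝ) := basisOfLinearIndependentOfCardEqFinrank hlin
    (by rw [Fintype.card_coe, hn, Module.finrank_fintype_fun_eq_card, Fintype.card_fin])
  have hb : ∀ I : D, b I = ind (I : Finset (Fin n)) := fun I => by
    simp only [b, coe_basisOfLinearIndependentOfCardEqFinrank]
  have htr' : ∀ I : D, ∃ σ : Equiv.Perm (Fin n), σ ∈ G ∧ B.map σ.toEmbedding = I := fun I => by
    obtain ⟨σ, h1, h2⟩ := htr I I.2
    exact ⟨σ, h1, h2⟩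
  choose s hsG hsB using htr'
  let A : (Fin n → ℝ) →ₗ[ℝ] (Fin n → ℝ) := b.constr ℝ (fun I => ind (C.map (s I).toEmbedding))
  have hA : ∀ I : D, A (ind (I : Finset (Fin n))) = ind (C.map (s I).toEmbedding) := fun I => by
    rw [← hb I]
    exact b.constr_basis ℝ _ I
  -- (1)
  have h1 : ∀ g ∈ G, ∀ x, A (LinearMap.funLeft ℝ ℝ g.symm x) = LinearMap.funLeft ℝ ℝ g.symm (A x) := by
    intro g hg x
    have h2 : A.comp (LinearMap.funLeft ℝ ℝ g.symm) = (LinearMap.funLeft ℝ ℝ g.symm).comp A := by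
      refine b.ext fun I => ?_
      rw [LinearMap.comp_apply, LinearMap.comp_apply, hb I, com_ind_map, hA I, com_ind_map]
      have hI' : (I : Finset (Fin n)).map g.toEmbedding ∈ D := hinv g hg I I.2
      rw [hA ⟨_, hI'⟩]
      congr 1
      have h3 : B.map ((s ⟨_, hI'⟩)⁻¹ * (g * s I)).toEmbedding = B := by
        apply Finset.map_injective (s ⟨_, hI'⟩).toEmbedding
        rw [← com_map_mul, mul_inv_cancel_left, com_map_mul, hsB, hsB]
      have h4 := hC _ (G.mul_mem (G.inv_mem (hsG _)) (G.mul_mem hg (hsG I))) h3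
      rw [← com_map_mul g (s I) C]
      calc C.map (s ⟨_, hI'⟩).toEmbedding
          = (C.map ((s ⟨_, hI'⟩)⁻¹ * (g * s I)).toEmbedding).map (s ⟨_, hI'⟩).toEmbedding := by rw [h4]
        _ = C.map (g * s I).toEmbedding := by rw [← com_map_mul, mul_inv_cancel_left]
    exact LinearMap.congr_fun h2 x
  -- (2)
  have h2 : ∀ g ∈ G, ∀ i j : Fin n, A (fun l => if g j = l then 1 else 0) (g i) =
      A (fun l => if j = l then 1 else 0) i := by
    intro g hg i j
    have h3 := h1 g hg (fun l => if j = l then 1 else 0)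
    have h4 : LinearMap.funLeft ℝ ℝ g.symm (fun l : Fin n => if j = l then (1 : ℝ) else 0) =
        fun l => if g j = l then 1 else 0 := by
      funext l
      show (if j = g.symm l then (1 : ℝ) else 0) = _
      simp only [Equiv.eq_symm_apply]
    rw [h4] at h3
    rw [h3]
    show (A fun l => if j = l then 1 else 0) (g.symm (g i)) = _
    rw [Equiv.symm_apply_apply]
  have hBC : A (ind B) = ind C := by
    rw [hA ⟨B, hB⟩, hC _ (hsG _) (hsB _)]
  by_cases hij : ∃ i j : Fin n, i ≠ j
  · obtain ⟨i0, j0, hij0⟩ := hij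
    have hoff : ∀ i j : Fin n, i ≠ j → A (fun l => if j = l then 1 else 0) i =
        A (fun l => if j0 = l then 1 else 0) i0 := by
      intro i j hne
      obtain ⟨σ, hσ, e1, e2⟩ := hG i0 j0 i j hij0 hne
      rw [← h2 σ hσ i0 j0, e1, e2]
    have hdiag : ∀ i : Fin n, A (fun l => if i = l then 1 else 0) i =
        A (fun l => if i0 = l then 1 else 0) i0 := by
      intro i
      by_cases hi : i = i0
      · rw [hi]
      · obtain ⟨σ, hσ, e1, e2⟩ := hG i0 i i i0 (Ne.symm hi) hi
        rw [← h2 σ hσ i0 i0, e1]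
    refine ⟨A (fun l => if i0 = l then 1 else 0) i0 - A (fun l => if j0 = l then 1 else 0) i0,
      A (fun l => if j0 = l then 1 else 0) i0 * ∑ j, ind B j, fun i => ?_⟩
    have h5 : ind C i = ∑ j, ind B j * A (fun l => if j = l then 1 else 0) i := by
      rw [← hBC, LinearMap.pi_apply_eq_sum_univ A (ind B), Finset.sum_apply]
      rfl
    rw [h5, ← Finset.add_sum_erase Finset.univ _ (Finset.mem_univ i), hdiag,
      ← Finset.add_sum_erase Finset.univ (ind B) (Finset.mem_univ i)]
    have h6 : ∑ j ∈ Finset.univ.erase i, ind B j * A (fun l => if j = l then 1 else 0) i =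
        (∑ j ∈ Finset.univ.erase i, ind B j) * A (fun l => if j0 = l then 1 else 0) i0 := by
      rw [Finset.sum_mul]
      refine Finset.sum_congr rfl fun j hj => ?_
      rw [hoff i j (Ne.symm (Finset.ne_of_mem_erase hj))]
    rw [h6]
    ring
  · push Not at hij
    rcases isEmpty_or_nonempty (Fin n) with h3 | ⟨⟨i0⟩⟩
    · exact ⟨0, 0, fun i => isEmptyElim i⟩
    · exact ⟨0, ind C i0, fun i => by rw [hij i i0]; ring⟩

end Pool.Agent.Lib.HyS
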