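import Pool.Agent.Lib.HyS.CarA
import Pool.Agent.Lib.HyS.CarC
import Pool.Agent.Lib.HyS.CrsA

/-!
# HyS, row CrsB: crossing a facet of a maximal simplex

PROOF IN WORDS. Let `q = bary D B` and `p ε = q + ε (q - ind B)`, `δ` from `bary_beyond`. For
`m = 0, 1, 2, ...` let `ε m = δ / (m + 1)` and let `F m` be a carrier of `p (ε m)` (`car_exists`).
There are only finitely many families `F`, so one `F` occurs for infinitely many `m` (pigeonhole:
`Finite.exists_infinite_fiber` or `infinite_pigeonhole`). `convexHull (ind '' F)` is closed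
(`Set.Finite.isClosed_convexHull` or compact `Set.Finite.isCompact_convexHull`), and contains
`p (ε m)` for infinitely many `m`, so it contains the limit `q` (`IsClosed.mem_of_frequently_of_tendsto`).
(1) `D.erase B ⊆ F`: `q` has the carrier `D.erase B` (strictly positive equal weights; it is a
face by `down_closed`, nonempty because `n ≥ 2`), so `car_sub` applies.
(2) `F ≠ D.erase B` and in fact `¬ F ⊆ D`: if `F ⊆ D`, then `p ε = ∑ I ∈ D.erase B, (1+ε) w I • ind I
- ε ind B` and `p ε = ∑ I ∈ F, w' I • ind I` with `w' ≥ 0`; by linear independence of `D`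
(`face_lin`) the coefficients of `B` agree: `-ε = w' B ≥ 0` (or `= 0`), contradiction.
So there is `C ∈ F`, `C ∉ D`.
(3) `|F| ≤ n` (`face_card_le`), `|D.erase B| = n - 1`, so `F = insert C (D.erase B)`.
(4) If `σ ∈ G` fixes `B`, then `p ε` is fixed (`bary_fixed`), so `C.map σ ∈ F` (`car_inv`); if
`C.map σ ∈ D.erase B`, then `C = (C.map σ).map σ⁻¹ ∈ D` because `σ⁻¹ ∈ G`, contradiction; so
`C.map σ = C`. `C.card = k` by `IsCarrier.card`.
-/

namespace Pool.Agent.Lib.HyS

private theorem crsb_mem {k n : ℕ} {T : LatticeTriangulation k n} {F : Finset (Finset (Fin n))}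
    {p : Fin n → ℝ} (h : IsCarrier T F p) :
    p ∈ convexHull ℝ (ind '' (F : Set (Finset (Fin n)))) := by
  obtain ⟨w, hw, hw1, hwp⟩ := h.wt
  rw [← hwp]
  exact (convex_convexHull ℝ _).sum_mem (fun I hI => (hw I hI).le) hw1
    (fun I hI => subset_convexHull ℝ _ ⟨I, hI, rfl⟩)

private theorem crsb_carrier {k n : ℕ} {T : LatticeTriangulation k n} {D : Finset (Finset (Fin n))}
    {c : Fin n → ℝ} (hD : IsCarrier T D c) (B : Finset (Fin n)) (hW : (D.erase B).Nonempty) :
    IsCarrier T (D.erase B) (bary D B) := by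
  classical
  have hc : (0 : ℝ) < ((D.erase B).card : ℝ) := by exact_mod_cast hW.card_pos
  refine ⟨fun I hI => hD.card I (Finset.mem_of_mem_erase hI), ?_, ?_⟩
  · obtain ⟨s, hs, hset⟩ := hD.face
    refine ⟨(D.erase B).image ind, T.K.down_closed hs ?_ (hW.image _), Finset.coe_image⟩
    intro v hv
    obtain ⟨I, hI, rfl⟩ := Finset.mem_image.1 hv
    have h1 : ind I ∈ (s : Set (Fin n → ℝ)) := by
      rw [hset]
      exact ⟨I, Finset.mem_of_mem_erase hI, rfl⟩
    exact h1
  · refine ⟨fun _ => ((D.erase B).card : ℝ)⁻¹, fun _ _ => inv_pos.2 hc, ?_, ?_⟩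
    · rw [Finset.sum_const, nsmul_eq_mul, mul_inv_cancel₀ hc.ne']
    · unfold bary
      rw [Finset.smul_sum]

private theorem crsb_not_sub {k n : ℕ} (hk : 0 < k) {T : LatticeTriangulation k n}
    {D F : Finset (Finset (Fin n))} {c : Fin n → ℝ} (hD : IsCarrier T D c)
    (B : Finset (Fin n)) (hB : B ∈ D) (ε : ℝ) (hε : 0 < ε)
    (hF : IsCarrier T F (bary D B + ε • (bary D B - ind B))) : ¬ F ⊆ D := by
  classical
  intro hFD
  obtain ⟨w, hw, -, hwp⟩ := hF.wt
  obtain ⟨r, hr⟩ : ∃ r : ℝ, r = ((D.erase B).card : ℝ)⁻¹ := ⟨_, rfl⟩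
  have hlin := face_lin hk T hD.card hD.face
  have hs1 : ∑ I ∈ D, (if I ∈ F then w I else 0) • ind I
      = bary D B + ε • (bary D B - ind B) := by
    rw [← hwp]
    simp only [ite_smul, zero_smul]
    rw [Finset.sum_ite_mem, Finset.inter_eq_right.2 hFD]
  have hs2 : ∑ I ∈ D, (if I = B then -ε else (1 + ε) * r) • ind I
      = bary D B + ε • (bary D B - ind B) := by
    rw [← Finset.add_sum_erase D _ hB, if_pos rfl]
    have h1 : ∑ I ∈ D.erase B, (if I = B then -ε else (1 + ε) * r) • ind I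
        = (1 + ε) • bary D B := by
      unfold bary
      rw [smul_smul, Finset.smul_sum, ← hr]
      refine Finset.sum_congr rfl fun I hI => ?_
      rw [if_neg (Finset.ne_of_mem_erase hI)]
    rw [h1]
    module
  have hsum : ∑ I ∈ D, ((if I ∈ F then w I else 0) - (if I = B then -ε else (1 + ε) * r)) • ind I
      = 0 := by
    simp only [sub_smul]
    rw [Finset.sum_sub_distrib, hs1, hs2, sub_self]
  have h2 := linearIndependent_iff'.1 hlin Finset.univ
    (fun I => (if (I : Finset (Fin n)) ∈ F then w I else 0)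
      - (if (I : Finset (Fin n)) = B then -ε else (1 + ε) * r))
    (by
      rw [← hsum]
      exact Finset.sum_coe_sort D (fun I : Finset (Fin n) =>
        ((if I ∈ F then w I else 0) - (if I = B then -ε else (1 + ε) * r)) • ind I))
    ⟨B, hB⟩ (Finset.mem_univ _)
  simp only [if_true] at h2
  by_cases hBF : B ∈ F
  · rw [if_pos hBF] at h2
    have := hw B hBF
    linarith
  · rw [if_neg hBF] at h2
    linarith

private theorem crsb_limit {k n : ℕ} (T : LatticeTriangulation k n) (q b : Fin n → ℝ) (δ : ℝ)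
    (hδ : 0 < δ) (h : ∀ ε : ℝ, 0 ≤ ε → ε ≤ δ → q + ε • (q - b) ∈ hypersimplex k n) :
    ∃ F : Finset (Finset (Fin n)), q ∈ convexHull ℝ (ind '' (F : Set (Finset (Fin n)))) ∧
      ∃ ε : ℝ, 0 < ε ∧ IsCarrier T F (q + ε • (q - b)) := by
  classical
  have hpos : ∀ m : ℕ, 0 < δ / ((m : ℝ) + 1) := fun m => div_pos hδ (by positivity)
  have hle : ∀ m : ℕ, δ / ((m : ℝ) + 1) ≤ δ := fun m =>
    div_le_self hδ.le (by linarith [Nat.cast_nonneg (α := ℝ) m])
  have hF : ∀ m : ℕ, ∃ F, IsCarrier T F (q + (δ / ((m : ℝ) + 1)) • (q - b)) := fun m =>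
    car_exists T (h _ (hpos m).le (hle m))
  choose F hF using hF
  obtain ⟨F0, hF0⟩ := Finite.exists_infinite_fiber F
  have hinf : {m | F m = F0}.Infinite := Set.infinite_coe_iff.1 hF0
  have hfreq : ∃ᶠ m in Filter.atTop, F m = F0 := Nat.frequently_atTop_iff_infinite.2 hinf
  have hclosed : IsClosed (convexHull ℝ (ind '' (F0 : Set (Finset (Fin n))))) :=
    (F0.finite_toSet.image ind).isClosed_convexHull ℝ
  have htend : Filter.Tendsto (fun m : ℕ => q + (δ / ((m : ℝ) + 1)) • (q - b)) Filter.atTop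
      (nhds q) := by
    have h1 : Filter.Tendsto (fun m : ℕ => δ / ((m : ℝ) + 1)) Filter.atTop (nhds 0) := by
      have h2 := (tendsto_one_div_add_atTop_nhds_zero_nat (𝕜 := ℝ)).const_mul δ
      rw [mul_zero] at h2
      refine h2.congr fun m => ?_
      rw [mul_one_div]
    have h3 := (h1.smul_const (q - b)).const_add q
    rw [zero_smul, add_zero] at h3
    exact h3
  obtain ⟨m0, hm0⟩ := hinf.nonempty
  refine ⟨F0, ?_, δ / ((m0 : ℝ) + 1), hpos m0, ?_⟩
  · refine hclosed.mem_of_frequently_of_tendsto (hfreq.mono ?_) htend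
    intro m hm
    have h4 := hF m
    rw [hm] at h4
    exact crsb_mem h4
  · have h4 := hF m0
    rw [show F m0 = F0 from hm0] at h4
    exact h4

theorem cross {k n : ℕ} (hk : 0 < k) (hn2 : 2 ≤ n) (T : LatticeTriangulation k n)
    {G : Subgroup (Equiv.Perm (Fin n))} (hT : Invariant G T) {D : Finset (Finset (Fin n))}
    {c : Fin n → ℝ} (hD : IsCarrier T D c) (hn : D.card = n)
    (hinv : ∀ σ ∈ G, ∀ I ∈ D, I.map σ.toEmbedding ∈ D) (B : Finset (Fin n)) (hB : B ∈ D)
    (hin : ∀ i, ∃ I ∈ D, I ≠ B ∧ i ∈ I) (hout : ∀ i, ∃ I ∈ D, I ≠ B ∧ i ∉ I) :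
    ∃ C : Finset (Fin n), C.card = k ∧ C ∉ D ∧
      ∀ σ ∈ G, B.map σ.toEmbedding = B → C.map σ.toEmbedding = C := by
  classical
  have hcard := hD.card
  have hn0 : 0 < n := by omega
  have hWne : (D.erase B).Nonempty := by
    obtain ⟨I, hI, hIB, -⟩ := hin ⟨0, hn0⟩
    exact ⟨I, Finset.mem_erase.2 ⟨hIB, hI⟩⟩
  obtain ⟨δ, hδ, hbe⟩ := bary_beyond D hcard B hB hn0 hin hout
  obtain ⟨F, hq, ε, hε, hF⟩ := crsb_limit T (bary D B) (ind B) δ hδ hbe
  have hsub : D.erase B ⊆ F := car_sub hk T hF (crsb_carrier hD B hWne) hq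
  have hnot := crsb_not_sub hk hD B hB ε hε hF
  obtain ⟨C, hCF, hCD⟩ := Finset.not_subset.1 hnot
  have hCe : C ∉ D.erase B := fun h => hCD (Finset.mem_of_mem_erase h)
  have hFeq : insert C (D.erase B) = F := by
    refine Finset.eq_of_subset_of_card_le ?_ ?_
    · intro I hI
      rcases Finset.mem_insert.1 hI with rfl | hI
      · exact hCF
      · exact hsub hI
    · rw [Finset.card_insert_of_notMem hCe, Finset.card_erase_of_mem hB, hn]
      have := face_card_le hk T hF.card hF.face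
      omega
  refine ⟨C, hF.card C hCF, hCD, ?_⟩
  intro σ hσ hσB
  have hfix := bary_fixed D B σ (hinv σ hσ) hσB ε
  have h1 := car_inv hk T hT hF hσ hfix C hCF
  rw [← hFeq] at h1
  rcases Finset.mem_insert.1 h1 with h1 | h1
  · exact h1
  · exfalso
    apply hCD
    have h2 := hinv σ⁻¹ (G.inv_mem hσ) _ (Finset.mem_of_mem_erase h1)
    have h3 : (C.map σ.toEmbedding).map (σ⁻¹).toEmbedding = C := by
      ext i
      rw [Finset.mem_map_equiv, Finset.mem_map_equiv]
      have h4 : (Equiv.symm σ) ((Equiv.symm σ⁻¹) i) = i := σ.symm_apply_apply i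
      rw [h4]
    rwa [h3] at h2

end Pool.Agent.Lib.HyS
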