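import Mathlib

/-!
# MP_079fc8_co: invariant lattice triangulations of hypersimplices. Definitions
-/

namespace Pool.Agent.Lib.HyS

/-- The hypersimplex: the points of the unit cube whose coordinates have sum `k`. -/
def hypersimplex (k n : ℕ) : Set (Fin n → ℝ) :=
  {x | (∀ i, 0 ≤ x i ∧ x i ≤ 1) ∧ ∑ i, x i = k}

/-- The action of a permutation of the indices on points: the `i`-th unit vector goes to the
`σ i`-th unit vector. -/
def permute {n : ℕ} (σ : Equiv.Perm (Fin n)) (x : Fin n → ℝ) : Fin n → ℝ :=
  fun i => x (σ.symm i)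

/-- A lattice triangulation of the hypersimplex: a geometric simplicial complex whose underlying
space is the hypersimplex and whose vertices are integral points. -/
structure LatticeTriangulation (k n : ℕ) where
  /-- the simplicial complex -/
  K : Geometry.SimplicialComplex ℝ (Fin n → ℝ)
  space_eq : K.space = hypersimplex k n
  lattice : ∀ v ∈ K.vertices, ∀ i, ∃ m : ℤ, v i = m

/-- The triangulation `T` is invariant under the permutation group `G`: the image of every
simplex of `T` (given by its finite set of vertices) under every element of `G` is a simplex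
of `T`. -/
def Invariant {k n : ℕ} (G : Subgroup (Equiv.Perm (Fin n))) (T : LatticeTriangulation k n) : Prop :=
  ∀ σ ∈ G, ∀ s ∈ T.K.faces, ∃ t ∈ T.K.faces,
    (t : Set (Fin n → ℝ)) = permute σ '' (s : Set (Fin n → ℝ))

/-- The dihedral group generated by the rotation `i ↦ i + 1` and the reversal. -/
def dihedral (n : ℕ) : Subgroup (Equiv.Perm (Fin n)) :=
  Subgroup.closure {finRotate n, Fin.revPerm}

/-- `G` is transitive on ordered pairs of different points. -/
def TwoTransitive {n : ℕ} (G : Subgroup (Equiv.Perm (Fin n))) : Prop :=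
  ∀ a b c d : Fin n, a ≠ b → c ≠ d → ∃ σ ∈ G, σ a = c ∧ σ b = d

/-- The characteristic vector of a set. -/
def ind {n : ℕ} (I : Finset (Fin n)) : Fin n → ℝ := fun i => if i ∈ I then 1 else 0

/-- The family `F` of `k`-sets is (the vertex set of) the simplex of `T` that contains `p` in its
relative interior. -/
structure IsCarrier {k n : ℕ} (T : LatticeTriangulation k n) (F : Finset (Finset (Fin n)))
    (p : Fin n → ℝ) : Prop where
  card : ∀ I ∈ F, I.card = k
  face : ∃ s ∈ T.K.faces, (s : Set (Fin n → ℝ)) = ind '' (F : Set (Finset (Fin n)))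
  wt : ∃ w : Finset (Fin n) → ℝ,
    (∀ I ∈ F, 0 < w I) ∧ ∑ I ∈ F, w I = 1 ∧ ∑ I ∈ F, w I • ind I = p

/-- The sum of the first `m` coordinates. -/
def cum {n : ℕ} (v : Fin n → ℝ) (m : ℕ) : ℝ := ∑ i : Fin n, if i.val < m then v i else 0

/-- `v` is a vertex of the hypersimplex. -/
def IsVert {n : ℕ} (k : ℕ) (v : Fin n → ℝ) : Prop :=
  (∀ i, v i = 0 ∨ v i = 1) ∧ ∑ i, v i = k

/-- Two points are sorted: all their sums over intervals differ by at most one. -/
def Sorted {n : ℕ} (v w : Fin n → ℝ) : Prop :=
  ∀ a b : ℕ, |(cum v b - cum v a) - (cum w b - cum w a)| ≤ 1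

/-- A simplex of the alcoved triangulation: a nonempty finite set of pairwise sorted vertices. -/
structure IsAlc {n : ℕ} (k : ℕ) (s : Finset (Fin n → ℝ)) : Prop where
  ne : s.Nonempty
  vert : ∀ v ∈ s, IsVert k v
  sorted : ∀ v ∈ s, ∀ w ∈ s, Sorted v w

end Pool.Agent.Lib.HyS
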