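import Pool.Agent.Lib.HyS.Defs

/-!
# HyS, row FisA: Fisher's inequality for an invariant family of a 2-transitive group

PROOF IN WORDS. For `i : Fin n` let `r i = #{I ∈ D | i ∈ I}` and for `i ≠ j` let
`l i j = #{I ∈ D | i ∈ I ∧ j ∈ I}`. `σ ∈ G` permutes `D` (`I ↦ I.map σ.toEmbedding` is an injective
map of the finite set `D` to itself, so a bijection), so `r (σ i) = r i` and `l (σ i) (σ j) = l i j`;
by two-transitivity `r` and `l` are constants `r`, `l` (for `r` use any `b ≠ a`, `d ≠ c`; `n ≥ 2`).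
Double count for fixed `i`: `∑ j ≠ i, l = ∑ I ∋ i, (k - 1)`, so `(n - 1) l = r (k - 1)`; and
`r > 0` (`D` has a set `I`, with an element as `k > 0`); as `k < n`: `l < r`.
Suppose `|D| < n`. The linear map `c ↦ (∑ i ∈ I, c i)_{I ∈ D}` from `Fin n → ℝ` to `D → ℝ` has a
nonzero kernel (`LinearMap.exists_ne_zero_of_...` / `LinearMap.injective_iff` and finrank, or
`exists_nontrivial_relation_of_...`), so there is `c ≠ 0` with `∑ i ∈ I, c i = 0` for all `I ∈ D`.
Then `0 = ∑ I ∈ D, (∑ i ∈ I, c i)^2 = ∑ i, ∑ j, c i c j #{I ∈ D | i, j ∈ I}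
= (r - l) ∑ c i ^ 2 + l (∑ c i)^2 ≥ (r - l) ∑ c i ^ 2 > 0`, a contradiction.
(Alternatively: `∑ I ∈ D, (∑ i ∈ I, c i) * [a ∈ I] = (r - l) c a + l ∑ i, c i = 0` for every `a`,
sum over `a`: `(r - l + n l) ∑ c = 0`, so `∑ c = 0` and `c a = 0`.)
-/

namespace Pool.Agent.Lib.HyS

private theorem fisA_le {n : ℕ} {G : Subgroup (Equiv.Perm (Fin n))} (hG : TwoTransitive G)
    (D : Finset (Finset (Fin n))) (hinv : ∀ σ ∈ G, ∀ I ∈ D, I.map σ.toEmbedding ∈ D)
    (a b c d : Fin n) (hab : a ≠ b) (hcd : c ≠ d) :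
    (D.filter (fun I => a ∈ I ∧ b ∈ I)).card ≤ (D.filter (fun I => c ∈ I ∧ d ∈ I)).card := by
  obtain ⟨σ, hσ, h1, h2⟩ := hG a b c d hab hcd
  refine Finset.card_le_card_of_injOn (fun I => I.map σ.toEmbedding) ?_ ?_
  · intro I hI
    have hI' : I ∈ D.filter (fun I => a ∈ I ∧ b ∈ I) := hI
    rw [Finset.mem_filter] at hI'
    show I.map σ.toEmbedding ∈ D.filter (fun I => c ∈ I ∧ d ∈ I)
    rw [Finset.mem_filter]
    refine ⟨hinv σ hσ I hI'.1, ?_, ?_⟩
    · exact Finset.mem_map.mpr ⟨a, hI'.2.1, h1⟩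
    · exact Finset.mem_map.mpr ⟨b, hI'.2.2, h2⟩
  · exact (Finset.map_injective _).injOn

private theorem fisA_le1 {n : ℕ} {G : Subgroup (Equiv.Perm (Fin n))} (hG : TwoTransitive G)
    (hn : 2 ≤ n) (D : Finset (Finset (Fin n)))
    (hinv : ∀ σ ∈ G, ∀ I ∈ D, I.map σ.toEmbedding ∈ D) (a c : Fin n) :
    (D.filter (fun I => a ∈ I)).card ≤ (D.filter (fun I => c ∈ I)).card := by
  have hnt : Nontrivial (Fin n) := Fin.nontrivial_iff_two_le.mpr hn
  obtain ⟨b, hb⟩ := exists_ne a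
  obtain ⟨d, hd⟩ := exists_ne c
  obtain ⟨σ, hσ, h1, -⟩ := hG a b c d hb.symm hd.symm
  refine Finset.card_le_card_of_injOn (fun I => I.map σ.toEmbedding) ?_ ?_
  · intro I hI
    have hI' : I ∈ D.filter (fun I => a ∈ I) := hI
    rw [Finset.mem_filter] at hI'
    show I.map σ.toEmbedding ∈ D.filter (fun I => c ∈ I)
    rw [Finset.mem_filter]
    exact ⟨hinv σ hσ I hI'.1, Finset.mem_map.mpr ⟨a, hI'.2, h1⟩⟩
  · exact (Finset.map_injective _).injOn

/-- The number of members of the family containing both points is constant. -/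
theorem pair_count {n : ℕ} {G : Subgroup (Equiv.Perm (Fin n))} (hG : TwoTransitive G)
    (D : Finset (Finset (Fin n))) (hinv : ∀ σ ∈ G, ∀ I ∈ D, I.map σ.toEmbedding ∈ D)
    (a b c d : Fin n) (hab : a ≠ b) (hcd : c ≠ d) :
    (D.filter (fun I => a ∈ I ∧ b ∈ I)).card = (D.filter (fun I => c ∈ I ∧ d ∈ I)).card :=
  le_antisymm (fisA_le hG D hinv a b c d hab hcd) (fisA_le hG D hinv c d a b hcd hab)

/-- The number of members of the family containing a point is constant. -/
theorem point_count {n : ℕ} {G : Subgroup (Equiv.Perm (Fin n))} (hG : TwoTransitive G)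
    (hn : 2 ≤ n) (D : Finset (Finset (Fin n)))
    (hinv : ∀ σ ∈ G, ∀ I ∈ D, I.map σ.toEmbedding ∈ D) (a c : Fin n) :
    (D.filter (fun I => a ∈ I)).card = (D.filter (fun I => c ∈ I)).card :=
  le_antisymm (fisA_le1 hG hn D hinv a c) (fisA_le1 hG hn D hinv c a)

private theorem fisA_dc {n : ℕ} (D : Finset (Finset (Fin n))) (a : Fin n) (c : Fin n → ℝ) :
    ∑ I ∈ D, (if a ∈ I then ∑ i ∈ I, c i else 0) =
      ∑ i, c i * ((D.filter (fun I => a ∈ I ∧ i ∈ I)).card : ℝ) := by
  have h1 : ∀ i, c i * ((D.filter (fun I => a ∈ I ∧ i ∈ I)).card : ℝ) =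
      ∑ I ∈ D, if a ∈ I ∧ i ∈ I then c i else 0 := by
    intro i
    rw [← Finset.sum_filter, Finset.sum_const, nsmul_eq_mul, mul_comm]
  rw [Finset.sum_congr rfl (fun i _ => h1 i), Finset.sum_comm]
  refine Finset.sum_congr rfl fun I _ => ?_
  by_cases h : a ∈ I
  · simp only [h, true_and, if_true]
    rw [Finset.sum_ite_mem, Finset.univ_inter]
  · simp [h]

theorem fisher {k n : ℕ} (hk : 0 < k) (hkn : k < n) {G : Subgroup (Equiv.Perm (Fin n))}
    (hG : TwoTransitive G) (D : Finset (Finset (Fin n))) (hne : D.Nonempty)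
    (hcard : ∀ I ∈ D, I.card = k) (hinv : ∀ σ ∈ G, ∀ I ∈ D, I.map σ.toEmbedding ∈ D) :
    n ≤ D.card := by
  classical
  have hn : 2 ≤ n := by omega
  by_contra hlt
  have hlt' : D.card < n := by omega
  -- the constants
  obtain ⟨I0, hI0⟩ := hne
  have hI0n : I0.Nonempty := by
    rw [← Finset.card_pos, hcard I0 hI0]
    exact hk
  obtain ⟨a0, ha0⟩ := hI0n
  have hnt : Nontrivial (Fin n) := Fin.nontrivial_iff_two_le.mpr hn
  obtain ⟨b0, hb0⟩ := exists_ne a0
  set r : ℕ := (D.filter (fun I => a0 ∈ I)).card with hr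
  set l : ℕ := (D.filter (fun I => a0 ∈ I ∧ b0 ∈ I)).card with hl
  have hrpos : 0 < r := Finset.card_pos.mpr ⟨I0, Finset.mem_filter.mpr ⟨hI0, ha0⟩⟩
  have hcnt : ∀ a i : Fin n, ((D.filter (fun I => a ∈ I ∧ i ∈ I)).card : ℝ) =
      if i = a then (r : ℝ) else (l : ℝ) := by
    intro a i
    by_cases hia : i = a
    · subst hia
      rw [if_pos rfl]
      have h1 : D.filter (fun I => i ∈ I ∧ i ∈ I) = D.filter (fun I => i ∈ I) := by
        refine Finset.filter_congr fun I _ => ?_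
        exact and_self_iff
      rw [h1, point_count hG hn D hinv i a0]
    · rw [if_neg hia, pair_count hG D hinv a i a0 b0 (fun h => hia h.symm) hb0.symm]
  have hsum : ∀ (a : Fin n) (c : Fin n → ℝ),
      ∑ I ∈ D, (if a ∈ I then ∑ i ∈ I, c i else 0) = ((r : ℝ) - l) * c a + l * ∑ i, c i := by
    intro a c
    rw [fisA_dc]
    have h1 : ∀ i, c i * ((D.filter (fun I => a ∈ I ∧ i ∈ I)).card : ℝ) =
        (if i = a then ((r : ℝ) - l) * c i else 0) + l * c i := by
      intro i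
      rw [hcnt a i]
      split_ifs <;> ring
    rw [Finset.sum_congr rfl (fun i _ => h1 i), Finset.sum_add_distrib, Finset.sum_ite_eq' ,
      if_pos (Finset.mem_univ a), Finset.mul_sum]
  -- `l < r`
  have hlr : l < r := by
    have h1 := hsum a0 (fun _ => 1)
    have h2 : ∑ I ∈ D, (if a0 ∈ I then ∑ i ∈ I, (1 : ℝ) else 0) = r * k := by
      rw [← Finset.sum_filter]
      have h3 : ∀ I ∈ D.filter (fun I => a0 ∈ I), ∑ i ∈ I, (1 : ℝ) = k := by
        intro I hI
        rw [Finset.sum_const, nsmul_eq_mul, mul_one, hcard I (Finset.mem_filter.mp hI).1]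
      rw [Finset.sum_congr rfl h3, Finset.sum_const, nsmul_eq_mul]
    have h4 : ∑ _i : Fin n, (1 : ℝ) = n := by simp
    rw [h2, h4] at h1
    have h5 : (r : ℝ) * k = ((r : ℝ) - l) + l * n := by
      rw [h1]
      ring
    by_contra hge
    have hge' : (r : ℝ) ≤ l := by
      exact_mod_cast (not_lt.mp hge)
    have hr' : (0 : ℝ) < r := by exact_mod_cast hrpos
    have hkn' : (k : ℝ) + 1 ≤ n := by exact_mod_cast hkn
    have hn' : (2 : ℝ) ≤ n := by exact_mod_cast hn
    nlinarith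
  have hlr' : (0 : ℝ) < (r : ℝ) - l := by
    have : (l : ℝ) < r := by exact_mod_cast hlr
    linarith
  -- a nonzero kernel vector
  let f : (Fin n → ℝ) →ₗ[ℝ] (D → ℝ) :=
    { toFun := fun c I => ∑ i ∈ (I : Finset (Fin n)), c i
      map_add' := fun x y => by
        funext I
        show ∑ i ∈ (I : Finset (Fin n)), (x i + y i) =
          ∑ i ∈ (I : Finset (Fin n)), x i + ∑ i ∈ (I : Finset (Fin n)), y i
        rw [Finset.sum_add_distrib]
      map_smul' := fun t x => by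
        funext I
        show ∑ i ∈ (I : Finset (Fin n)), t * x i = t * ∑ i ∈ (I : Finset (Fin n)), x i
        rw [Finset.mul_sum] }
  have hker : LinearMap.ker f ≠ ⊥ := by
    intro h
    have hinj : Function.Injective f := LinearMap.ker_eq_bot.mp h
    have := LinearMap.finrank_le_finrank_of_injective hinj
    rw [Module.finrank_fin_fun, Module.finrank_fintype_fun_eq_card, Fintype.card_coe] at this
    omega
  obtain ⟨c, hc, hc0⟩ := Submodule.exists_mem_ne_zero_of_ne_bot hker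
  have hcI : ∀ I ∈ D, ∑ i ∈ I, c i = 0 := by
    intro I hI
    have h1 : f c = 0 := hc
    exact congrFun h1 ⟨I, hI⟩
  have h0 : ∀ a, ((r : ℝ) - l) * c a + l * ∑ i, c i = 0 := by
    intro a
    rw [← hsum a c]
    refine Finset.sum_eq_zero fun I hI => ?_
    rw [hcI I hI]
    exact ite_self _
  have hsc : ∑ i, c i = 0 := by
    have h1 : ∑ a, (((r : ℝ) - l) * c a + l * ∑ i, c i) = 0 := Finset.sum_eq_zero fun a _ => h0 a
    rw [Finset.sum_add_distrib, ← Finset.mul_sum, Finset.sum_const, Finset.card_univ,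
      Fintype.card_fin, nsmul_eq_mul] at h1
    have h2 : (((r : ℝ) - l) + n * l) * ∑ i, c i = 0 := by
      rw [← h1]
      ring
    rcases mul_eq_zero.mp h2 with h3 | h3
    · have h4 : (0 : ℝ) ≤ n * l := mul_nonneg (Nat.cast_nonneg n) (Nat.cast_nonneg l)
      linarith
    · exact h3
  refine hc0 (funext fun a => ?_)
  have h1 := h0 a
  rw [hsc, mul_zero, add_zero] at h1
  rcases mul_eq_zero.mp h1 with h2 | h2
  · linarith
  · exact h2

end Pool.Agent.Lib.HyS
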