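import Pool.Agent.Lib.HyS.FisA

/-!
# HyS, row FisB: symmetric designs, counting

PROOF IN WORDS. `r = #{I ∈ D | a ∈ I}` does not depend on `a` (`point_count`) and
`n r = ∑ I ∈ D, |I| = n k` (double count, `Finset.sum_card_bipartiteAbove_eq_sum_card_bipartiteBelow`
or `Finset.sum_comm` with indicator functions), so `r = k`. `l = #{I ∈ D | a, b ∈ I}` does not
depend on the pair `a ≠ b` (`pair_count`). For fixed `a`: `∑ b ≠ a, l = ∑ I ∋ a, (k - 1)`, so
`(n - 1) l = k (k - 1)`; this is `count_dvd`. `count_in`: there are `k ≥ 2` members containing `i`,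
one of them is not `B`. `count_out`: `n - k ≥ 2` members do not contain `i`, one of them is not `B`.
-/

namespace Pool.Agent.Lib.HyS

theorem count_point {k n : ℕ} (hk : 2 ≤ k) (hkn : k + 2 ≤ n) {G : Subgroup (Equiv.Perm (Fin n))}
    (hG : TwoTransitive G) (D : Finset (Finset (Fin n))) (hn : D.card = n)
    (hcard : ∀ I ∈ D, I.card = k) (hinv : ∀ σ ∈ G, ∀ I ∈ D, I.map σ.toEmbedding ∈ D)
    (a : Fin n) : (D.filter (fun I => a ∈ I)).card = k := by
  classical
  have h1 := Finset.sum_card_bipartiteAbove_eq_sum_card_bipartiteBelow (s := (Finset.univ : Finset (Fin n)))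
    (t := D) (fun a I => a ∈ I)
  have h2 : ∀ c ∈ (Finset.univ : Finset (Fin n)),
      (D.bipartiteAbove (fun a I => a ∈ I) c).card = (D.filter (fun I => a ∈ I)).card :=
    fun c _ => point_count hG (by omega) D hinv c a
  have h3 : ∀ I ∈ D, ((Finset.univ : Finset (Fin n)).bipartiteBelow (fun a I => a ∈ I) I).card = k := by
    intro I hI
    rw [← hcard I hI]
    congr 1
    ext x
    simp [Finset.bipartiteBelow]
  rw [Finset.sum_congr rfl h2, Finset.sum_congr rfl h3, Finset.sum_const, Finset.sum_const, Finset.card_univ,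
    Fintype.card_fin, hn, smul_eq_mul, smul_eq_mul] at h1
  exact Nat.eq_of_mul_eq_mul_left (by omega) h1

theorem count_dvd {k n : ℕ} (hk : 2 ≤ k) (hkn : k + 2 ≤ n) {G : Subgroup (Equiv.Perm (Fin n))}
    (hG : TwoTransitive G) (D : Finset (Finset (Fin n))) (hn : D.card = n)
    (hcard : ∀ I ∈ D, I.card = k) (hinv : ∀ σ ∈ G, ∀ I ∈ D, I.map σ.toEmbedding ∈ D) :
    (n - 1) ∣ k * (k - 1) := by
  classical
  have hn0 : 0 < n := by omega
  have h1 := Finset.sum_card_bipartiteAbove_eq_sum_card_bipartiteBelow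
    (s := (Finset.univ : Finset (Fin n)).erase ⟨0, hn0⟩)
    (t := D.filter (fun I => (⟨0, hn0⟩ : Fin n) ∈ I)) (fun a I => a ∈ I)
  have h2 : ∀ c ∈ (Finset.univ : Finset (Fin n)).erase ⟨0, hn0⟩,
      ((D.filter (fun I => (⟨0, hn0⟩ : Fin n) ∈ I)).bipartiteAbove (fun a I => a ∈ I) c).card =
        (D.filter (fun I => (⟨0, hn0⟩ : Fin n) ∈ I ∧ (⟨1, by omega⟩ : Fin n) ∈ I)).card := by
    intro c hc
    have hc0 : (⟨0, hn0⟩ : Fin n) ≠ c := (Finset.ne_of_mem_erase hc).symm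
    rw [Finset.bipartiteAbove, Finset.filter_filter]
    exact pair_count hG D hinv _ c _ _ hc0 (by simp [Fin.ext_iff])
  have h3 : ∀ I ∈ D.filter (fun I => (⟨0, hn0⟩ : Fin n) ∈ I),
      (((Finset.univ : Finset (Fin n)).erase ⟨0, hn0⟩).bipartiteBelow (fun a I => a ∈ I) I).card = k - 1 := by
    intro I hI
    obtain ⟨hI1, hI2⟩ := Finset.mem_filter.1 hI
    rw [← hcard I hI1, ← Finset.card_erase_of_mem hI2]
    congr 1
    ext x
    simp [Finset.bipartiteBelow]
  rw [Finset.sum_congr rfl h2, Finset.sum_congr rfl h3, Finset.sum_const, Finset.sum_const,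
    Finset.card_erase_of_mem (Finset.mem_univ _), Finset.card_univ, Fintype.card_fin,
    count_point hk hkn hG D hn hcard hinv, smul_eq_mul, smul_eq_mul] at h1
  exact ⟨_, h1.symm⟩

theorem count_in {k n : ℕ} (hk : 2 ≤ k) (hkn : k + 2 ≤ n) {G : Subgroup (Equiv.Perm (Fin n))}
    (hG : TwoTransitive G) (D : Finset (Finset (Fin n))) (hn : D.card = n)
    (hcard : ∀ I ∈ D, I.card = k) (hinv : ∀ σ ∈ G, ∀ I ∈ D, I.map σ.toEmbedding ∈ D)
    (B : Finset (Fin n)) (i : Fin n) : ∃ I ∈ D, I ≠ B ∧ i ∈ I := by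
  classical
  have h1 := count_point hk hkn hG D hn hcard hinv i
  obtain ⟨I, hI, hne⟩ := Finset.exists_mem_ne (s := D.filter (fun I => i ∈ I)) (by rw [h1]; omega) B
  obtain ⟨hI1, hI2⟩ := Finset.mem_filter.1 hI
  exact ⟨I, hI1, hne, hI2⟩

theorem count_out {k n : ℕ} (hk : 2 ≤ k) (hkn : k + 2 ≤ n) {G : Subgroup (Equiv.Perm (Fin n))}
    (hG : TwoTransitive G) (D : Finset (Finset (Fin n))) (hn : D.card = n)
    (hcard : ∀ I ∈ D, I.card = k) (hinv : ∀ σ ∈ G, ∀ I ∈ D, I.map σ.toEmbedding ∈ D)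
    (B : Finset (Fin n)) (i : Fin n) : ∃ I ∈ D, I ≠ B ∧ i ∉ I := by
  classical
  have h1 := count_point hk hkn hG D hn hcard hinv i
  have h2 := Finset.card_filter_add_card_filter_not (s := D) (fun I : Finset (Fin n) => i ∈ I)
  obtain ⟨I, hI, hne⟩ := Finset.exists_mem_ne (s := D.filter (fun I => ¬ i ∈ I)) (by omega) B
  obtain ⟨hI1, hI2⟩ := Finset.mem_filter.1 hI
  exact ⟨I, hI1, hne, hI2⟩

end Pool.Agent.Lib.HyS
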