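import Pool.Agent.Lib.HyS.Bas

/-!
# HyS, row Ind: pairwise sorted vertices are affinely independent

PROOF IN WORDS. For `v, w ∈ s` write `v ≤ w` if `cum v m ≤ cum w m` for all `m`; by `cmp` any two
elements are comparable, and then `cum w m - cum v m ∈ {0, 1}` for all `m`; `≤` is antisymmetric by
`cum_ext`. Let `∑ v ∈ s, c v = 0` and `∑ v ∈ s, c v • v = 0` (`affineIndependent_iff`); suppose some
`c v ≠ 0`, and let `v` be the largest element of `s` with `c v ≠ 0` (a finite nonempty set with a
total order has a largest element, e.g. maximise `∑ m ∈ range (n+1), cum v m` with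
`Finset.exists_max_image`). If no element of `s` is `< v`, then `v` is the smallest element and all
other `c` vanish, so `c v = ∑ c = 0`. Otherwise let `u` be the largest element of `s` which is
`< v` (again `exists_max_image`), and take `m` with `cum v m = cum u m + 1` (exists as `u ≠ v`). For
`x ∈ s`: if `x ≤ u`, then `cum x m ≤ cum u m`, and `cum x m ≥ cum v m - 1 = cum u m`, so
`cum x m = cum u m`; if `x` is not `≤ u`, then `x ≥ v`, `cum x m ≥ cum v m = cum u m + 1`, and
`cum x m ≤ cum u m + 1`, so `cum x m = cum u m + 1`. So by `cum_lin` at `m`: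
`0 = ∑ c x * cum x m = cum u m * ∑ c x + ∑ (x ≥ v) c x = c v`, because `c x = 0` for `x > v`.
Contradiction.
-/

namespace Pool.Agent.Lib.HyS

private noncomputable def TT {n : ℕ} (v : Fin n → ℝ) : ℝ := ∑ m ∈ Finset.range (n + 1), cum v m

private theorem le_of_TT {k n : ℕ} {s : Finset (Fin n → ℝ)} (hs : IsAlc k s) {v w : Fin n → ℝ}
    (hv : v ∈ s) (hw : w ∈ s) (h : TT v ≤ TT w) : ∀ m, cum w m = cum v m ∨ cum w m = cum v m + 1 := by
  rcases cmp (hs.vert v hv) (hs.vert w hw) (hs.sorted v hv w hw) with h1 | h1
  · exact h1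
  · have h2 : ∀ m ∈ Finset.range (n + 1), cum v m = cum w m := by
      have h3 : ∀ m ∈ Finset.range (n + 1), cum w m ≤ cum v m := fun m _ => by
        rcases h1 m with h | h <;> linarith
      have h4 : ∑ m ∈ Finset.range (n + 1), cum w m = ∑ m ∈ Finset.range (n + 1), cum v m :=
        le_antisymm (Finset.sum_le_sum h3) h
      have h5 := (Finset.sum_eq_sum_iff_of_le h3).1 h4
      exact fun m hm => (h5 m hm).symm
    intro m
    left
    by_cases hm : m < n + 1
    · exact (h2 m (Finset.mem_range.2 hm)).symm
    · rw [cum_total v m (by omega), cum_total w m (by omega), (hs.vert v hv).2, (hs.vert w hw).2]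

private theorem eq_of_TT {k n : ℕ} {s : Finset (Fin n → ℝ)} (hs : IsAlc k s) {v w : Fin n → ℝ}
    (hv : v ∈ s) (hw : w ∈ s) (h : TT v = TT w) : v = w := by
  apply cum_ext
  intro m
  rcases le_of_TT hs hv hw h.le m with h1 | h1 <;> rcases le_of_TT hs hw hv h.ge m with h2 | h2 <;> linarith

theorem alc_weights_zero {k n : ℕ} {s : Finset (Fin n → ℝ)} (hs : IsAlc k s)
    (c : (Fin n → ℝ) → ℝ) (h0 : ∑ v ∈ s, c v = 0) (h1 : ∑ v ∈ s, c v • v = 0) :
    ∀ v ∈ s, c v = 0 := by
  classical
  by_contra hcon
  push Not at hcon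
  obtain ⟨v0, hv0, hcv0⟩ := hcon
  obtain ⟨v, hvS, hvmax⟩ := Finset.exists_max_image (s.filter (fun x => c x ≠ 0)) TT
    ⟨v0, Finset.mem_filter.2 ⟨hv0, hcv0⟩⟩
  obtain ⟨hv, hcv⟩ := Finset.mem_filter.1 hvS
  have hbig : ∀ x ∈ s, TT v < TT x → c x = 0 := by
    intro x hx hlt
    by_contra hne
    have := hvmax x (Finset.mem_filter.2 ⟨hx, hne⟩)
    linarith
  rcases (s.filter (fun x => TT x < TT v)).eq_empty_or_nonempty with hemp | hnon
  · have h2 : ∑ x ∈ s, c x = c v := by
      apply Finset.sum_eq_single_of_mem v hv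
      intro x hx hxv
      rcases lt_trichotomy (TT x) (TT v) with h3 | h3 | h3
      · exfalso
        have : x ∈ s.filter (fun x => TT x < TT v) := Finset.mem_filter.2 ⟨hx, h3⟩
        rw [hemp] at this
        exact absurd this (Finset.notMem_empty _)
      · exact absurd (eq_of_TT hs hx hv h3) hxv
      · exact hbig x hx h3
    exact hcv (h2.symm.trans h0)
  · obtain ⟨u, huS, humax⟩ := Finset.exists_max_image (s.filter (fun x => TT x < TT v)) TT hnon
    obtain ⟨hu, huv⟩ := Finset.mem_filter.1 huS
    have huv' := le_of_TT hs hu hv huv.le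
    obtain ⟨m, hm⟩ : ∃ m, cum v m = cum u m + 1 := by
      by_contra hno
      push Not at hno
      have h3 : ∀ m, cum v m = cum u m := fun m => (huv' m).resolve_right (hno m)
      have h4 : TT v = TT u := Finset.sum_congr rfl (fun m _ => h3 m)
      linarith
    have hval : ∀ x ∈ s, c x * cum x m = c x * cum u m + if TT u < TT x then c x else 0 := by
      intro x hx
      by_cases hlt : TT u < TT x
      · rw [if_pos hlt]
        have h3 : TT v ≤ TT x := by
          by_contra hlt2
          push Not at hlt2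
          have := humax x (Finset.mem_filter.2 ⟨hx, hlt2⟩)
          linarith
        have h4 := le_of_TT hs hv hx h3 m
        have h5 := le_of_TT hs hu hx hlt.le m
        have h6 : cum x m = cum u m + 1 := by
          rcases h4 with h4 | h4 <;> rcases h5 with h5 | h5 <;> linarith
        rw [h6]
        ring
      · rw [if_neg hlt]
        push Not at hlt
        have h4 := le_of_TT hs hx hu hlt m
        have h5 := le_of_TT hs hx hv (hlt.trans huv.le) m
        have h6 : cum x m = cum u m := by
          rcases h4 with h4 | h4 <;> rcases h5 with h5 | h5 <;> linarith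
        rw [h6, add_zero]
    have hlin := cum_lin s c m
    rw [h1] at hlin
    have hzero : cum (0 : Fin n → ℝ) m = 0 := by
      unfold cum
      apply Finset.sum_eq_zero
      intro i _
      split_ifs <;> rfl
    rw [hzero, Finset.sum_congr rfl hval, Finset.sum_add_distrib, ← Finset.sum_mul, h0, zero_mul,
      zero_add] at hlin
    have h2 : ∑ x ∈ s, (if TT u < TT x then c x else 0) = c v := by
      rw [Finset.sum_eq_single_of_mem v hv, if_pos huv]
      intro x hx hxv
      split_ifs with hlt
      · have h3 : TT v ≤ TT x := by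
          by_contra hlt2
          push Not at hlt2
          have := humax x (Finset.mem_filter.2 ⟨hx, hlt2⟩)
          linarith
        rcases h3.eq_or_lt with h4 | h4
        · exact absurd (eq_of_TT hs hx hv h4.symm) hxv
        · exact hbig x hx h4
      · rfl
    rw [h2] at hlin
    exact hcv hlin.symm

theorem alc_indep {k n : ℕ} {s : Finset (Fin n → ℝ)} (hs : IsAlc k s) :
    AffineIndependent ℝ ((↑) : s → (Fin n → ℝ)) := by
  classical
  rw [affineIndependent_iff]
  intro t w h0 h1
  obtain ⟨c, hcdef⟩ : ∃ c : (Fin n → ℝ) → ℝ, c = fun x =>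
      if h : x ∈ s then (if (⟨x, h⟩ : s) ∈ t then w ⟨x, h⟩ else 0) else 0 := ⟨_, rfl⟩
  have hc : ∀ x : s, c x = if x ∈ t then w x else 0 := by
    intro x
    rw [hcdef]
    simp
  have h2 : ∑ v ∈ s, c v = 0 := by
    rw [← Finset.sum_coe_sort s c]
    simp_rw [hc]
    rw [Finset.sum_ite_mem, Finset.univ_inter]
    exact h0
  have h3 : ∑ v ∈ s, c v • v = 0 := by
    rw [← Finset.sum_coe_sort s (fun v => c v • v)]
    simp_rw [hc, ite_smul, zero_smul]
    rw [Finset.sum_ite_mem, Finset.univ_inter]
    exact h1
  have h4 := alc_weights_zero hs c h2 h3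
  intro e he
  have h5 := h4 e e.2
  rw [hc, if_pos he] at h5
  exact h5

end Pool.Agent.Lib.HyS
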