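import Pool.Agent.Lib.HyS.Defs

/-!
# HyS, row PrA: primitive groups whose point stabilisers have orbits of length at most two:
the point stabilisers have order at most two

PROOF IN WORDS. `G` is primitive (`MulAction.IsPreprimitive`), `n ≥ 3`. The stabiliser of a point is
a maximal subgroup of `G` (`MulAction.isCoatom_stabilizer_iff_preprimitive` or similar; needs
`Nontrivial (Fin n)`). Suppose `σ ≠ 1`, `τ ≠ 1`, `σ ≠ τ` all fix `x`. Let `S z` be the stabiliser of
`z` in `G`. `σ ≠ 1` moves some `y`: `σ y ≠ y`. Let `N = S x ⊓ S y`. By `hloc` the orbit of `y`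
under `S x` has exactly two points, so `N` has index two in `S x`; concretely: every
`ρ ∈ S x` either fixes `y` or maps `y` to `σ y`. So `N` is normalised by `S x`: for `ρ ∈ S x` and
`ν ∈ N`: `ρ ν ρ⁻¹` fixes `x`, and it fixes `ρ y`; if `ρ y = y` fine; if `ρ y = σ y`, then
`ρ ν ρ⁻¹` fixes `x` and `σ y`; it fixes `y` too, because the orbit `{y, σ y}` of `S x` is mapped
to itself. In the same way `N` is normalised by `S y` (its orbit of `x` has at most two points, by
`hloc`). `S x ≠ S y`: `σ ∈ S x` moves `y`. Both are maximal, so `S x ⊔ S y = G` and `N` is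
normalised by `G`. `N` fixes `x`, `G` is transitive, so `N` fixes all points (`g N g⁻¹ = N` fixes
`g x`): `N = 1`. Now `σ, τ` and `σ⁻¹ τ` are in `S x`. `τ ∉ N` (as `τ ≠ 1`), so `τ y = σ y`, and
`σ⁻¹ τ` fixes `x` and `y`, so it is in `N = 1`: `σ = τ`, a contradiction.
(The case without such `y` does not occur; if you like, work with elements of
`Equiv.Perm (Fin n)` that lie in `G` and use `MulAction.IsPreprimitive` through the statement: a
subgroup `M ≤ G` containing the stabiliser of `x` in `G` is equal to it or to `G`.)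
-/

namespace Pool.Agent.Lib.HyS

private theorem conj_fix {n : ℕ} (G : Subgroup (Equiv.Perm (Fin n)))
    (hloc : ∀ x y : Fin n, ∀ σ ∈ G, ∀ τ ∈ G, σ x = x → τ x = x →
      (σ y = y ∨ τ y = y ∨ σ y = τ y)) (a b : Fin n) (ρ ν : G)
    (hρ : (ρ : Equiv.Perm (Fin n)) a = a) (hνa : (ν : Equiv.Perm (Fin n)) a = a)
    (hνb : (ν : Equiv.Perm (Fin n)) b = b) :
    ((ρ * ν * ρ⁻¹ : G) : Equiv.Perm (Fin n)) b = b := by
  have hρ' : ((ρ⁻¹ : G) : Equiv.Perm (Fin n)) a = a := by
    rw [Subgroup.coe_inv, Equiv.Perm.inv_eq_iff_eq]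
    exact hρ.symm
  have hm : ((ν * ρ⁻¹ : G) : Equiv.Perm (Fin n)) a = a := by
    rw [Subgroup.coe_mul, Equiv.Perm.mul_apply, hρ', hνa]
  have h := hloc a b _ (ρ⁻¹ : G).2 _ (ν * ρ⁻¹ : G).2 hρ' hm
  have key : ((ν * ρ⁻¹ : G) : Equiv.Perm (Fin n)) b = ((ρ⁻¹ : G) : Equiv.Perm (Fin n)) b := by
    rcases h with h | h | h
    · rw [Subgroup.coe_mul, Equiv.Perm.mul_apply, h, hνb]
    · rw [Subgroup.coe_mul, Equiv.Perm.mul_apply] at h ⊢
      have h' : ((ρ⁻¹ : G) : Equiv.Perm (Fin n)) b = b :=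
        (ν : Equiv.Perm (Fin n)).injective (h.trans hνb.symm)
      rw [h', hνb]
    · exact h.symm
  rw [mul_assoc, Subgroup.coe_mul, Equiv.Perm.mul_apply, key, Subgroup.coe_inv]
  simp

theorem stab_le_two {n : ℕ} (hn : 3 ≤ n) (G : Subgroup (Equiv.Perm (Fin n)))
    (hprim : MulAction.IsPreprimitive G (Fin n))
    (hloc : ∀ x y : Fin n, ∀ σ ∈ G, ∀ τ ∈ G, σ x = x → τ x = x →
      (σ y = y ∨ τ y = y ∨ σ y = τ y)) :
    ∀ x : Fin n, ∀ σ ∈ G, ∀ τ ∈ G, σ x = x → τ x = x → σ ≠ 1 → τ ≠ 1 → σ = τ := by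
  intro x σ hσ τ hτ hσx hτx hσ1 hτ1
  have : Nontrivial (Fin n) := Fin.nontrivial_iff_two_le.2 (by omega)
  obtain ⟨y, hy⟩ : ∃ y, σ y ≠ y := by
    by_contra hcon
    push Not at hcon
    exact hσ1 (Equiv.ext hcon)
  have cx : IsCoatom (MulAction.stabilizer G x) := MulAction.IsPreprimitive.isCoatom_stabilizer_of_isPreprimitive G x
  have cy : IsCoatom (MulAction.stabilizer G y) := MulAction.IsPreprimitive.isCoatom_stabilizer_of_isPreprimitive G y
  have mem : ∀ (g : G) (z : Fin n), g ∈ MulAction.stabilizer G z ↔ (g : Equiv.Perm (Fin n)) z = z := fun g z => Iff.rfl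
  have hne : MulAction.stabilizer G x ≠ MulAction.stabilizer G y := by
    intro h
    have h1 : (⟨σ, hσ⟩ : G) ∈ MulAction.stabilizer G x := hσx
    rw [h] at h1
    exact hy h1
  have htop : MulAction.stabilizer G x ⊔ MulAction.stabilizer G y = ⊤ := by
    rcases cx.le_iff.1 (le_sup_left : MulAction.stabilizer G x ≤ MulAction.stabilizer G x ⊔ MulAction.stabilizer G y) with h | h
    · exact h
    · exfalso
      have h1 : MulAction.stabilizer G y ≤ MulAction.stabilizer G x := by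
        rw [← h]
        exact le_sup_right
      rcases cy.le_iff.1 h1 with h2 | h2
      · exact cx.1 h2
      · exact hne h2
  have norm : ∀ (g : G), ∀ ν : G, (ν : Equiv.Perm (Fin n)) x = x ∧ (ν : Equiv.Perm (Fin n)) y = y →
      ((g * ν * g⁻¹ : G) : Equiv.Perm (Fin n)) x = x ∧ ((g * ν * g⁻¹ : G) : Equiv.Perm (Fin n)) y = y := by
    let N : Subgroup G :=
      { carrier := {g | ∀ ν : G, (ν : Equiv.Perm (Fin n)) x = x ∧ (ν : Equiv.Perm (Fin n)) y = y ↔
          ((g * ν * g⁻¹ : G) : Equiv.Perm (Fin n)) x = x ∧ ((g * ν * g⁻¹ : G) : Equiv.Perm (Fin n)) y = y}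
        mul_mem' := by
          intro a b ha hb ν
          rw [hb ν, ha (b * ν * b⁻¹)]
          have e : a * (b * ν * b⁻¹) * a⁻¹ = (a * b) * ν * (a * b)⁻¹ := by group
          rw [e]
        one_mem' := by
          intro ν
          simp
        inv_mem' := by
          intro a ha ν
          have h := ha (a⁻¹ * ν * a⁻¹⁻¹)
          have e : a * (a⁻¹ * ν * a⁻¹⁻¹) * a⁻¹ = ν := by group
          rw [e] at h
          exact h.symm }
    have self : ∀ (g ν : G) (a : Fin n), (g : Equiv.Perm (Fin n)) a = a → (ν : Equiv.Perm (Fin n)) a = a →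
        ((g * ν * g⁻¹ : G) : Equiv.Perm (Fin n)) a = a := by
      intro g ν a hg hν
      have hg' : g ∈ MulAction.stabilizer G a := hg
      have hν' : ν ∈ MulAction.stabilizer G a := hν
      exact mul_mem (mul_mem hg' hν') (inv_mem hg')
    have fwd : ∀ (a b : Fin n) (g : G), (g : Equiv.Perm (Fin n)) a = a → ∀ ν : G,
        (ν : Equiv.Perm (Fin n)) a = a ∧ (ν : Equiv.Perm (Fin n)) b = b →
        ((g * ν * g⁻¹ : G) : Equiv.Perm (Fin n)) a = a ∧ ((g * ν * g⁻¹ : G) : Equiv.Perm (Fin n)) b = b := by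
      intro a b g hg ν hν
      exact ⟨self g ν a hg hν.1, conj_fix G hloc a b g ν hg hν.1 hν.2⟩
    have bwd : ∀ (a b : Fin n) (g : G), (g : Equiv.Perm (Fin n)) a = a → ∀ ν : G,
        (ν : Equiv.Perm (Fin n)) a = a ∧ (ν : Equiv.Perm (Fin n)) b = b ↔
        ((g * ν * g⁻¹ : G) : Equiv.Perm (Fin n)) a = a ∧ ((g * ν * g⁻¹ : G) : Equiv.Perm (Fin n)) b = b := by
      intro a b g hg ν
      refine ⟨fwd a b g hg ν, fun h => ?_⟩
      have hg' : ((g⁻¹ : G) : Equiv.Perm (Fin n)) a = a := by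
        have h1 : g ∈ MulAction.stabilizer G a := hg
        exact inv_mem h1
      have h2 := fwd a b g⁻¹ hg' _ h
      have e : g⁻¹ * (g * ν * g⁻¹) * g⁻¹⁻¹ = ν := by group
      rw [e] at h2
      exact h2
    have hx : MulAction.stabilizer G x ≤ N := fun g hg ν => bwd x y g hg ν
    have hyy : MulAction.stabilizer G y ≤ N := by
      intro g hg ν
      have h := bwd y x g hg ν
      exact ⟨fun h1 => (h.1 h1.symm).symm, fun h1 => (h.2 h1.symm).symm⟩
    have hN : N = ⊤ := top_le_iff.1 (htop ▸ sup_le hx hyy)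
    intro g ν hν
    have hg : g ∈ N := by
      rw [hN]
      exact Subgroup.mem_top g
    exact (hg ν).1 hν
  have triv : ∀ ν : G, (ν : Equiv.Perm (Fin n)) x = x → (ν : Equiv.Perm (Fin n)) y = y → (ν : Equiv.Perm (Fin n)) = 1 := by
    intro ν h1 h2
    ext z
    obtain ⟨g, hg⟩ := MulAction.exists_smul_eq G x z
    have h3 := (norm g⁻¹ ν ⟨h1, h2⟩).1
    have hg' : (g : Equiv.Perm (Fin n)) x = z := hg
    rw [inv_inv, Subgroup.coe_mul, Subgroup.coe_mul, Equiv.Perm.mul_apply, Equiv.Perm.mul_apply, hg', Subgroup.coe_inv,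
      Equiv.Perm.inv_eq_iff_eq, hg'] at h3
    rw [h3]
    rfl
  rcases hloc x y σ hσ τ hτ hσx hτx with h | h | h
  · exact absurd h hy
  · exact absurd (triv ⟨τ, hτ⟩ hτx h) hτ1
  · have h1 : ((⟨σ, hσ⟩⁻¹ * ⟨τ, hτ⟩ : G) : Equiv.Perm (Fin n)) = 1 := by
      apply triv
      · show (σ⁻¹ * τ) x = x
        rw [Equiv.Perm.mul_apply, hτx, Equiv.Perm.inv_eq_iff_eq, hσx]
      · show (σ⁻¹ * τ) y = y
        rw [Equiv.Perm.mul_apply, Equiv.Perm.inv_eq_iff_eq, h]
    have h2 : σ⁻¹ * τ = 1 := h1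
    exact (inv_mul_eq_one.1 h2)

end Pool.Agent.Lib.HyS
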