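import Pool.Agent.Lib.HyS.Defs

/-!
# HyS, row PrB: regular primitive groups

PROOF IN WORDS. `G` is transitive and primitive on `n ≥ 3` points and all point stabilisers are
trivial, so the trivial subgroup of `G` is maximal (`MulAction.isCoatom_stabilizer_iff_preprimitive`
or similar, `MulAction.IsPreprimitive`), and `|G| = n` (the map `σ ↦ σ x` is a bijection from `G`
to `Fin n`). Take `r ∈ G`, `r ≠ 1` (`n ≥ 2`): it generates `G`, so `r` has order `|G| = n`, hence
`r ^ n = 1`, every `σ ∈ G` is a power of `r`, and the powers of `r` move `x` to every point.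
`n` is prime: if `1 < d < n` divides `n`, then `r ^ d ≠ 1` generates `G` too, but it has order
`n / d < n`.
-/

namespace Pool.Agent.Lib.HyS

theorem regular_prime {n : ℕ} (hn : 3 ≤ n) (G : Subgroup (Equiv.Perm (Fin n)))
    (hprim : MulAction.IsPreprimitive G (Fin n))
    (hreg : ∀ x : Fin n, ∀ σ ∈ G, σ x = x → σ = 1) :
    n.Prime ∧ ∃ r : Equiv.Perm (Fin n), ∃ x : Fin n,
      (∀ y, ∃ i : ℤ, (r ^ i) x = y) ∧ r ^ n = 1 ∧ ∀ σ ∈ G, ∃ i : ℤ, σ = r ^ i := by
  have : MulAction.IsPretransitive G (Fin n) := hprim.toIsPretransitive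
  have : Nontrivial (Fin n) := Fin.nontrivial_iff_two_le.2 (by omega)
  have hn0 : 0 < n := by omega
  obtain ⟨x0, -⟩ : ∃ x0 : Fin n, x0 = ⟨0, hn0⟩ := ⟨_, rfl⟩
  have hst : MulAction.stabilizer G x0 = ⊥ := by
    rw [eq_bot_iff]
    intro g hg
    rw [Subgroup.mem_bot]
    exact Subtype.ext (hreg x0 g g.2 hg)
  have hcard : Nat.card G = n := by
    have h1 := MulAction.index_stabilizer_of_transitive G x0
    rwa [hst, Subgroup.index_bot, Nat.card_fin] at h1
  have hco : IsCoatom (⊥ : Subgroup G) := by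
    rw [← hst]
    exact (MulAction.isCoatom_stabilizer_iff_preprimitive G x0).2 hprim
  have hgen : ∀ g : G, g ≠ 1 → Subgroup.zpowers g = ⊤ := by
    intro g hg
    refine hco.2 _ (bot_lt_iff_ne_bot.2 fun h => hg ?_)
    rwa [Subgroup.zpowers_eq_bot] at h
  have hord : ∀ g : G, g ≠ 1 → orderOf g = n := by
    intro g hg
    rw [← Nat.card_zpowers, hgen g hg, Nat.card_congr Subgroup.topEquiv.toEquiv, hcard]
  obtain ⟨y, hy⟩ := exists_ne x0
  obtain ⟨g, hg⟩ := MulAction.exists_smul_eq G x0 y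
  have hg1 : g ≠ 1 := by
    rintro rfl
    rw [one_smul] at hg
    exact hy hg.symm
  have hzp : ∀ h : G, ∃ i : ℤ, g ^ i = h := by
    intro h
    have h1 : h ∈ Subgroup.zpowers g := by
      rw [hgen g hg1]
      exact Subgroup.mem_top h
    exact Subgroup.mem_zpowers_iff.1 h1
  refine ⟨?_, (g : Equiv.Perm (Fin n)), x0, fun z => ?_, ?_, fun σ hσ => ?_⟩
  · rw [Nat.prime_def]
    refine ⟨by omega, fun d hd => ?_⟩
    by_cases h1 : g ^ d = 1
    · right
      have h2 := orderOf_dvd_of_pow_eq_one h1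
      rw [hord g hg1] at h2
      exact Nat.dvd_antisymm hd h2
    · left
      have hd0 : d ≠ 0 := by
        rintro rfl
        exact h1 (pow_zero g)
      have h2 := hord _ h1
      rw [orderOf_pow' g hd0, hord g hg1, Nat.gcd_eq_right hd] at h2
      have h3 := Nat.div_mul_cancel hd
      rw [h2] at h3
      exact Nat.eq_of_mul_eq_mul_left hn0 (by rw [h3, mul_one])
  · obtain ⟨h, hh⟩ := MulAction.exists_smul_eq G x0 z
    obtain ⟨i, hi⟩ := hzp h
    refine ⟨i, ?_⟩
    rw [← hh, ← hi, ← Subgroup.coe_zpow]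
    rfl
  · have h1 : g ^ n = 1 := orderOf_dvd_iff_pow_eq_one.1 (by rw [hord g hg1])
    rw [← Subgroup.coe_pow, h1]
    rfl
  · obtain ⟨i, hi⟩ := hzp ⟨σ, hσ⟩
    refine ⟨i, ?_⟩
    rw [← Subgroup.coe_zpow, hi]

end Pool.Agent.Lib.HyS
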