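import Pool.Agent.Lib.HyS.Defs

/-!
# HyS, row PrC: primitive groups with point stabilisers of order two are dihedral

PROOF IN WORDS. `σ ≠ 1` in `G` fixes `x`. By `hstab` and transitivity the stabiliser of every point
`z` contains exactly one element `t z ≠ 1` (a conjugate of `σ`; unique by `hstab`), and
`t z * t z = 1` (`(t z)⁻¹` also is a nontrivial element of the stabiliser, so it is `t z`). There is
a point `y` with `t y ≠ t x` (else `t x` fixes every point, so it is `1`). The stabilisers of `x`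
and `y` in `G` are `{1, t x}` and `{1, t y}`: two different maximal subgroups
(`MulAction.isCoatom_stabilizer_iff_preprimitive` or similar), so together they generate `G`. Let
`r = t x * t y ≠ 1` and `t = t x`. The set of all `r ^ i` and `r ^ i * t` (`i : ℤ`) is a subgroup
containing `t x` and `t y = t * r`... (`t * r ^ i = r ^ (-i) * t` because `t * r * t⁻¹ = t y * t x =
r⁻¹`), so it contains `G`.
-/

namespace Pool.Agent.Lib.HyS

/-- the powers of `r` and their products with `t` -/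
private def prc_M {n : ℕ} (r t : Equiv.Perm (Fin n)) (ht : t * t = 1) (hr : t * r * t⁻¹ = r⁻¹) :
    Subgroup (Equiv.Perm (Fin n)) where
  carrier := {τ | ∃ i : ℤ, τ = r ^ i ∨ τ = r ^ i * t}
  one_mem' := ⟨0, Or.inl (zpow_zero r).symm⟩
  mul_mem' := by
    have hc : ∀ j : ℤ, t * r ^ j = r ^ (-j) * t := by
      intro j
      have h1 : t * r ^ j * t⁻¹ = r ^ (-j) := by
        rw [← conj_zpow, hr, inv_zpow, ← zpow_neg]
      rw [← h1, inv_mul_cancel_right]
    rintro a b ⟨i, hi | hi⟩ ⟨j, hj | hj⟩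
    · exact ⟨i + j, Or.inl (by rw [hi, hj, zpow_add])⟩
    · exact ⟨i + j, Or.inr (by rw [hi, hj, zpow_add, mul_assoc])⟩
    · exact ⟨i + -j, Or.inr (by rw [hi, hj, mul_assoc, hc, ← mul_assoc, ← zpow_add])⟩
    · exact ⟨i + -j, Or.inl (by rw [hi, hj, mul_assoc, ← mul_assoc t, hc, mul_assoc, ht, mul_one, ← zpow_add])⟩
  inv_mem' := by
    have hc : ∀ j : ℤ, t * r ^ j = r ^ (-j) * t := by
      intro j
      have h1 : t * r ^ j * t⁻¹ = r ^ (-j) := by
        rw [← conj_zpow, hr, inv_zpow, ← zpow_neg]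
      rw [← h1, inv_mul_cancel_right]
    have ht' : t⁻¹ = t := inv_eq_of_mul_eq_one_left ht
    rintro a ⟨i, hi | hi⟩
    · exact ⟨-i, Or.inl (by rw [hi, zpow_neg])⟩
    · refine ⟨i, Or.inr ?_⟩
      rw [hi, mul_inv_rev, ht', ← zpow_neg, hc, neg_neg]

theorem dihedral_gen {n : ℕ} (hn : 3 ≤ n) (G : Subgroup (Equiv.Perm (Fin n)))
    (hprim : MulAction.IsPreprimitive G (Fin n))
    (hstab : ∀ x : Fin n, ∀ σ ∈ G, ∀ τ ∈ G, σ x = x → τ x = x → σ ≠ 1 → τ ≠ 1 → σ = τ)
    (x : Fin n) (σ : Equiv.Perm (Fin n)) (hσ : σ ∈ G) (hσx : σ x = x) (hσ1 : σ ≠ 1) :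
    ∃ r t : Equiv.Perm (Fin n), r ∈ G ∧ t ∈ G ∧ r ≠ 1 ∧ t x = x ∧ t * t = 1 ∧
      t * r * t⁻¹ = r⁻¹ ∧ ∀ τ ∈ G, ∃ i : ℤ, τ = r ^ i ∨ τ = r ^ i * t := by
  have : Nontrivial (Fin n) := Fin.nontrivial_iff_two_le.2 (by omega)
  have hinv : ∀ (z : Fin n) (τ : Equiv.Perm (Fin n)), τ ∈ G → τ z = z → τ ≠ 1 → τ * τ = 1 := by
    intro z τ hτ hz h1
    have h2 : τ = τ⁻¹ := by
      refine hstab z τ hτ τ⁻¹ (G.inv_mem hτ) hz ?_ h1 (inv_ne_one.2 h1)
      rw [Equiv.Perm.inv_eq_iff_eq, hz]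
    nth_rewrite 2 [h2]
    exact mul_inv_cancel τ
  have hσσ := hinv x σ hσ hσx hσ1
  have hσi : σ⁻¹ = σ := inv_eq_of_mul_eq_one_left hσσ
  -- a conjugate different from `σ`
  obtain ⟨g, hg, hgσ⟩ : ∃ g ∈ G, g * σ * g⁻¹ ≠ σ := by
    by_contra hno
    push Not at hno
    apply hσ1
    ext z
    obtain ⟨⟨g, hgG⟩, hg⟩ := MulAction.exists_smul_eq G x z
    have h1 : g x = z := hg
    have h2 := hno g hgG
    have h3 : (g * σ * g⁻¹) z = z := by
      rw [← h1]
      simp [hσx]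
    rw [h2] at h3
    rw [h3]
    rfl
  set s : Equiv.Perm (Fin n) := g * σ * g⁻¹ with hs
  have hsG : s ∈ G := G.mul_mem (G.mul_mem hg hσ) (G.inv_mem hg)
  have hsy : s (g x) = g x := by
    rw [hs]
    simp [hσx]
  have hs1 : s ≠ 1 := by
    intro h
    apply hσ1
    rw [hs] at h
    have h2 : g * σ = g := by
      have := congrArg (· * g) h
      simpa using this
    simpa using h2
  have hss := hinv (g x) s hsG hsy hs1
  have hsi : s⁻¹ = s := inv_eq_of_mul_eq_one_left hss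
  have hr : σ * (σ * s) * σ⁻¹ = (σ * s)⁻¹ := by
    rw [← mul_assoc, hσσ, one_mul, mul_inv_rev, hsi]
  refine ⟨σ * s, σ, G.mul_mem hσ hsG, hσ, ?_, hσx, hσσ, hr, ?_⟩
  · intro h
    apply hgσ
    rw [← hσi]
    exact (inv_eq_of_mul_eq_one_right h).symm
  -- the stabilisers
  have hcx : IsCoatom (MulAction.stabilizer G x) := MulAction.isCoatom_stabilizer_iff_preprimitive G x |>.2 hprim
  have hcy : IsCoatom (MulAction.stabilizer G (g x)) :=
    MulAction.isCoatom_stabilizer_iff_preprimitive G (g x) |>.2 hprim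
  have hM : ∀ z : Fin n, ∀ τ ∈ G, τ z = z → (z = x ∨ z = g x) → τ ∈ prc_M (σ * s) σ hσσ hr := by
    rintro z τ hτ hz (rfl | rfl)
    · by_cases h1 : τ = 1
      · rw [h1]
        exact Subgroup.one_mem _
      · rw [hstab z τ hτ σ hσ hz hσx h1 hσ1]
        exact ⟨0, Or.inr (by rw [zpow_zero, one_mul])⟩
    · by_cases h1 : τ = 1
      · rw [h1]
        exact Subgroup.one_mem _
      · rw [hstab (g x) τ hτ s hsG hz hsy h1 hs1]
        exact ⟨-1, Or.inr (by rw [zpow_neg_one, mul_inv_rev, hsi, hσi, mul_assoc, hσσ, mul_one])⟩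
  have hlex : MulAction.stabilizer G x ≤ (prc_M (σ * s) σ hσσ hr).subgroupOf G := by
    intro τ hτ
    rw [Subgroup.mem_subgroupOf]
    exact hM x τ τ.2 hτ (Or.inl rfl)
  have hley : MulAction.stabilizer G (g x) ≤ (prc_M (σ * s) σ hσσ hr).subgroupOf G := by
    intro τ hτ
    rw [Subgroup.mem_subgroupOf]
    exact hM (g x) τ τ.2 hτ (Or.inr rfl)
  have htop : (prc_M (σ * s) σ hσσ hr).subgroupOf G = ⊤ := by
    rcases hcx.le_iff.1 hlex with h | h
    · exact h
    · exfalso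
      rw [h] at hley
      rcases hcy.le_iff.1 hley with h' | h'
      · exact hcx.1 h'
      · have h1 : (⟨σ, hσ⟩ : G) ∈ MulAction.stabilizer G (g x) := by
          rw [← h']
          exact hσx
        have h2 : σ (g x) = g x := h1
        exact hgσ (hstab (g x) s hsG σ hσ hsy h2 hs1 hσ1)
  intro τ hτ
  have h1 : (⟨τ, hτ⟩ : G) ∈ (prc_M (σ * s) σ hσσ hr).subgroupOf G := by
    rw [htop]
    exact Subgroup.mem_top _
  rw [Subgroup.mem_subgroupOf] at h1
  exact h1

end Pool.Agent.Lib.HyS
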