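import Pool.Agent.Lib.HyS.Defs

/-!
# HyS, row PrD: a primitive dihedral group has prime degree

PROOF IN WORDS. For every integer `d` with `r ^ d ≠ 1` the cyclic group `⟨r ^ d⟩` is normalised by
`G` (`t r^d t⁻¹ = r^(-d)`), so its orbits are blocks of `G` (or: it is a normal subgroup, and a
nontrivial normal subgroup of a primitive group is transitive, Mathlib:
`MulAction.IsPreprimitive.isPretransitive_of_normal` / `IsQuasiPreprimitive`; or directly: the orbit
of `x` under `⟨r ^ d⟩` is a block, it is not a single point for a suitable point, and `G` is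
primitive), hence `⟨r ^ d⟩` is transitive on `Fin n`. In particular (`d = 1`) `⟨r⟩` is transitive; a
power `r ^ i` that fixes one point fixes all points (it commutes with `r`), so it is `1`; so `r` has
order exactly `n` (`i ↦ (r ^ i) x` gives a bijection `ZMod (orderOf r) ≃ Fin n`), `r ^ n = 1`. If
`1 < d < n` divides `n`, then `r ^ d ≠ 1` has order `n / d < n`, so `⟨r ^ d⟩` is not transitive, a
contradiction; so `n` is prime (`Nat.prime_def_lt''` or similar).
-/

namespace Pool.Agent.Lib.HyS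

private theorem prd_conj {α : Type} [Group α] {r t : α} (h : t * r * t⁻¹ = r⁻¹) (m : ℤ) :
    t * r ^ m * t⁻¹ = r ^ (-m) := by
  have h1 : t * r ^ m * t⁻¹ = (t * r * t⁻¹) ^ m := by rw [conj_zpow]
  rw [h1, h, inv_zpow, zpow_neg]

theorem dihedral_prime {n : ℕ} (hn : 3 ≤ n) (G : Subgroup (Equiv.Perm (Fin n)))
    (hprim : MulAction.IsPreprimitive G (Fin n)) (x : Fin n)
    (r t : Equiv.Perm (Fin n)) (hr : r ∈ G) (ht : t ∈ G) (hr1 : r ≠ 1) (htx : t x = x)
    (htt : t * t = 1) (htr : t * r * t⁻¹ = r⁻¹)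
    (hG : ∀ τ ∈ G, ∃ i : ℤ, τ = r ^ i ∨ τ = r ^ i * t) :
    n.Prime ∧ (∀ y, ∃ i : ℤ, (r ^ i) x = y) ∧ r ^ n = 1 := by
  classical
  have := hprim
  -- every nontrivial power generates a transitive group
  have T : ∀ d : ℤ, r ^ d ≠ 1 → ∀ y z : Fin n, ∃ k : ℤ, (r ^ (d * k)) y = z := by
    intro d hd y z
    let r' : G := ⟨r, hr⟩
    have hN : (Subgroup.zpowers (r' ^ d)).Normal := by
      refine ⟨?_⟩
      rintro a ⟨k, rfl⟩ g
      obtain ⟨i, hi⟩ := hG g.1 g.2
      have hm : ((r' ^ d) ^ k : G).1 = r ^ (d * k) := by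
        rw [zpow_mul]
        rfl
      rcases hi with hi | hi
      · refine ⟨k, ?_⟩
        apply Subtype.ext
        show ((r' ^ d) ^ k : G).1 = g.1 * ((r' ^ d) ^ k : G).1 * (g.1)⁻¹
        rw [hm, hi, ← zpow_add, ← zpow_neg, ← zpow_add]
        congr 1
        ring
      · refine ⟨-k, ?_⟩
        apply Subtype.ext
        show ((r' ^ d) ^ (-k) : G).1 = g.1 * ((r' ^ d) ^ k : G).1 * (g.1)⁻¹
        have hm' : ((r' ^ d) ^ (-k) : G).1 = r ^ (d * (-k)) := by
          rw [zpow_mul]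
          rfl
        rw [hm, hm', hi, mul_inv_rev]
        have h1 : r ^ i * t * r ^ (d * k) * (t⁻¹ * (r ^ i)⁻¹) =
            r ^ i * (t * r ^ (d * k) * t⁻¹) * (r ^ i)⁻¹ := by group
        rw [h1, prd_conj htr, ← zpow_add, ← zpow_neg, ← zpow_add]
        congr 1
        ring
    have hfix : MulAction.fixedPoints (Subgroup.zpowers (r' ^ d)) (Fin n) ≠ Set.univ := by
      intro h
      apply hd
      ext y
      have hy : y ∈ MulAction.fixedPoints (Subgroup.zpowers (r' ^ d)) (Fin n) := h ▸ Set.mem_univ y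
      have h2 := hy ⟨r' ^ d, Subgroup.mem_zpowers _⟩
      have h3 : (r ^ d) y = y := h2
      rw [h3]
      rfl
    have htrans : MulAction.IsPretransitive (Subgroup.zpowers (r' ^ d)) (Fin n) :=
      MulAction.IsQuasiPreprimitive.isPretransitive_of_normal hfix
    obtain ⟨⟨a, ⟨k, hk⟩⟩, ha⟩ := htrans.exists_smul_eq y z
    refine ⟨k, ?_⟩
    have h1 : (a : G).1 y = z := ha
    rw [← h1, ← hk, zpow_mul]
    rfl
  have T1 : ∀ y, ∃ i : ℤ, (r ^ i) x = y := by
    intro y
    obtain ⟨k, hk⟩ := T 1 (by rwa [zpow_one]) x y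
    exact ⟨k, by rwa [one_mul] at hk⟩
  -- a power which fixes `x` is trivial
  have F : ∀ i : ℤ, (r ^ i) x = x → r ^ i = 1 := by
    intro i hi
    ext y
    obtain ⟨j, rfl⟩ := T1 y
    have h1 : (r ^ i) ((r ^ j) x) = (r ^ j) ((r ^ i) x) := by
      rw [← Equiv.Perm.mul_apply, ← Equiv.Perm.mul_apply, ← zpow_add, ← zpow_add, add_comm]
    rw [h1, hi]
    rfl
  -- the order of `r` is `n`
  have hord : orderOf r = n := by
    have hb : Function.Bijective (fun g : Subgroup.zpowers r => g.1 x) := by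
      constructor
      · rintro ⟨_, ⟨i, rfl⟩⟩ ⟨_, ⟨j, rfl⟩⟩ h
        have h1 : (r ^ i) x = (r ^ j) x := h
        apply Subtype.ext
        show r ^ i = r ^ j
        have h2 : (r ^ (-j + i)) x = x := by
          rw [zpow_add, Equiv.Perm.mul_apply, h1, ← Equiv.Perm.mul_apply, ← zpow_add]
          simp
        have h3 := F _ h2
        rw [zpow_add, zpow_neg, inv_mul_eq_one] at h3
        exact h3.symm
      · intro y
        obtain ⟨i, hi⟩ := T1 y
        exact ⟨⟨r ^ i, ⟨i, rfl⟩⟩, hi⟩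
    have h1 := Nat.card_congr (Equiv.ofBijective _ hb)
    rw [Nat.card_zpowers, Nat.card_eq_fintype_card, Fintype.card_fin] at h1
    exact h1
  refine ⟨?_, T1, orderOf_dvd_iff_pow_eq_one.1 (by rw [hord])⟩
  rw [Nat.prime_def]
  refine ⟨by omega, fun d hd => ?_⟩
  by_contra hcon
  push Not at hcon
  have hd0 : 0 < d := Nat.pos_of_dvd_of_pos hd (by omega)
  have hdn : d < n := lt_of_le_of_ne (Nat.le_of_dvd (by omega) hd) hcon.2
  have hrd : r ^ (d : ℤ) ≠ 1 := by
    intro h
    rw [zpow_natCast] at h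
    have := orderOf_le_of_pow_eq_one hd0 h
    omega
  obtain ⟨k, hk⟩ := T d hrd x (r x)
  have h1 : (r ^ (-1 + (d : ℤ) * k)) x = x := by
    rw [zpow_add, Equiv.Perm.mul_apply, hk, zpow_neg, zpow_one]
    simp
  have h2 := F _ h1
  rw [← orderOf_dvd_iff_zpow_eq_one, hord] at h2
  have h3 : (d : ℤ) ∣ -1 + (d : ℤ) * k := (Int.natCast_dvd_natCast.2 hd).trans h2
  have h4 : (d : ℤ) ∣ -1 := (dvd_add_left (dvd_mul_right _ _)).1 h3
  have h5 : (d : ℤ) ∣ 1 := by simpa using h4
  have h6 : d ∣ 1 := by exact_mod_cast h5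
  exact hcon.1 (Nat.dvd_one.1 h6)

end Pool.Agent.Lib.HyS
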