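import Pool.Agent.Lib.HyS.Defs

/-!
# HyS, row PrE: conjugation into the dihedral group

PROOF IN WORDS. `⟨r⟩` is transitive and `r ^ n = 1`, so `i ↦ (r ^ i) x` from `{0, ..., n-1}` (as
`Fin n`) to `Fin n` is surjective (reduce an integer exponent mod `n`), hence a bijection
`e : Fin n ≃ Fin n`, `e i = (r ^ (i : ℕ)) x`; let `ρ = e⁻¹`. Then `ρ * r * ρ⁻¹ = finRotate n`
(`r (e i) = e (i + 1)`, with `r ^ n = 1` for the last index; write `n = m + 1` and use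
`finRotate_succ_apply`/`finRotate_last`), so `ρ * r ^ i * ρ⁻¹ = (finRotate n) ^ i ∈ dihedral n`. For
`t` (second case): `t ((r ^ i) x) = (r ^ (-i)) (t x) = (r ^ (-i)) x`, so `ρ * t * ρ⁻¹` maps `i` to
`-i` mod `n`, that is `ρ * t * ρ⁻¹ = finRotate n * Fin.revPerm` (`Fin.rev i = n - 1 - i`), which is
in `dihedral n` (`Subgroup.subset_closure`, `mul_mem`).
-/

namespace Pool.Agent.Lib.HyS

theorem conj_dihedral {n : ℕ} (hn : 3 ≤ n) (r : Equiv.Perm (Fin n)) (x : Fin n)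
    (hr : ∀ y, ∃ i : ℤ, (r ^ i) x = y) (hrn : r ^ n = 1) :
    ∃ ρ : Equiv.Perm (Fin n), (∀ i : ℤ, ρ * r ^ i * ρ⁻¹ ∈ dihedral n) ∧
      ∀ t : Equiv.Perm (Fin n), t x = x → t * r * t⁻¹ = r⁻¹ → ρ * t * ρ⁻¹ ∈ dihedral n := by
  obtain ⟨m, rfl⟩ : ∃ m, n = m + 1 := ⟨n - 1, by omega⟩
  have hsur : Function.Surjective (fun i : Fin (m + 1) => (r ^ (i : ℕ)) x) := by
    intro y
    obtain ⟨i, hi⟩ := hr y
    have hpos : (0 : ℤ) < ((m + 1 : ℕ) : ℤ) := by exact_mod_cast Nat.succ_pos m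
    have h0 : 0 ≤ i % ((m + 1 : ℕ) : ℤ) := Int.emod_nonneg _ hpos.ne'
    have h1 : i % ((m + 1 : ℕ) : ℤ) < ((m + 1 : ℕ) : ℤ) := Int.emod_lt_of_pos _ hpos
    obtain ⟨k, hk⟩ := Int.eq_ofNat_of_zero_le h0
    have hklt : k < m + 1 := by rw [hk] at h1; exact_mod_cast h1
    refine ⟨⟨k, hklt⟩, ?_⟩
    have hd : i = ((m + 1 : ℕ) : ℤ) * (i / ((m + 1 : ℕ) : ℤ)) + (k : ℤ) := by
      have := Int.mul_ediv_add_emod i ((m + 1 : ℕ) : ℤ)
      rw [hk] at this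
      exact this.symm
    have hp : r ^ i = r ^ k := by
      rw [hd, zpow_add, zpow_mul, zpow_natCast, hrn, one_zpow, one_mul, zpow_natCast]
    show (r ^ k) x = y
    rw [← hp]
    exact hi
  have hbij : Function.Bijective (fun i : Fin (m + 1) => (r ^ (i : ℕ)) x) :=
    ⟨Finite.injective_iff_surjective.mpr hsur, hsur⟩
  let e : Equiv.Perm (Fin (m + 1)) := Equiv.ofBijective _ hbij
  have he : ∀ i : Fin (m + 1), e i = (r ^ (i : ℕ)) x := fun i => rfl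
  have hrot : ∀ i : Fin (m + 1), r (e i) = e (finRotate (m + 1) i) := by
    intro i
    rw [he, he, finRotate_apply, Fin.val_add, Fin.val_one', Nat.add_mod_mod,
      ← pow_eq_pow_mod _ hrn, pow_succ', Equiv.Perm.mul_apply]
  have hconj : e⁻¹ * r * e⁻¹⁻¹ = finRotate (m + 1) := by
    ext1 i
    rw [inv_inv, Equiv.Perm.mul_apply, Equiv.Perm.mul_apply, hrot, Equiv.Perm.inv_eq_iff_eq]
  have hrotmem : finRotate (m + 1) ∈ dihedral (m + 1) :=
    Subgroup.subset_closure (Or.inl rfl)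
  have hrevmem : (Fin.revPerm : Equiv.Perm (Fin (m + 1))) ∈ dihedral (m + 1) :=
    Subgroup.subset_closure (Or.inr rfl)
  refine ⟨e⁻¹, ?_, ?_⟩
  · intro i
    rw [← conj_zpow, hconj]
    exact Subgroup.zpow_mem _ hrotmem i
  · intro t htx htr
    have hmain : e⁻¹ * t * e⁻¹⁻¹ = finRotate (m + 1) * Fin.revPerm := by
      ext1 i
      rw [inv_inv, Equiv.Perm.mul_apply, Equiv.Perm.mul_apply, Equiv.Perm.mul_apply,
        Equiv.Perm.inv_eq_iff_eq, ← hrot, he, he, Fin.revPerm_apply, Fin.val_rev]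
      have h1 : t * r ^ (i : ℕ) * t⁻¹ = (r⁻¹) ^ (i : ℕ) := by
        rw [← conj_pow, htr]
      have h2 : t ((r ^ (i : ℕ)) x) = ((r⁻¹) ^ (i : ℕ)) x := by
        rw [← h1, Equiv.Perm.mul_apply, Equiv.Perm.mul_apply]
        have : t⁻¹ x = x := by
          rw [Equiv.Perm.inv_eq_iff_eq]; exact htx.symm
        rw [this]
      rw [h2]
      have h3 : r * r ^ (m + 1 - ((i : ℕ) + 1)) = (r⁻¹) ^ (i : ℕ) := by
        rw [← pow_succ', inv_pow, eq_inv_iff_mul_eq_one, ← pow_add]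
        have hi := i.isLt
        have : m + 1 - ((i : ℕ) + 1) + 1 + (i : ℕ) = m + 1 := by omega
        rw [this, hrn]
      rw [← h3, Equiv.Perm.mul_apply]
    rw [hmain]
    exact Subgroup.mul_mem _ hrotmem hrevmem

end Pool.Agent.Lib.HyS
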