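import Pool.Agent.Lib.HyS.Bas

/-!
# HyS, row Thr: the elements of the simplex of a point are given by thresholds

PROOF IN WORDS. For `u, v ∈ s` write `v ≤ u` if `cum v m ≤ cum u m` for all `m`; any two elements
are comparable, and then the differences are `0` or `1` (`cmp`). Let `c = ∑ w u` over the `u ∈ s`
with `v ≤ u` (`u = v` included); `0 < w v ≤ c ≤ 1`. Let `v0` be the smallest element of `s`
(minimise `∑ m ∈ range (n+1), cum u m`). Fix `m` and let `S = {u ∈ s | cum u m = cum v0 m + 1}` and
`W = ∑ u ∈ S, w u`; the other `u ∈ s` have `cum u m = cum v0 m`. So (`cum_lin`)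
`cum p m = cum v0 m + W`, and `v0 ∉ S` gives `0 ≤ W ≤ 1 - w v0 < 1`; as `cum v0 m` is an integer,
`⌊cum p m⌋ = cum v0 m` and `Int.fract (cum p m) = W`. If `cum v m = cum v0 m + 1`, then every `u`
with `v ≤ u` is in `S`, so `W ≥ c`. If `cum v m = cum v0 m`, then `u ∈ S` implies that `u ≤ v` is
false, so `v ≤ u` and `u ≠ v`, so `W ≤ c - w v < c`.
-/

namespace Pool.Agent.Lib.HyS

theorem threshold {k n : ℕ} {s : Finset (Fin n → ℝ)} (hs : IsAlc k s)
    (w : (Fin n → ℝ) → ℝ) (hw : ∀ v ∈ s, 0 < w v) (hsum : ∑ v ∈ s, w v = 1)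
    {p : Fin n → ℝ} (hp : ∑ v ∈ s, w v • v = p) (v : Fin n → ℝ) (hv : v ∈ s) :
    ∃ c : ℝ, 0 < c ∧ c ≤ 1 ∧
      ∀ m, cum v m = (⌊cum p m⌋ : ℝ) + (if c ≤ Int.fract (cum p m) then 1 else 0) := by
  classical
  have hw0 : ∀ u ∈ s, 0 ≤ w u := fun u hu => (hw u hu).le
  -- the smallest element
  obtain ⟨v0, hv0, hmin⟩ := Finset.exists_min_image s (fun u => ∑ m ∈ Finset.range (n + 1), cum u m) hs.ne
  have h0 : ∀ u ∈ s, ∀ m, cum u m = cum v0 m ∨ cum u m = cum v0 m + 1 := by
    intro u hu
    rcases cmp (hs.vert v0 hv0) (hs.vert u hu) (hs.sorted v0 hv0 u hu) with h1 | h1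
    · exact h1
    · intro m
      left
      rcases h1 m with h2 | h2
      · exact h2.symm
      · exfalso
        have hmn : m < n + 1 := by
          by_contra hcon
          have h3 : n ≤ m := by omega
          have h4 := cum_total v0 m h3
          have h5 := cum_total u m h3
          rw [(hs.vert v0 hv0).2] at h4
          rw [(hs.vert u hu).2] at h5
          linarith
        have h6 : ∑ m ∈ Finset.range (n + 1), cum u m < ∑ m ∈ Finset.range (n + 1), cum v0 m := by
          refine Finset.sum_lt_sum (fun a _ => ?_) ⟨m, Finset.mem_range.2 hmn, by linarith⟩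
          rcases h1 a with h7 | h7 <;> linarith
        exact absurd (hmin u hu) (not_le.2 h6)
  have hup : ∀ u ∈ s, ∀ m, cum u m = cum v m + 1 → ∀ a, cum v a ≤ cum u a := by
    intro u hu m hm a
    rcases cmp (hs.vert v hv) (hs.vert u hu) (hs.sorted v hv u hu) with h1 | h1
    · rcases h1 a with h2 | h2 <;> linarith
    · rcases h1 m with h2 | h2 <;> linarith
  have hvP : v ∈ s.filter fun u => ∀ m, cum v m ≤ cum u m := Finset.mem_filter.2 ⟨hv, fun _ => le_rfl⟩
  refine ⟨∑ u ∈ s.filter (fun u => ∀ m, cum v m ≤ cum u m), w u, ?_, ?_, ?_⟩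
  · exact (hw v hv).trans_le (Finset.single_le_sum (f := w)
      (fun u hu => hw0 u (Finset.mem_filter.1 hu).1) hvP)
  · rw [← hsum]
    exact Finset.sum_le_sum_of_subset_of_nonneg (Finset.filter_subset _ _) fun u hu _ => hw0 u hu
  · intro m
    set S := s.filter fun u => cum u m = cum v0 m + 1 with hS
    have hW0 : 0 ≤ ∑ u ∈ S, w u := Finset.sum_nonneg fun u hu => hw0 u (Finset.mem_filter.1 hu).1
    have hW1 : ∑ u ∈ S, w u < 1 := by
      rw [← hsum]
      refine Finset.sum_lt_sum_of_subset (Finset.filter_subset _ _) hv0 ?_ (hw v0 hv0) fun u hu _ => hw0 u hu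
      intro h1
      have := (Finset.mem_filter.1 h1).2
      linarith
    have hcp : cum p m = cum v0 m + ∑ u ∈ S, w u := by
      rw [← hp, cum_lin]
      have h1 : ∀ u ∈ s, w u * cum u m = w u * cum v0 m + if cum u m = cum v0 m + 1 then w u else 0 := by
        intro u hu
        split_ifs with h2
        · rw [h2]
          ring
        · rcases h0 u hu m with h3 | h3
          · rw [h3, add_zero]
          · exact absurd h3 h2
      rw [Finset.sum_congr rfl h1, Finset.sum_add_distrib, ← Finset.sum_mul, hsum, one_mul,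
        hS, Finset.sum_filter]
    obtain ⟨z0, hz0⟩ := cum_int (hs.vert v0 hv0) m
    have hfl : ⌊cum p m⌋ = z0 := by
      rw [Int.floor_eq_iff, hcp, hz0]
      constructor <;> linarith
    have hfr : Int.fract (cum p m) = ∑ u ∈ S, w u := by
      rw [Int.fract, hfl, hcp, hz0]
      ring
    rw [hfl, hfr, ← hz0]
    rcases h0 v hv m with h1 | h1
    · have h2 : ∑ u ∈ S, w u < ∑ u ∈ s.filter (fun u => ∀ m, cum v m ≤ cum u m), w u := by
        refine Finset.sum_lt_sum_of_subset (fun u hu => ?_) hvP ?_ (hw v hv)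
          fun u hu _ => hw0 u (Finset.mem_filter.1 hu).1
        · obtain ⟨h3, h4⟩ := Finset.mem_filter.1 hu
          refine Finset.mem_filter.2 ⟨h3, hup u h3 m ?_⟩
          rw [h1]
          exact h4
        · intro h3
          have := (Finset.mem_filter.1 h3).2
          linarith
      rw [if_neg (not_le.2 h2), h1, add_zero]
    · have h2 : ∑ u ∈ s.filter (fun u => ∀ m, cum v m ≤ cum u m), w u ≤ ∑ u ∈ S, w u := by
        refine Finset.sum_le_sum_of_subset_of_nonneg (fun u hu => ?_)
          fun u hu _ => hw0 u (Finset.mem_filter.1 hu).1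
        obtain ⟨h3, h4⟩ := Finset.mem_filter.1 hu
        refine Finset.mem_filter.2 ⟨h3, ?_⟩
        rcases h0 u h3 m with h5 | h5
        · have := h4 m
          linarith
        · exact h5
      rw [if_pos h2, h1]

end Pool.Agent.Lib.HyS
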