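import Pool.Agent.Lib.HyS.CrsB
import Pool.Agent.Lib.HyS.FisB
import Pool.Agent.Lib.HyS.Com

/-!
# HyS, TwoTr: no 2-transitive group
-/

namespace Pool.Agent.Lib.HyS

/-- the centre of the hypersimplex -/
noncomputable def centre (k n : ℕ) : Fin n → ℝ := fun _ => (k : ℝ) / n

theorem centre_mem {k n : ℕ} (hn : 0 < n) (hkn : k ≤ n) : centre k n ∈ hypersimplex k n := by
  have hn' : (0 : ℝ) < n := by exact_mod_cast hn
  have hkn' : (k : ℝ) ≤ n := by exact_mod_cast hkn
  refine ⟨fun i => ⟨by unfold centre; positivity, ?_⟩, ?_⟩
  · unfold centre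
    rw [div_le_one hn']
    exact hkn'
  · simp only [centre, Finset.sum_const, Finset.card_univ, Fintype.card_fin, nsmul_eq_mul]
    field_simp

theorem centre_fixed {k n : ℕ} (σ : Equiv.Perm (Fin n)) : permute σ (centre k n) = centre k n := by
  funext i
  rfl

/-- the carrier of the centre -/
theorem centre_carrier {k n : ℕ} (hk : 0 < k) (hkn : k < n) (T : LatticeTriangulation k n)
    {G : Subgroup (Equiv.Perm (Fin n))} (hT : Invariant G T) :
    ∃ D : Finset (Finset (Fin n)), IsCarrier T D (centre k n) ∧ D.Nonempty ∧ D.card ≤ n ∧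
      ∀ σ ∈ G, ∀ I ∈ D, I.map σ.toEmbedding ∈ D := by
  obtain ⟨D, hD⟩ := car_exists T (centre_mem (by omega) hkn.le)
  refine ⟨D, hD, ?_, face_card_le hk T hD.card hD.face, ?_⟩
  · obtain ⟨w, _, hw1, _⟩ := hD.wt
    rcases D.eq_empty_or_nonempty with h | h
    · subst h
      simp at hw1
    · exact h
  · intro σ hσ
    exact car_inv hk T hT hD hσ (centre_fixed σ)

theorem no_two_transitive {k n : ℕ} (hk : 2 ≤ k) (hkn : k + 2 ≤ n) (T : LatticeTriangulation k n)
    {G : Subgroup (Equiv.Perm (Fin n))} (hT : Invariant G T) : ¬ TwoTransitive G := by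
  classical
  intro hG
  obtain ⟨D, hD, hne, hle, hinv⟩ := centre_carrier (by omega : 0 < k) (by omega : k < n) T hT
  have hn : D.card = n := le_antisymm hle
    (fisher (by omega) (by omega) hG D hne hD.card hinv)
  obtain ⟨B, hB⟩ := hne
  -- transitivity on `D`
  have htr : ∀ I ∈ D, ∃ σ ∈ G, B.map σ.toEmbedding = I := by
    set D' := D.filter (fun I => ∃ σ ∈ G, B.map σ.toEmbedding = I) with hD'
    have hsub : D' ⊆ D := Finset.filter_subset _ _
    have hne' : D'.Nonempty := by
      refine ⟨B, ?_⟩
      rw [hD', Finset.mem_filter]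
      refine ⟨hB, 1, G.one_mem, ?_⟩
      ext i
      rw [Finset.mem_map_equiv]
      exact Iff.rfl
    have hinv' : ∀ σ ∈ G, ∀ I ∈ D', I.map σ.toEmbedding ∈ D' := by
      intro σ hσ I hI
      rw [hD', Finset.mem_filter] at hI ⊢
      obtain ⟨hI1, τ, hτ, rfl⟩ := hI
      refine ⟨hinv σ hσ _ hI1, σ * τ, G.mul_mem hσ hτ, ?_⟩
      rw [Finset.map_map]
      rfl
    have hcard' : n ≤ D'.card :=
      fisher (by omega) (by omega) hG D' hne' (fun I hI => hD.card I (hsub hI)) hinv'
    have heq : D' = D := Finset.eq_of_subset_of_card_le hsub (by omega)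
    intro I hI
    rw [← heq, hD', Finset.mem_filter] at hI
    exact hI.2
  obtain ⟨C, hCk, hCD, hCinv⟩ := cross (by omega) (by omega) T hT hD hn hinv B hB
    (count_in hk hkn hG D hn hD.card hinv B) (count_out hk hkn hG D hn hD.card hinv B)
  obtain ⟨α, β, hαβ⟩ := commute hG D hn (face_lin (by omega) T hD.card hD.face) hinv B hB htr C
    hCinv
  have hBk : B.card = k := hD.card B hB
  obtain ⟨i, hi⟩ : ∃ i, i ∈ B := by
    have : 0 < B.card := by omega
    exact Finset.card_pos.1 this
  obtain ⟨j, hj⟩ : ∃ j, j ∉ B := by
    by_contra hcon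
    push Not at hcon
    have : B = Finset.univ := Finset.eq_univ_iff_forall.2 hcon
    rw [this, Finset.card_univ, Fintype.card_fin] at hBk
    omega
  have h1 : ∀ l, l ∈ B → ind C l = α + β := by
    intro l hl
    rw [hαβ l]
    simp [ind, hl]
  have h2 : ∀ l, l ∉ B → ind C l = β := by
    intro l hl
    rw [hαβ l]
    simp [ind, hl]
  by_cases hiC : i ∈ C
  · by_cases hjC : j ∈ C
    · -- everything
      have a1 : α + β = 1 := by rw [← h1 i hi]; simp [ind, hiC]
      have a2 : β = 1 := by rw [← h2 j hj]; simp [ind, hjC]
      have : C = Finset.univ := by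
        apply Finset.eq_univ_iff_forall.2
        intro l
        by_contra hl
        have h0 : ind C l = 0 := by simp [ind, hl]
        by_cases hlB : l ∈ B
        · rw [h1 l hlB] at h0; linarith
        · rw [h2 l hlB] at h0; linarith
      rw [this, Finset.card_univ, Fintype.card_fin] at hCk
      omega
    · -- `C = B`
      have a1 : α + β = 1 := by rw [← h1 i hi]; simp [ind, hiC]
      have a2 : β = 0 := by rw [← h2 j hj]; simp [ind, hjC]
      have : C = B := by
        ext l
        constructor
        · intro hl
          by_contra hlB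
          have := h2 l hlB
          simp [ind, hl] at this
          linarith
        · intro hl
          by_contra hlC
          have := h1 l hl
          simp [ind, hlC] at this
          linarith
      exact hCD (this ▸ hB)
  · by_cases hjC : j ∈ C
    · -- complement
      have a1 : α + β = 0 := by rw [← h1 i hi]; simp [ind, hiC]
      have a2 : β = 1 := by rw [← h2 j hj]; simp [ind, hjC]
      have hcomp : C = Bᶜ := by
        ext l
        rw [Finset.mem_compl]
        constructor
        · intro hl hlB
          have := h1 l hlB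
          simp [ind, hl] at this
          linarith
        · intro hl
          by_contra hlC
          have := h2 l hl
          simp [ind, hlC] at this
          linarith
      have hcard : n = 2 * k := by
        have := Finset.card_compl B
        rw [← hcomp, Fintype.card_fin, hCk, hBk] at this
        omega
      have hdvd := count_dvd hk hkn hG D hn hD.card hinv
      have hcop : Nat.Coprime (n - 1) k := by
        rw [hcard]
        have : 2 * k - 1 = 1 * k + (k - 1) := by omega
        rw [this]
        rw [Nat.coprime_mul_right_add_left]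
        have h3 := (Nat.coprime_self_sub_right (show 1 ≤ k by omega)).2 (Nat.coprime_one_right k)
        exact h3.symm
      have h4 : (n - 1) ∣ (k - 1) := hcop.dvd_of_dvd_mul_left hdvd
      have h5 := Nat.le_of_dvd (by omega) h4
      omega
    · -- nothing
      have a1 : α + β = 0 := by rw [← h1 i hi]; simp [ind, hiC]
      have a2 : β = 0 := by rw [← h2 j hj]; simp [ind, hjC]
      have : C = ∅ := by
        apply Finset.eq_empty_iff_forall_notMem.2
        intro l hl
        have h0 : ind C l = 1 := by simp [ind, hl]
        by_cases hlB : l ∈ B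
        · rw [h1 l hlB] at h0; linarith
        · rw [h2 l hlB] at h0; linarith
      rw [this, Finset.card_empty] at hCk
      omega

end Pool.Agent.Lib.HyS
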