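import Pool.Agent.Lib.HyS.Thr
import Pool.Agent.Lib.HyS.Ind

/-!
# HyS, row Unq: a point is in the relative interior of only one simplex

PROOF IN WORDS. By `threshold` every `v ∈ s ∪ t` has a number `c v` in `(0,1]` with
`cum v m = ⌊cum p m⌋ + [c v ≤ fract (cum p m)]`. For `v, v'` with `c v' ≤ c v` this gives
`cum v' m - cum v m ∈ {0, 1}` for all `m`, so they are sorted (`sorted_of_step`, `Sorted.symm`): so
`s ∪ t` is `IsAlc`. Let `d v = (if v ∈ s then w v else 0) - (if v ∈ t then w' v else 0)`. Then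
`∑ v ∈ s ∪ t, d v = 0` and `∑ d v • v = 0`, so `d = 0` on `s ∪ t` (`alc_weights_zero`), and
positivity of the weights gives `s = t`.
-/

namespace Pool.Agent.Lib.HyS

theorem alc_unique {k n : ℕ} {s t : Finset (Fin n → ℝ)} (hs : IsAlc k s) (ht : IsAlc k t)
    (w : (Fin n → ℝ) → ℝ) (hw : ∀ v ∈ s, 0 < w v) (hsum : ∑ v ∈ s, w v = 1)
    (w' : (Fin n → ℝ) → ℝ) (hw' : ∀ v ∈ t, 0 < w' v) (hsum' : ∑ v ∈ t, w' v = 1)
    {p : Fin n → ℝ} (hp : ∑ v ∈ s, w v • v = p) (hp' : ∑ v ∈ t, w' v • v = p) : s = t := by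
  classical
  have thr : ∀ v ∈ s ∪ t, ∃ c : ℝ, 0 < c ∧ c ≤ 1 ∧
      ∀ m, cum v m = (⌊cum p m⌋ : ℝ) + (if c ≤ Int.fract (cum p m) then 1 else 0) := by
    intro v hv
    rcases Finset.mem_union.1 hv with h | h
    · exact threshold hs w hw hsum hp v h
    · exact threshold ht w' hw' hsum' hp' v h
  have step : ∀ v v' : Fin n → ℝ, ∀ c c' : ℝ, c' ≤ c →
      (∀ m, cum v m = (⌊cum p m⌋ : ℝ) + (if c ≤ Int.fract (cum p m) then 1 else 0)) →
      (∀ m, cum v' m = (⌊cum p m⌋ : ℝ) + (if c' ≤ Int.fract (cum p m) then 1 else 0)) →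
      Sorted v v' := by
    intro v v' c c' h hc hc'
    apply sorted_of_step
    intro m
    rw [hc m, hc' m]
    by_cases h1 : c ≤ Int.fract (cum p m)
    · rw [if_pos h1, if_pos (h.trans h1)]
      exact Or.inl rfl
    · by_cases h2 : c' ≤ Int.fract (cum p m)
      · rw [if_neg h1, if_pos h2]
        exact Or.inr (by ring)
      · rw [if_neg h1, if_neg h2]
        exact Or.inl rfl
  have hst : IsAlc k (s ∪ t) := by
    refine ⟨hs.ne.mono Finset.subset_union_left, ?_, ?_⟩
    · intro v hv
      rcases Finset.mem_union.1 hv with h | h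
      · exact hs.vert v h
      · exact ht.vert v h
    · intro v hv v' hv'
      obtain ⟨c, _, _, hc⟩ := thr v hv
      obtain ⟨c', _, _, hc'⟩ := thr v' hv'
      rcases le_total c' c with h | h
      · exact step v v' c c' h hc hc'
      · exact (step v' v c' c h hc' hc).symm
  have h0 : ∑ v ∈ s ∪ t, ((if v ∈ s then w v else 0) - (if v ∈ t then w' v else 0)) = 0 := by
    rw [Finset.sum_sub_distrib, Finset.sum_ite_mem, Finset.sum_ite_mem,
      Finset.union_inter_cancel_left, Finset.union_inter_cancel_right, hsum, hsum', sub_self]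
  have h1 : ∑ v ∈ s ∪ t, ((if v ∈ s then w v else 0) - (if v ∈ t then w' v else 0)) • v = 0 := by
    simp only [sub_smul, ite_smul, zero_smul]
    rw [Finset.sum_sub_distrib, Finset.sum_ite_mem, Finset.sum_ite_mem,
      Finset.union_inter_cancel_left, Finset.union_inter_cancel_right, hp, hp', sub_self]
  have hz := alc_weights_zero hst
    (fun v => (if v ∈ s then w v else 0) - (if v ∈ t then w' v else 0)) h0 h1
  ext v
  constructor
  · intro h
    by_contra hn
    have h2 := hz v (Finset.mem_union_left _ h)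
    simp only [if_pos h, if_neg hn] at h2
    have := hw v h
    linarith
  · intro h
    by_contra hn
    have h2 := hz v (Finset.mem_union_right _ h)
    simp only [if_pos h, if_neg hn] at h2
    have := hw' v h
    linarith

end Pool.Agent.Lib.HyS
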